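import Pool.Agent.Y859.MU.Main

set_option autoImplicit false

/-!
# Final forms
-/

namespace Pool.Agent.Y859.MU

open Finset Filter
open Pool.Agent.Y859.SP.Cg

/-- `m` has at most `R` prime factors (with multiplicity), the odd ones larger than
`X ^ (1 / R)` -/
def Few (R X m : ℕ) : Prop :=
  m.primeFactorsList.length ≤ R ∧
    ∀ p : ℕ, p.Prime → p ≠ 2 → p ∣ m → (X : ℝ) ^ (1 / (R : ℝ)) < (p : ℝ)

lemma Few.mono {R R' X m : ℕ} (hX : 1 ≤ X) (hR : 1 ≤ R) (h : R ≤ R') (hm : Few R X m) :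
    Few R' X m := by
  refine ⟨hm.1.trans h, fun p hp h2 hd => lt_of_le_of_lt ?_ (hm.2 p hp h2 hd)⟩
  apply Real.rpow_le_rpow_of_exponent_le (by exact_mod_cast hX)
  exact one_div_le_one_div_of_le (by exact_mod_cast hR) (by exact_mod_cast h)

/-- all classes modulo `16` of even numbers, all classes modulo `8` of odd numbers -/
theorem main (ε : ℝ) (hε : 0 < ε) (hε1 : ε ≤ 1 / 2) : ∃ R X0 : ℕ, 1 ≤ R ∧ ∀ X : ℕ, X0 ≤ X →
    ∀ B : ℕ, Squarefree B → (B : ℝ) ≤ (X : ℝ) ^ (1 / 2 - ε) →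
      (Odd B → ∀ r : ℕ, Odd r → r < 8 → (X : ℝ) ^ (1 / 2 - ε) / B ≤
        ({n : ℕ | n ≤ X ∧ n % 8 = r ∧ Squarefree n ∧ IsCong n ∧
          ∃ m, n = B * m ∧ Few R X m}.ncard : ℝ)) ∧
      (∀ r : ℕ, r % 4 = 2 → r < 16 → (X : ℝ) ^ (1 / 2 - ε) / B ≤
        ({n : ℕ | n ≤ X ∧ n % 16 = r ∧ Squarefree n ∧ IsCong n ∧
          ∃ m, n = B * m ∧ Few R X m}.ncard : ℝ)) := by
  classical
  obtain ⟨R, hR, h⟩ := count ε hε (by linarith)
  obtain ⟨X0, hX0⟩ := eventually_atTop.1 h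
  refine ⟨R + 1, max X0 1, by omega, ?_⟩
  intro X hX B hBsq hBX
  have hX1 : 1 ≤ X := (le_max_right _ _).trans hX
  have h1 := hX0 X ((le_max_left _ _).trans hX)
  have hB0 : 0 < B := Nat.pos_of_ne_zero hBsq.ne_zero
  have key : ∀ (c N : ℕ) (v : ℤ) (S : Set ℕ), S ⊆ Set.Iic X →
      (∀ n, n ∈ cset c N R X v → n ∈ S) → (cset c N R X v).card ≤ S.ncard := by
    intro c N v S hS hsub
    rw [← Set.ncard_coe_finset]
    exact Set.ncard_le_ncard (fun n hn => hsub n hn) ((Set.finite_Iic X).subset hS)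
  have fin : ∀ (c N : ℕ) (v : ℤ) (n : ℕ), n ∈ cset c N R X v → n ≤ X ∧
      ∃ l : ℕ, n = c * (N * l) ∧ Squarefree n ∧ IsCong n ∧ ((N * l : ℕ) : ℤ) ≡ v [ZMOD 8] ∧
        Few R X l := by
    intro c N v n hn
    unfold cset at hn
    rw [mem_filter, mem_range] at hn
    obtain ⟨hn1, l, h2, h3, h4, h5, h6, h7⟩ := hn
    exact ⟨by omega, l, h2, h3, h4, h5, h6, fun p hp _ hd => h7 p hp hd⟩
  refine ⟨?_, ?_⟩
  · intro hBo r hr hr8
    have hB2 : ¬ 2 ∣ B := by
      rw [Nat.odd_iff] at hBo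
      omega
    have h2 := h1 B hBsq hB2 hBX 1 ((r : ℤ) + 4) (Or.inl rfl) (by
      rw [Nat.odd_iff] at hr
      omega)
    refine h2.trans ?_
    have h3 := key 1 B (((r : ℤ) + 4) * (1 + 4 * ((1 : ℕ) : ℤ) * ((r : ℤ) + 4)))
      {n : ℕ | n ≤ X ∧ n % 8 = r ∧ Squarefree n ∧ IsCong n ∧ ∃ m, n = B * m ∧ Few (R + 1) X m}
      (fun n hn => hn.1) (by
        intro n hn
        obtain ⟨g1, l, g2, g3, g4, g5, g6⟩ := fin _ _ _ n hn
        refine ⟨g1, ?_, g3, g4, l, by rw [g2, one_mul], g6.mono hX1 hR (by omega)⟩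
        rw [one_mul] at g2
        rw [← g2] at g5
        have g7 := g5.dvd
        rw [Nat.odd_iff] at hr
        have hr' : r = 1 ∨ r = 3 ∨ r = 5 ∨ r = 7 := by omega
        rcases hr' with rfl | rfl | rfl | rfl <;> norm_num at g7 <;> omega)
    exact_mod_cast h3
  · intro r hr4 hr16
    obtain ⟨r', hr'⟩ : ∃ r', r = 2 * r' := ⟨r / 2, by omega⟩
    rcases Nat.even_or_odd B with hBe | hBo
    · obtain ⟨N, hN⟩ := even_iff_two_dvd.1 hBe
      have hNsq : Squarefree N := hBsq.squarefree_of_dvd ⟨2, by rw [hN]; ring⟩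
      have hN2 : ¬ 2 ∣ N := by
        rintro ⟨N', hN'⟩
        have := hBsq 2 ⟨N', by rw [hN, hN']; ring⟩
        rw [Nat.isUnit_iff] at this
        omega
      have hNB : (N : ℝ) ≤ B := by exact_mod_cast (by omega : N ≤ B)
      have hN0 : (0 : ℝ) < N := by exact_mod_cast (by omega : 0 < N)
      have h2 := h1 N hNsq hN2 (hNB.trans hBX) 2 (r' : ℤ) (Or.inr rfl) (by omega)
      have h20 : (X : ℝ) ^ (1 / 2 - ε) / B ≤ (X : ℝ) ^ (1 / 2 - ε) / N :=
        div_le_div_of_nonneg_left (by positivity) hN0 hNB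
      refine h20.trans (h2.trans ?_)
      have h3 := key 2 N ((r' : ℤ) * (1 + 4 * ((2 : ℕ) : ℤ) * (r' : ℤ)))
        {n : ℕ | n ≤ X ∧ n % 16 = r ∧ Squarefree n ∧ IsCong n ∧ ∃ m, n = B * m ∧ Few (R + 1) X m}
        (fun n hn => hn.1) (by
          intro n hn
          obtain ⟨g1, l, g2, g3, g4, g5, g6⟩ := fin _ _ _ n hn
          refine ⟨g1, ?_, g3, g4, l, by rw [g2, hN]; ring, g6.mono hX1 hR (by omega)⟩
          obtain ⟨w, hw⟩ : ∃ w, w = N * l := ⟨_, rfl⟩
          rw [← hw] at g2 g5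
          have g7 := g5.dvd
          have hr'' : r' = 1 ∨ r' = 3 ∨ r' = 5 ∨ r' = 7 := by omega
          rw [hr']
          rcases hr'' with rfl | rfl | rfl | rfl <;> norm_num at g7 <;> omega)
      exact_mod_cast h3
    · have hB2 : ¬ 2 ∣ B := by
        rw [Nat.odd_iff] at hBo
        omega
      have h2 := h1 B hBsq hB2 hBX 2 (r' : ℤ) (Or.inr rfl) (by omega)
      refine h2.trans ?_
      have h3 := key 2 B ((r' : ℤ) * (1 + 4 * ((2 : ℕ) : ℤ) * (r' : ℤ)))
        {n : ℕ | n ≤ X ∧ n % 16 = r ∧ Squarefree n ∧ IsCong n ∧ ∃ m, n = B * m ∧ Few (R + 1) X m}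
        (fun n hn => hn.1) (by
          intro n hn
          obtain ⟨g1, l, g2, g3, g4, g5, g6⟩ := fin _ _ _ n hn
          have hl0 : l ≠ 0 := by
            rintro rfl
            rw [mul_zero, mul_zero] at g2
            rw [g2] at g3
            exact not_squarefree_zero g3
          refine ⟨g1, ?_, g3, g4, 2 * l, by rw [g2]; ring, ?_, ?_⟩
          · obtain ⟨w, hw⟩ : ∃ w, w = B * l := ⟨_, rfl⟩
            rw [← hw] at g2 g5
            have g7 := g5.dvd
            have hr'' : r' = 1 ∨ r' = 3 ∨ r' = 5 ∨ r' = 7 := by omega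
            rw [hr']
            rcases hr'' with rfl | rfl | rfl | rfl <;> norm_num at g7 <;> omega
          · have e1 := (Nat.perm_primeFactorsList_mul two_ne_zero hl0).length_eq
            rw [List.length_append, Nat.primeFactorsList_prime Nat.prime_two] at e1
            simp only [List.length_singleton] at e1
            have := g6.1
            omega
          · intro p hp hp2 hd
            have h5 : p ∣ l := by
              rcases hp.dvd_mul.1 hd with h | h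
              · exact absurd ((Nat.prime_dvd_prime_iff_eq hp Nat.prime_two).1 h) hp2
              · exact h
            exact (g6.mono hX1 hR (by omega : R ≤ R + 1)).2 p hp hp2 h5)
      exact_mod_cast h3

end Pool.Agent.Y859.MU
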