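import Pool.Agent.Y859.MU.Pol

set_option autoImplicit false

/-!
# Admissibility, irreducibility, coefficients
-/

namespace Pool.Agent.Y859.MU

open Polynomial Finset
open Pool.Agent.H373R2.T7 Pool.Agent.W123.RU.Poly
open Pool.Agent.TH464.PW Pool.Agent.Y859.SP

/-- a quadratic polynomial whose discriminant is prime to `p` is not identically zero modulo `p` -/
lemma ex_nonroot (α β γ : ℤ) (p : ℕ) (hp : p.Prime) (h2 : p ≠ 2)
    (hD : ¬ (p : ℤ) ∣ β ^ 2 - 4 * α * γ) : ∃ m : ℕ, ¬ (p : ℤ) ∣ α * (m : ℤ) ^ 2 + β * m + γ := by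
  by_contra hcon
  push Not at hcon
  have h0 := hcon 0
  have h1 := hcon 1
  have h3 := hcon 2
  push_cast at h0 h1 h3
  have hpi : Prime (p : ℤ) := Nat.prime_iff_prime_int.1 hp
  have hp2 : ¬ (p : ℤ) ∣ 2 := by
    intro h
    have h5 : p ∣ 2 := by exact_mod_cast h
    exact h2 ((Nat.prime_dvd_prime_iff_eq hp Nat.prime_two).1 h5)
  obtain ⟨x, hx⟩ := h0
  obtain ⟨y, hy⟩ := h1
  obtain ⟨z, hz⟩ := h3
  have hc : (p : ℤ) ∣ γ := ⟨x, by linarith⟩
  have ha : (p : ℤ) ∣ α := by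
    have h4 : (p : ℤ) ∣ 2 * α := ⟨z - 2 * y + x, by linarith⟩
    exact (hpi.dvd_or_dvd h4).resolve_left hp2
  have hb : (p : ℤ) ∣ β := by
    have h4 : (p : ℤ) ∣ α + β := ⟨y - x, by linarith⟩
    exact (dvd_add_right ha).1 h4
  apply hD
  exact dvd_sub (dvd_pow hb two_ne_zero) ((ha.mul_left 4).mul_right γ)

section

variable {a b N : ℕ} {e u ρ s1 t1 s0 t0 G11 G01 G00 H00 : ℤ}
variable (D : Dat a b N e u ρ s1 t1 s0 t0 G11 G01 G00 H00)

include D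

/-- a common prime divisor of `N` and the second value divides the first one -/
lemma Dat.pN {p : ℕ} (hp : p.Prime) (hpN : p ∣ N) (m : ℤ)
    (h : (p : ℤ) ∣ (fq a b s1 t1 s0 t0 G11 G01 G00 H00 1).eval m) :
    (p : ℤ) ∣ (fq a b s1 t1 s0 t0 G11 G01 G00 H00 0).eval m := by
  have hpi : Prime (p : ℤ) := Nat.prime_iff_prime_int.1 hp
  have hp2 : ¬ (p : ℤ) ∣ 2 := by
    intro h
    have h5 : p ∣ 2 := by exact_mod_cast h
    have h6 := (Nat.prime_dvd_prime_iff_eq hp Nat.prime_two).1 h5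
    exact D.No (h6 ▸ hpN)
  have hpe : ¬ (p : ℤ) ∣ e := by
    intro h
    apply hp2
    rcases D.e8 with h8 | h8
    · rw [h8] at h
      have h9 : (p : ℤ) ∣ 2 ^ 3 := by norm_num; exact h
      exact hpi.dvd_of_dvd_pow h9
    · rw [h8] at h
      have h9 : (p : ℤ) ∣ 2 ^ 4 := by norm_num; exact h
      exact hpi.dvd_of_dvd_pow h9
  obtain ⟨N', hN'⟩ := hpN
  have hpN' : ¬ (p : ℤ) ∣ (N' : ℤ) := by
    intro h
    have h1 : p ∣ N' := by exact_mod_cast h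
    obtain ⟨c, hc⟩ := h1
    have h2 := D.Nsf p ⟨c, by rw [hN', hc]; ring⟩
    exact hp.one_lt.ne' (Nat.isUnit_iff.1 h2)
  have hpb : ¬ (p : ℤ) ∣ (b : ℤ) := by
    intro h
    have h1 : p ∣ b := by exact_mod_cast h
    have h2 := (Nat.prime_dvd_prime_iff_eq hp D.pb).1 h1
    exact D.bN (h2 ▸ ⟨N', hN'⟩)
  obtain ⟨S, hS⟩ : ∃ S, S = s0 + 2 * s1 * m := ⟨_, rfl⟩
  obtain ⟨T, hT⟩ : ∃ T, T = t0 + 2 * t1 * m := ⟨_, rfl⟩
  have hv0 := D.v0 m
  have hv1 := D.v1 m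
  have hL := D.Lm m
  rw [← hS, ← hT] at hv0 hv1 hL
  have hNz : (N : ℤ) = p * N' := by rw [hN']; push_cast; ring
  obtain ⟨w, hw⟩ := h
  have hpT : (p : ℤ) ∣ T := by
    have h1 : (p : ℤ) ∣ 2 * (b * T ^ 2) := by
      refine ⟨2 * w - e * N' * (fq a b s1 t1 s0 t0 G11 G01 G00 H00 0).eval m, ?_⟩
      rw [hNz] at hv0
      rw [hw] at hv1
      linear_combination hv0 - hv1
    have h2 := (hpi.dvd_or_dvd h1).resolve_left hp2
    have h3 := (hpi.dvd_or_dvd h2).resolve_left hpb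
    exact hpi.dvd_of_dvd_pow h3
  have hpS : (p : ℤ) ∣ S := by
    have h1 : (p : ℤ) ∣ 8 * (e * N) := ⟨8 * (e * N'), by rw [hNz]; ring⟩
    have h2 := h1.trans hL
    have h3 := dvd_add h2 (hpT.mul_left ρ)
    rwa [sub_add_cancel] at h3
  obtain ⟨S', hS'⟩ := hpS
  obtain ⟨T', hT'⟩ := hpT
  have hp0 : (p : ℤ) ≠ 0 := hpi.ne_zero
  have h4 : (p : ℤ) ∣ (e * N') * (fq a b s1 t1 s0 t0 G11 G01 G00 H00 0).eval m := by
    refine ⟨a * S' ^ 2 - b * T' ^ 2, ?_⟩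
    have h5 : (p : ℤ) * ((e * N') * (fq a b s1 t1 s0 t0 G11 G01 G00 H00 0).eval m) =
        p * (p * (a * S' ^ 2 - b * T' ^ 2)) := by
      rw [hNz, hS', hT'] at hv0
      linear_combination hv0
    exact mul_left_cancel₀ hp0 h5
  rcases hpi.dvd_or_dvd h4 with h5 | h5
  · rcases hpi.dvd_or_dvd h5 with h6 | h6
    · exact absurd h6 hpe
    · exact absurd h6 hpN'
  · exact h5

lemma Dat.not_dvd_e {p : ℕ} (hp : p.Prime) (hp2 : p ≠ 2) : ¬ (p : ℤ) ∣ e := by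
  intro h
  have hpi : Prime (p : ℤ) := Nat.prime_iff_prime_int.1 hp
  have h3 : (p : ℤ) ∣ 2 := by
    rcases D.e8 with h8 | h8
    · rw [h8] at h
      have h9 : (p : ℤ) ∣ 2 ^ 3 := by norm_num; exact h
      exact hpi.dvd_of_dvd_pow h9
    · rw [h8] at h
      have h9 : (p : ℤ) ∣ 2 ^ 4 := by norm_num; exact h
      exact hpi.dvd_of_dvd_pow h9
  have h4 : p ∣ 2 := by exact_mod_cast h3
  exact hp2 ((Nat.prime_dvd_prime_iff_eq hp Nat.prime_two).1 h4)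

lemma Dat.not_dvd_M {p : ℕ} (hp : p.Prime) (hp2 : p ≠ 2) (hpN : ¬ p ∣ N) :
    ¬ (p : ℤ) ∣ 8 * (e * N) := by
  intro h
  have hpi : Prime (p : ℤ) := Nat.prime_iff_prime_int.1 hp
  rcases hpi.dvd_or_dvd h with h1 | h1
  · have h9 : (p : ℤ) ∣ 2 ^ 3 := by norm_num; exact h1
    have h3 := hpi.dvd_of_dvd_pow h9
    have h4 : p ∣ 2 := by exact_mod_cast h3
    exact hp2 ((Nat.prime_dvd_prime_iff_eq hp Nat.prime_two).1 h4)
  · rcases hpi.dvd_or_dvd h1 with h2 | h2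
    · exact D.not_dvd_e hp hp2 h2
    · exact hpN (by exact_mod_cast h2)

lemma Dat.D0 {p : ℕ} (hp : p.Prime) (hp2 : p ≠ 2) (hpa : p ≠ a) (hpb : p ≠ b) :
    ¬ (p : ℤ) ∣ (4 * G01) ^ 2 - 4 * (4 * G11) * G00 := by
  rw [D.disc0]
  intro h
  have hpi : Prime (p : ℤ) := Nat.prime_iff_prime_int.1 hp
  rcases hpi.dvd_or_dvd h with h1 | h1
  · have h9 : (p : ℤ) ∣ 2 ^ 10 := by norm_num; exact h1
    have h3 := hpi.dvd_of_dvd_pow h9
    have h4 : p ∣ 2 := by exact_mod_cast h3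
    exact hp2 ((Nat.prime_dvd_prime_iff_eq hp Nat.prime_two).1 h4)
  · rcases hpi.dvd_or_dvd h1 with h2 | h2
    · have h3 : p ∣ a := by exact_mod_cast h2
      exact hpa ((Nat.prime_dvd_prime_iff_eq hp D.pa).1 h3)
    · have h3 : p ∣ b := by exact_mod_cast h2
      exact hpb ((Nat.prime_dvd_prime_iff_eq hp D.pb).1 h3)

lemma Dat.D1 {p : ℕ} (hp : p.Prime) (hp2 : p ≠ 2) (hpa : p ≠ a) (hpb : p ≠ b) (hpN : ¬ p ∣ N) :
    ¬ (p : ℤ) ∣ (2 * ((a : ℤ) * s0 * s1 + b * t0 * t1)) ^ 2 -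
      4 * (2 * ((a : ℤ) * s1 ^ 2 + b * t1 ^ 2)) * H00 := by
  rw [D.disc1, dvd_neg]
  intro h
  have hpi : Prime (p : ℤ) := Nat.prime_iff_prime_int.1 hp
  rcases hpi.dvd_or_dvd h with h1 | h1
  · rcases hpi.dvd_or_dvd h1 with h1 | h1
    · have h9 : (p : ℤ) ∣ 2 ^ 2 := by norm_num; exact h1
      have h3 := hpi.dvd_of_dvd_pow h9
      have h4 : p ∣ 2 := by exact_mod_cast h3
      exact hp2 ((Nat.prime_dvd_prime_iff_eq hp Nat.prime_two).1 h4)
    · rcases hpi.dvd_or_dvd h1 with h2 | h2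
      · have h3 : p ∣ a := by exact_mod_cast h2
        exact hpa ((Nat.prime_dvd_prime_iff_eq hp D.pa).1 h3)
      · have h3 : p ∣ b := by exact_mod_cast h2
        exact hpb ((Nat.prime_dvd_prime_iff_eq hp D.pb).1 h3)
  · exact D.not_dvd_M hp hp2 hpN (hpi.dvd_of_dvd_pow h1)

lemma Dat.non0 {p : ℕ} (hp : p.Prime) (hp2 : p ≠ 2) (hpa : p ≠ a) (hpb : p ≠ b) :
    ∃ m : ℕ, ¬ (p : ℤ) ∣ (fq a b s1 t1 s0 t0 G11 G01 G00 H00 0).eval (m : ℤ) := by
  obtain ⟨m, hm⟩ := ex_nonroot _ _ _ p hp hp2 (D.D0 hp hp2 hpa hpb)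
  exact ⟨m, by rwa [fq0]⟩

lemma Dat.non1 {p : ℕ} (hp : p.Prime) (hp2 : p ≠ 2) (hpa : p ≠ a) (hpb : p ≠ b) (hpN : ¬ p ∣ N) :
    ∃ m : ℕ, ¬ (p : ℤ) ∣ (fq a b s1 t1 s0 t0 G11 G01 G00 H00 1).eval (m : ℤ) := by
  obtain ⟨m, hm⟩ := ex_nonroot _ _ _ p hp hp2 (D.D1 hp hp2 hpa hpb hpN)
  exact ⟨m, by rwa [fq1]⟩

/-- a linear form which is not identically zero -/
lemma Dat.lin {p : ℕ} (hp : p.Prime) (hp2 : p ≠ 2) (hpN : ¬ p ∣ N) :
    (∃ m : ℕ, ¬ (p : ℤ) ∣ t0 + 2 * t1 * m) ∧ (∃ m : ℕ, ¬ (p : ℤ) ∣ s0 + 2 * s1 * m) := by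
  have hpi : Prime (p : ℤ) := Nat.prime_iff_prime_int.1 hp
  have hp2' : ¬ (p : ℤ) ∣ 2 := by
    intro h
    have h5 : p ∣ 2 := by exact_mod_cast h
    exact hp2 ((Nat.prime_dvd_prime_iff_eq hp Nat.prime_two).1 h5)
  constructor
  · by_contra hcon
    push Not at hcon
    have h0 := hcon 0
    have h1 := hcon 1
    push_cast at h0 h1
    rw [mul_zero, add_zero] at h0
    rw [mul_one] at h1
    have h2 := (hpi.dvd_or_dvd ((dvd_add_right h0).1 h1)).resolve_left hp2'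
    apply D.not_dvd_M hp hp2 hpN
    rw [← D.det]
    exact dvd_sub (h0.mul_left _) (h2.mul_left _)
  · by_contra hcon
    push Not at hcon
    have h0 := hcon 0
    have h1 := hcon 1
    push_cast at h0 h1
    rw [mul_zero, add_zero] at h0
    rw [mul_one] at h1
    have h2 := (hpi.dvd_or_dvd ((dvd_add_right h0).1 h1)).resolve_left hp2'
    apply D.not_dvd_M hp hp2 hpN
    rw [← D.det]
    exact dvd_sub (h2.mul_right _) (h0.mul_right _)

/-- `3` does not divide both coordinates -/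
lemma Dat.three (m : ℤ) (hN : ¬ 3 ∣ N)
    (h : (3 : ℤ) ∣ (s0 + 2 * s1 * m) ^ 2 + (t0 + 2 * t1 * m) ^ 2) : False := by
  obtain ⟨S, hS⟩ : ∃ S, S = s0 + 2 * s1 * m := ⟨_, rfl⟩
  obtain ⟨T, hT⟩ : ∃ T, T = t0 + 2 * t1 * m := ⟨_, rfl⟩
  have hdet := D.detm m
  rw [← hS, ← hT] at h hdet
  have h3 : (3 : ℤ) ∣ S ∧ (3 : ℤ) ∣ T := by
    have hS3 : S % 3 = 0 ∨ S % 3 = 1 ∨ S % 3 = 2 := by omega
    have hT3 : T % 3 = 0 ∨ T % 3 = 1 ∨ T % 3 = 2 := by omega
    have h4 : (S ^ 2 + T ^ 2) % 3 = 0 := Int.emod_eq_zero_of_dvd h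
    rw [Int.add_emod, pow_two, pow_two, Int.mul_emod, Int.mul_emod T] at h4
    rcases hS3 with h5 | h5 | h5 <;> rcases hT3 with h6 | h6 | h6 <;> rw [h5, h6] at h4 <;>
      norm_num at h4
    exact ⟨Int.dvd_of_emod_eq_zero h5, Int.dvd_of_emod_eq_zero h6⟩
  apply D.not_dvd_M Nat.prime_three (by norm_num) hN
  rw [← hdet]
  push_cast
  exact dvd_sub (h3.2.mul_left _) (h3.1.mul_right _)

/-- **no fixed prime divisor** -/
lemma Dat.adm (p : ℕ) (hp : p.Prime) :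
    ∃ m : ℕ, ∀ i, ¬ (p : ℤ) ∣ (fq a b s1 t1 s0 t0 G11 G01 G00 H00 i).eval (m : ℤ) := by
  have hpi : Prime (p : ℤ) := Nat.prime_iff_prime_int.1 hp
  have fin : ∀ m : ℕ, ¬ (p : ℤ) ∣ (fq a b s1 t1 s0 t0 G11 G01 G00 H00 0).eval (m : ℤ) →
      ¬ (p : ℤ) ∣ (fq a b s1 t1 s0 t0 G11 G01 G00 H00 1).eval (m : ℤ) →
      ∃ m : ℕ, ∀ i, ¬ (p : ℤ) ∣ (fq a b s1 t1 s0 t0 G11 G01 G00 H00 i).eval (m : ℤ) := by
    intro m h0 h1
    refine ⟨m, fun i => ?_⟩
    fin_cases i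
    · exact h0
    · exact h1
  by_cases hp2 : p = 2
  · subst hp2
    exact fin 0 (D.odd0 _) (D.odd1 _)
  by_cases hpN : p ∣ N
  · have hpa : p ≠ a := fun h => D.aN (h ▸ hpN)
    have hpb : p ≠ b := fun h => D.bN (h ▸ hpN)
    obtain ⟨m, hm⟩ := D.non0 hp hp2 hpa hpb
    exact fin m hm (fun h => hm (D.pN hp hpN m h))
  by_cases hpa : p = a
  · obtain ⟨⟨m, hm⟩, -⟩ := D.lin hp hp2 hpN
    have hpb : ¬ (p : ℤ) ∣ (b : ℤ) := by
      intro h
      have h1 : p ∣ b := by exact_mod_cast h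
      have h2 := (Nat.prime_dvd_prime_iff_eq hp D.pb).1 h1
      exact D.hab (by rw [← hpa, h2])
    have key : ¬ (p : ℤ) ∣ b * (t0 + 2 * t1 * m) ^ 2 := by
      intro h
      rcases hpi.dvd_or_dvd h with h1 | h1
      · exact hpb h1
      · exact hm (hpi.dvd_of_dvd_pow h1)
    have hap : (p : ℤ) ∣ a * (s0 + 2 * s1 * m) ^ 2 := by
      rw [← hpa]
      exact dvd_mul_right _ _
    refine fin m ?_ ?_
    · intro h
      apply key
      have h1 := h.mul_left (e * (N : ℤ))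
      rw [D.v0] at h1
      have h2 := dvd_sub hap h1
      rwa [sub_sub_cancel] at h2
    · intro h
      apply key
      have h1 := h.mul_left 2
      rw [D.v1] at h1
      exact (dvd_add_right hap).1 h1
  by_cases hpb : p = b
  · obtain ⟨-, m, hm⟩ := D.lin hp hp2 hpN
    have hpa' : ¬ (p : ℤ) ∣ (a : ℤ) := by
      intro h
      have h1 : p ∣ a := by exact_mod_cast h
      exact hpa ((Nat.prime_dvd_prime_iff_eq hp D.pa).1 h1)
    have key : ¬ (p : ℤ) ∣ a * (s0 + 2 * s1 * m) ^ 2 := by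
      intro h
      rcases hpi.dvd_or_dvd h with h1 | h1
      · exact hpa' h1
      · exact hm (hpi.dvd_of_dvd_pow h1)
    have hap : (p : ℤ) ∣ b * (t0 + 2 * t1 * m) ^ 2 := by
      rw [← hpb]
      exact dvd_mul_right _ _
    refine fin m ?_ ?_
    · intro h
      apply key
      have h1 := h.mul_left (e * (N : ℤ))
      rw [D.v0] at h1
      exact (dvd_sub_left hap).1 h1
    · intro h
      apply key
      have h1 := h.mul_left 2
      rw [D.v1] at h1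
      exact (dvd_add_left hap).1 h1
  obtain ⟨m0, hm0⟩ := D.non0 hp hp2 hpa hpb
  obtain ⟨m1, hm1⟩ := D.non1 hp hp2 hpa hpb hpN
  by_cases hp3 : p = 3
  · subst hp3
    push_cast at hm0 hm1
    have ha3 : ¬ (3 : ℤ) ∣ (a : ℤ) := by
      intro h
      have h1 : 3 ∣ a := by exact_mod_cast h
      have := (Nat.prime_dvd_prime_iff_eq Nat.prime_three D.pa).1 h1
      have := D.a5
      omega
    have hb3 : ¬ (3 : ℤ) ∣ (b : ℤ) := by
      intro h
      have h1 : 3 ∣ b := by exact_mod_cast h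
      have := (Nat.prime_dvd_prime_iff_eq Nat.prime_three D.pb).1 h1
      have := D.b5
      omega
    have h33 : Prime (3 : ℤ) := Int.prime_three
    have hcase : (3 : ℤ) ∣ (a : ℤ) - b ∨ (3 : ℤ) ∣ (a : ℤ) + b := by
      have ha' : (a : ℤ) % 3 = 1 ∨ (a : ℤ) % 3 = 2 := by omega
      have hb' : (b : ℤ) % 3 = 1 ∨ (b : ℤ) % 3 = 2 := by omega
      rcases ha' with h | h <;> rcases hb' with h' | h' <;> omega
    rcases hcase with hc | hc
    · refine fin m0 (by push_cast; exact hm0) ?_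
      intro h
      push_cast at h
      have h1 := h.mul_left 2
      rw [D.v1] at h1
      obtain ⟨c, hc⟩ := hc
      obtain ⟨w, hw⟩ := h1
      have h2 : (3 : ℤ) ∣ a * ((s0 + 2 * s1 * m0) ^ 2 + (t0 + 2 * t1 * m0) ^ 2) :=
        ⟨w + c * (t0 + 2 * t1 * m0) ^ 2, by linear_combination hw + (t0 + 2 * t1 * m0) ^ 2 * hc⟩
      exact D.three m0 hpN ((h33.dvd_or_dvd h2).resolve_left ha3)
    · refine fin m1 ?_ (by push_cast; exact hm1)
      intro h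
      push_cast at h
      have h1 := h.mul_left (e * (N : ℤ))
      rw [D.v0] at h1
      obtain ⟨c, hc⟩ := hc
      obtain ⟨w, hw⟩ := h1
      have h2 : (3 : ℤ) ∣ a * ((s0 + 2 * s1 * m1) ^ 2 + (t0 + 2 * t1 * m1) ^ 2) :=
        ⟨w + c * (t0 + 2 * t1 * m1) ^ 2, by linear_combination hw + (t0 + 2 * t1 * m1) ^ 2 * hc⟩
      exact D.three m1 hpN ((h33.dvd_or_dvd h2).resolve_left ha3)
  · -- at most four classes
    have hp5 : 5 ≤ p := by
      have h2 := hp.two_le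
      by_contra h
      have h4 : p = 4 := by omega
      rw [h4] at hp
      norm_num at hp
    have hd0 : (fq a b s1 t1 s0 t0 G11 G01 G00 H00 0).natDegree ≤ 2 := by
      unfold fq
      rw [if_pos rfl]
      unfold quad
      exact natDegree_quadratic_le
    have hd1 : (fq a b s1 t1 s0 t0 G11 G01 G00 H00 1).natDegree ≤ 2 := by
      unfold fq
      rw [if_neg (by decide)]
      unfold quad
      exact natDegree_quadratic_le
    have g0 := (SysU.rho_le_deg _ p hp m0 hm0).trans hd0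
    have g1 := (SysU.rho_le_deg _ p hp m1 hm1).trans hd1
    unfold Pool.Agent.H474R2.PG.rho at g0 g1
    by_contra hcon
    have h5 : range p ⊆ (range p).filter (fun m : ℕ =>
          (p : ℤ) ∣ (fq a b s1 t1 s0 t0 G11 G01 G00 H00 0).eval (m : ℤ)) ∪
        (range p).filter (fun m : ℕ =>
          (p : ℤ) ∣ (fq a b s1 t1 s0 t0 G11 G01 G00 H00 1).eval (m : ℤ)) := by
      intro m hm
      rw [mem_union, mem_filter, mem_filter]
      by_contra hc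
      push Not at hc
      exact hcon (fin m (hc.1 hm) (hc.2 hm))
    have h6 := card_le_card h5
    have h7 := card_union_le ((range p).filter (fun m : ℕ =>
          (p : ℤ) ∣ (fq a b s1 t1 s0 t0 G11 G01 G00 H00 0).eval (m : ℤ)))
        ((range p).filter (fun m : ℕ =>
          (p : ℤ) ∣ (fq a b s1 t1 s0 t0 G11 G01 G00 H00 1).eval (m : ℤ)))
    rw [card_range] at h6
    omega

end

end Pool.Agent.Y859.MU
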