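import Mathlib

set_option autoImplicit false

/-!
# A short basis of a lattice, the indefinite form being positive at the first vector
-/

namespace Pool.Agent.Y859.MU

open Finset

/-- Thue's lemma -/
lemma thue (M ρ : ℤ) (hM : 0 < M) (S T : ℕ) (h : M < (S + 1) * (T + 1)) :
    ∃ s t : ℤ, (s ≠ 0 ∨ t ≠ 0) ∧ |s| ≤ S ∧ |t| ≤ T ∧ M ∣ s - ρ * t := by
  classical
  have h1 : (Finset.Ico (0 : ℤ) M).card < ((range (S + 1)) ×ˢ (range (T + 1))).card := by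
    rw [Int.card_Ico, card_product, card_range, card_range]
    zify
    rw [Int.toNat_of_nonneg (by linarith)]
    linarith
  obtain ⟨x, hx, y, hy, hxy, he⟩ := Finset.exists_ne_map_eq_of_card_lt_of_maps_to h1
    (f := fun x : ℕ × ℕ => ((x.1 : ℤ) - ρ * x.2) % M) (by
      intro x _
      rw [Finset.mem_coe, Finset.mem_Ico]
      exact ⟨Int.emod_nonneg _ hM.ne', Int.emod_lt_of_pos _ hM⟩)
  rw [mem_product, mem_range, mem_range] at hx hy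
  refine ⟨x.1 - y.1, x.2 - y.2, ?_, ?_, ?_, ?_⟩
  · by_contra hc
    push Not at hc
    apply hxy
    ext
    · omega
    · omega
  · rw [abs_le]
    omega
  · rw [abs_le]
    omega
  · have h2 : ((y.1 : ℤ) - ρ * y.2) ≡ ((x.1 : ℤ) - ρ * x.2) [ZMOD M] := he.symm
    have h3 := h2.dvd
    have e : ((x.1 : ℤ) - y.1) - ρ * (x.2 - y.2) = (x.1 - ρ * x.2) - (y.1 - ρ * y.2) := by ring
    rw [e]
    exact h3

/-- a primitive short vector and a complement -/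
lemma prim (M ρ : ℤ) (hM : 0 < M) (S T : ℕ) (h : M < (S + 1) * (T + 1)) :
    ∃ t1 k1 t0 k0 : ℤ, |ρ * t1 + M * k1| ≤ S ∧ |t1| ≤ T ∧ k1 * t0 - k0 * t1 = 1 := by
  obtain ⟨s, t, hst, hs, ht, k, hk⟩ := thue M ρ hM S T h
  have hs' : s = ρ * t + M * k := by linarith
  have hkt : k ≠ 0 ∨ t ≠ 0 := by
    by_contra hc
    push Not at hc
    obtain ⟨h1, h2⟩ := hc
    rw [h1, h2] at hs'
    simp only [mul_zero, add_zero] at hs'
    rcases hst with h3 | h3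
    · exact h3 hs'
    · exact h3 h2
  obtain ⟨g, hg⟩ : ∃ g : ℕ, g = Int.gcd k t := ⟨_, rfl⟩
  have hg0 : 0 < g := by
    rw [hg, Int.gcd_pos_iff]
    exact hkt
  obtain ⟨k1, hk1⟩ : (g : ℤ) ∣ k := by rw [hg]; exact Int.gcd_dvd_left ..
  obtain ⟨t1, ht1⟩ : (g : ℤ) ∣ t := by rw [hg]; exact Int.gcd_dvd_right ..
  have hgz : (0 : ℤ) < g := by exact_mod_cast hg0
  have hcop : IsCoprime k1 t1 := by
    rw [Int.isCoprime_iff_gcd_eq_one]
    have h4 : Int.gcd (g * k1) (g * t1) = g * Int.gcd k1 t1 := by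
      rw [Int.gcd_mul_left, Int.natAbs_natCast]
    rw [← hk1, ← ht1, ← hg] at h4
    have h5 : g * 1 = g * Int.gcd k1 t1 := by rw [mul_one]; exact h4
    exact (Nat.eq_of_mul_eq_mul_left hg0 h5).symm
  obtain ⟨x, y, hxy⟩ := hcop
  refine ⟨t1, k1, x, -y, ?_, ?_, by linarith⟩
  · have e : s = g * (ρ * t1 + M * k1) := by
      rw [hs', hk1, ht1]
      ring
    rw [e, abs_mul, abs_of_pos hgz] at hs
    have h6 := abs_nonneg (ρ * t1 + M * k1)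
    nlinarith
  · rw [ht1, abs_mul, abs_of_pos hgz] at ht
    have h6 := abs_nonneg t1
    nlinarith

/-- the short basis -/
lemma basis (a b E ρ : ℤ) (ha : 0 < a) (hb : 0 < b) (hE : 0 < E) (hρ : E ∣ a * ρ ^ 2 - b)
    (hne : ∀ s t : ℤ, (s ≠ 0 ∨ t ≠ 0) → a * s ^ 2 ≠ b * t ^ 2) :
    ∃ s1 t1 s0 t0 : ℤ, 0 < s1 ∧ 0 ≤ s0 ∧ 8 * E ∣ s1 - ρ * t1 ∧ 8 * E ∣ s0 - ρ * t0 ∧
      s1 * t0 - s0 * t1 = 8 * E ∧ ¬ (2 : ℤ) ∣ t0 ∧ E ≤ a * s1 ^ 2 - b * t1 ^ 2 ∧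
      a * s1 ^ 2 ≤ 64 * (a * b) * E ∧ b * t1 ^ 2 ≤ E ∧
      a * s0 ^ 2 ≤ 256 * (a * b) * E ∧ b * t0 ^ 2 ≤ 640 * (a * b) * E := by
  obtain ⟨T, hT⟩ : ∃ T : ℕ, T = Nat.sqrt ((E - 1) / b).toNat := ⟨_, rfl⟩
  have hq0 : 0 ≤ (E - 1) / b := Int.ediv_nonneg (by linarith) hb.le
  have hT1 : b * (T : ℤ) ^ 2 < E := by
    have h1 : T * T ≤ ((E - 1) / b).toNat := by rw [hT]; exact Nat.sqrt_le _
    have h2 : (T : ℤ) * T ≤ (E - 1) / b := by
      have : ((T * T : ℕ) : ℤ) ≤ (((E - 1) / b).toNat : ℤ) := by exact_mod_cast h1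
      rw [Int.toNat_of_nonneg hq0] at this
      push_cast at this
      exact this
    have h3 : b * ((E - 1) / b) ≤ E - 1 := Int.mul_ediv_self_le hb.ne'
    nlinarith
  have hT2 : E ≤ b * ((T : ℤ) + 1) ^ 2 := by
    have h1 : ((E - 1) / b).toNat < (T + 1) * (T + 1) := by rw [hT]; exact Nat.lt_succ_sqrt _
    have h2 : (E - 1) / b < ((T : ℤ) + 1) * (T + 1) := by
      have : ((((E - 1) / b).toNat : ℕ) : ℤ) < (((T + 1) * (T + 1) : ℕ) : ℤ) := by exact_mod_cast h1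
      rw [Int.toNat_of_nonneg hq0] at this
      push_cast at this
      exact this
    have h3 : E - 1 < b * ((E - 1) / b + 1) := by
      have := Int.lt_ediv_add_one_mul_self (E - 1) hb
      linarith
    nlinarith
  have hTp : (0 : ℤ) < (T : ℤ) + 1 := by positivity
  obtain ⟨S, hS⟩ : ∃ S : ℕ, S = (8 * E / ((T : ℤ) + 1)).toNat := ⟨_, rfl⟩
  have hSz : (S : ℤ) = 8 * E / ((T : ℤ) + 1) := by
    rw [hS]
    exact Int.toNat_of_nonneg (Int.ediv_nonneg (by linarith) hTp.le)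
  have hS1 : 8 * E < ((S : ℤ) + 1) * (T + 1) := by
    rw [hSz]
    exact Int.lt_ediv_add_one_mul_self _ hTp
  have hS2 : (S : ℤ) * (T + 1) ≤ 8 * E := by
    rw [hSz]
    exact Int.ediv_mul_le _ hTp.ne'
  have hS0 : (0 : ℤ) ≤ S := by positivity
  have hS3 : (S : ℤ) ^ 2 ≤ 64 * b * E := by
    have h1 : ((S : ℤ) * (T + 1)) ^ 2 ≤ (8 * E) ^ 2 := pow_le_pow_left₀ (by positivity) hS2 2
    have h2 : (S : ℤ) ^ 2 * E ≤ (64 * b * E) * E := by
      calc (S : ℤ) ^ 2 * E ≤ (S : ℤ) ^ 2 * (b * ((T : ℤ) + 1) ^ 2) :=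
            mul_le_mul_of_nonneg_left hT2 (by positivity)
        _ = b * ((S : ℤ) * (T + 1)) ^ 2 := by ring
        _ ≤ b * (8 * E) ^ 2 := mul_le_mul_of_nonneg_left h1 hb.le
        _ = (64 * b * E) * E := by ring
    exact le_of_mul_le_mul_right h2 hE
  obtain ⟨t1, k1, t0, k0, h1, h2, h3⟩ := prim (8 * E) ρ (by linarith) S T hS1
  obtain ⟨s1, hs1⟩ : ∃ s1, s1 = ρ * t1 + 8 * E * k1 := ⟨_, rfl⟩
  rw [← hs1] at h1
  have hs1S : s1 ^ 2 ≤ (S : ℤ) ^ 2 := by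
    rw [← sq_abs s1]
    exact pow_le_pow_left₀ (abs_nonneg _) h1 2
  have ht1T : t1 ^ 2 ≤ (T : ℤ) ^ 2 := by
    rw [← sq_abs t1]
    exact pow_le_pow_left₀ (abs_nonneg _) h2 2
  have hv : s1 ≠ 0 ∨ t1 ≠ 0 := by
    by_contra hc
    push Not at hc
    obtain ⟨g1, g2⟩ := hc
    rw [g2] at hs1 h3
    rw [g1] at hs1
    have g3 : k1 = 0 := by
      have : 8 * E * k1 = 0 := by linarith
      rcases mul_eq_zero.1 this with g | g
      · linarith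
      · exact g
    rw [g3] at h3
    norm_num at h3
  have hdF : E ∣ a * s1 ^ 2 - b * t1 ^ 2 := by
    obtain ⟨c, hc⟩ := hρ
    refine ⟨c * t1 ^ 2 + a * (16 * ρ * t1 * k1 + 64 * E * k1 ^ 2), ?_⟩
    rw [hs1]
    linear_combination t1 ^ 2 * hc
  have hF0 : a * s1 ^ 2 - b * t1 ^ 2 ≠ 0 := sub_ne_zero.2 (hne s1 t1 hv)
  have hFpos : E ≤ a * s1 ^ 2 - b * t1 ^ 2 := by
    rcases lt_or_gt_of_ne hF0 with hneg | hpos
    · exfalso
      have g1 : E ∣ -(a * s1 ^ 2 - b * t1 ^ 2) := (dvd_neg).2 hdF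
      have g2 := Int.le_of_dvd (by linarith) g1
      have g3 : 0 ≤ a * s1 ^ 2 := by positivity
      have g4 : b * t1 ^ 2 ≤ b * (T : ℤ) ^ 2 := mul_le_mul_of_nonneg_left ht1T hb.le
      linarith
    · exact Int.le_of_dvd hpos hdF
  have hbt1 : b * t1 ^ 2 ≤ E := by
    have g4 : b * t1 ^ 2 ≤ b * (T : ℤ) ^ 2 := mul_le_mul_of_nonneg_left ht1T hb.le
    linarith
  have has1 : a * s1 ^ 2 ≤ 64 * (a * b) * E := by
    calc a * s1 ^ 2 ≤ a * (64 * b * E) := mul_le_mul_of_nonneg_left (hs1S.trans hS3) ha.le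
      _ = _ := by ring
  have hs1ne : s1 ≠ 0 := by
    rintro h0
    rw [h0] at hFpos
    have : 0 ≤ b * t1 ^ 2 := by positivity
    nlinarith
  -- sign
  obtain ⟨s1', t1', k1', t0', k0', e1, e2, e3, e4, e5⟩ : ∃ s1' t1' k1' t0' k0' : ℤ,
      s1' = ρ * t1' + 8 * E * k1' ∧ 0 < s1' ∧ s1' ^ 2 = s1 ^ 2 ∧ t1' ^ 2 = t1 ^ 2 ∧
      k1' * t0' - k0' * t1' = 1 := by
    rcases lt_or_gt_of_ne hs1ne with hneg | hpos
    · exact ⟨-s1, -t1, -k1, -t0, -k0, by rw [hs1]; ring, by linarith, by ring, by ring,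
        by linarith⟩
    · exact ⟨s1, t1, k1, t0, k0, hs1, hpos, rfl, rfl, h3⟩
  rw [← e3, ← e4] at hFpos
  rw [← e3] at has1
  rw [← e4] at hbt1
  -- reduction
  obtain ⟨q, hq⟩ : ∃ q, q = (ρ * t0' + 8 * E * k0') / s1' := ⟨_, rfl⟩
  obtain ⟨c, hc⟩ : ∃ c : ℤ, c = if (2 : ℤ) ∣ (t0' - q * t1') then 1 else 0 := ⟨_, rfl⟩
  have hc01 : c = 0 ∨ c = 1 := by
    rw [hc]
    split_ifs <;> simp
  obtain ⟨t2, ht2⟩ : ∃ t2, t2 = t0' - q * t1' + c * t1' := ⟨_, rfl⟩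
  obtain ⟨k2, hk2⟩ : ∃ k2, k2 = k0' - q * k1' + c * k1' := ⟨_, rfl⟩
  obtain ⟨s2, hs2⟩ : ∃ s2, s2 = ρ * t2 + 8 * E * k2 := ⟨_, rfl⟩
  have hs2' : s2 = (ρ * t0' + 8 * E * k0') % s1' + c * s1' := by
    have := Int.emod_add_mul_ediv (ρ * t0' + 8 * E * k0') s1'
    rw [← hq] at this
    rw [hs2, ht2, hk2]
    rw [e1] at this ⊢
    linarith
  have hr0 := Int.emod_nonneg (ρ * t0' + 8 * E * k0') e2.ne'
  have hr1 := Int.emod_lt_of_pos (ρ * t0' + 8 * E * k0') e2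
  have hs20 : 0 ≤ s2 := by
    rw [hs2']
    rcases hc01 with h | h <;> rw [h] <;> linarith
  have hs21 : s2 ≤ 2 * s1' := by
    rw [hs2']
    rcases hc01 with h | h <;> rw [h] <;> linarith
  have hkt : k1' * t2 - k2 * t1' = 1 := by
    rw [ht2, hk2]
    linear_combination e5
  have hodd : ¬ (2 : ℤ) ∣ t2 := by
    by_cases hd : (2 : ℤ) ∣ (t0' - q * t1')
    · rw [if_pos hd] at hc
      have ht1 : ¬ (2 : ℤ) ∣ t1' := by
        rintro ⟨y, hy⟩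
        obtain ⟨x, hx⟩ := hd
        have h5 : k1' * (2 * x) - (k0' - q * k1') * (2 * y) = 1 := by
          rw [← hx, ← hy]
          linear_combination e5
        have h6 : (2 : ℤ) ∣ 1 := ⟨k1' * x - (k0' - q * k1') * y, by linarith⟩
        norm_num at h6
      rw [ht2, hc, one_mul]
      intro h7
      exact ht1 ((dvd_add_right hd).1 h7)
    · rw [if_neg hd] at hc
      rw [ht2, hc, zero_mul, add_zero]
      exact hd
  have hdet : s1' * t2 - s2 * t1' = 8 * E := by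
    rw [hs2, e1]
    linear_combination (8 * E) * hkt
  have has2 : a * s2 ^ 2 ≤ 256 * (a * b) * E := by
    have g1 : s2 ^ 2 ≤ (2 * s1') ^ 2 := pow_le_pow_left₀ hs20 hs21 2
    calc a * s2 ^ 2 ≤ a * (2 * s1') ^ 2 := mul_le_mul_of_nonneg_left g1 ha.le
      _ = 4 * (a * s1' ^ 2) := by ring
      _ ≤ 4 * (64 * (a * b) * E) := by linarith
      _ = _ := by ring
  have hbt2 : b * t2 ^ 2 ≤ 640 * (a * b) * E := by
    have g1 : s1' * t2 = 8 * E + s2 * t1' := by linarith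
    have g2 : (s1' * t2) ^ 2 ≤ 2 * (8 * E) ^ 2 + 2 * (s2 * t1') ^ 2 := by
      rw [g1]
      nlinarith [sq_nonneg (8 * E - s2 * t1')]
    have g3 : s2 ^ 2 ≤ (2 * s1') ^ 2 := pow_le_pow_left₀ hs20 hs21 2
    have g4 : (s2 * t1') ^ 2 ≤ 4 * s1' ^ 2 * t1' ^ 2 := by
      calc (s2 * t1') ^ 2 = s2 ^ 2 * t1' ^ 2 := by ring
        _ ≤ (2 * s1') ^ 2 * t1' ^ 2 := mul_le_mul_of_nonneg_right g3 (sq_nonneg _)
        _ = _ := by ring
    have g5 : E * (b * t2 ^ 2) ≤ E * (640 * (a * b) * E) := by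
      have g6 : E ≤ a * s1' ^ 2 := by
        have : 0 ≤ b * t1' ^ 2 := by positivity
        linarith
      have g7 : 0 ≤ b * t2 ^ 2 := by positivity
      calc E * (b * t2 ^ 2) ≤ (a * s1' ^ 2) * (b * t2 ^ 2) := mul_le_mul_of_nonneg_right g6 g7
        _ = (a * b) * (s1' * t2) ^ 2 := by ring
        _ ≤ (a * b) * (2 * (8 * E) ^ 2 + 2 * (4 * s1' ^ 2 * t1' ^ 2)) :=
            mul_le_mul_of_nonneg_left (by linarith) (by positivity)
        _ = 128 * (a * b) * E ^ 2 + 8 * ((a * s1' ^ 2) * (b * t1' ^ 2)) := by ring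
        _ ≤ 128 * (a * b) * E ^ 2 + 8 * ((64 * (a * b) * E) * E) := by
            have g8 : (a * s1' ^ 2) * (b * t1' ^ 2) ≤ (64 * (a * b) * E) * E :=
              mul_le_mul has1 hbt1 (by positivity) (by positivity)
            linarith
        _ = E * (640 * (a * b) * E) := by ring
    exact le_of_mul_le_mul_left g5 hE
  exact ⟨s1', t1', s2, t2, e2, hs20, ⟨k1', by rw [e1]; ring⟩, ⟨k2, by rw [hs2]; ring⟩, hdet, hodd,
    hFpos, has1, hbt1, has2, hbt2⟩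

end Pool.Agent.Y859.MU
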