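import Pool.Agent.Y859.MU.Mk

set_option autoImplicit false

/-!
# Every squarefree `B ≤ X ^ (1 / 2 - ε)` divides many squarefree congruent numbers
-/

namespace Pool.Agent.Y859.MU

open Finset Filter
open Pool.Agent.TH464.PW Pool.Agent.Y859.SP.Cg

/-- existence -/
theorem exist (ε : ℝ) (hε : 0 < ε) (hε1 : ε ≤ 1) : ∃ R : ℕ, 1 ≤ R ∧ ∀ᶠ X : ℕ in atTop, ∀ N : ℕ,
    Squarefree N → ¬ 2 ∣ N → (N : ℝ) ≤ (X : ℝ) ^ (1 / 2 - ε) → ∀ e u : ℤ, (e = 8 ∨ e = 16) →
    ¬ (2 : ℤ) ∣ u → ∃ c l : ℕ, (c : ℤ) * 8 = e ∧ Squarefree (c * (N * l)) ∧ IsCong (c * (N * l)) ∧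
      ((N * l : ℕ) : ℤ) ≡ u * (1 + e / 2 * u) [ZMOD 8] ∧ c * (N * l) ≤ X ∧
      l.primeFactorsList.length ≤ R ∧
      ∀ p : ℕ, p.Prime → p ∣ l → (X : ℝ) ^ (1 / (R : ℝ)) < (p : ℝ) := by
  obtain ⟨δ, hδd⟩ : ∃ δ : ℝ, δ = ε / 20 := ⟨_, rfl⟩
  have hδ : 0 < δ := by rw [hδd]; positivity
  obtain ⟨r, hr2, h1⟩ := sieve (3 * δ) (by positivity) (by rw [hδd]; linarith)
  obtain ⟨R0, hR0⟩ : ∃ R0 : ℕ, 2 / δ ≤ R0 := exists_nat_ge _
  have hXr : Tendsto (fun X : ℕ => (X : ℝ)) atTop atTop := tendsto_natCast_atTop_atTop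
  have hpow : Tendsto (fun X : ℕ => (X : ℝ) ^ δ) atTop atTop := (tendsto_rpow_atTop hδ).comp hXr
  have hpow2 : Tendsto (fun X : ℕ => (X : ℝ) ^ (δ / 2)) atTop atTop :=
    (tendsto_rpow_atTop (by positivity)).comp hXr
  refine ⟨24 * r + 2 + R0, by omega, ?_⟩
  filter_upwards [h1, two_primes δ hδ, hpow.eventually_ge_atTop 600000,
    hpow2.eventually_ge_atTop 5, hpow.eventually_ge_atTop (60000000000 : ℝ),
    eventually_ge_atTop 2] with X hX hX2 hX3 hX4 hX5 hX6
  intro N hNsq hN2 hNX e u he hu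
  have hX1 : (1 : ℝ) ≤ X := by exact_mod_cast (by omega : 1 ≤ X)
  have hXpos : (0 : ℝ) < X := by linarith
  have hN1 : 1 ≤ N := Nat.pos_of_ne_zero hNsq.ne_zero
  have hNleX : N ≤ X := by
    have h2 : (N : ℝ) ≤ X := by
      refine hNX.trans ?_
      calc (X : ℝ) ^ (1 / 2 - ε) ≤ (X : ℝ) ^ (1 : ℝ) :=
            Real.rpow_le_rpow_of_exponent_le hX1 (by linarith)
        _ = X := Real.rpow_one _
    exact_mod_cast h2
  obtain ⟨a, b, pa, pb, hab, ha1, hb1, ha2, hb2, haN, hbN, hab8, hsq⟩ := hX2 N hN1 hNleX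
  have ha5 : 5 ≤ a := by
    have : (5 : ℝ) < a := by linarith
    have : 5 < a := by exact_mod_cast this
    omega
  have hb5 : 5 ≤ b := by
    have : (5 : ℝ) < b := by linarith
    have : 5 < b := by exact_mod_cast this
    omega
  have hXδX : (X : ℝ) ^ δ ≤ X := by
    calc (X : ℝ) ^ δ ≤ (X : ℝ) ^ (1 : ℝ) :=
          Real.rpow_le_rpow_of_exponent_le hX1 (by rw [hδd]; linarith)
      _ = X := Real.rpow_one _
  have haX : a ≤ X := by exact_mod_cast ha2.trans hXδX
  have hbX : b ≤ X := by exact_mod_cast hb2.trans hXδX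
  obtain ⟨ρ, s1, t1, s0, t0, G11, G01, G00, H00, D⟩ :=
    mk a b N e u pa pb ha5 hb5 hab hab8 he hu hN2 hNsq haN hbN hsq
  obtain ⟨m, hm1, hm2, hm3, hm4⟩ := hX a b N e u ρ s1 t1 s0 t0 G11 G01 G00 H00 D haX hbX hNleX
  obtain ⟨w, hw⟩ : ∃ w : ℝ, w = (X : ℝ) ^ δ := ⟨_, rfl⟩
  have hw3 : (X : ℝ) ^ (3 * δ) = w ^ 3 := by
    rw [hw, ← Real.rpow_natCast, ← Real.rpow_mul hXpos.le]
    congr 1
    push_cast
    ring
  rw [← hw] at hX3 hX5 ha2 hb2
  rw [hw3] at hm1 hm2
  have hw0 : 0 < w := by linarith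
  have ha0 : (0 : ℝ) ≤ a := Nat.cast_nonneg a
  have hb0 : (0 : ℝ) ≤ b := Nat.cast_nonneg b
  have habw : (a : ℝ) * b ≤ w ^ 2 := by
    rw [pow_two]
    exact mul_le_mul ha2 hb2 hb0 hw0.le
  have hm600 : 600 * (a * b) ≤ m := by
    have h2 : 600 * ((a : ℝ) * b) ≤ m := by
      calc 600 * ((a : ℝ) * b) ≤ 600 * w ^ 2 := by linarith
        _ ≤ w * w ^ 2 := mul_le_mul_of_nonneg_right (by linarith) (by positivity)
        _ = w ^ 3 := by ring
        _ ≤ m := hm1
    exact_mod_cast h2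
  obtain ⟨c, l, hc, hsqf, hcong, hcls, hsize, hlen, hpf⟩ := D.num m r X (by omega) hX6 hm600 hm3 hm4
  refine ⟨c, a * b * l, hc, ?_, ?_, ?_, ?_, ?_, ?_⟩
  · have e1 : N * (a * b * l) = a * b * N * l := by ring
    rw [e1]
    exact hsqf
  · have e1 : N * (a * b * l) = a * b * N * l := by ring
    rw [e1]
    exact hcong
  · have e1 : N * (a * b * l) = a * b * N * l := by ring
    rw [e1]
    exact hcls
  · have e1 : N * (a * b * l) = a * b * N * l := by ring
    rw [e1]
    have h2 : ((c * (a * b * N * l) : ℕ) : ℝ) ≤ 200000000 * (((a : ℝ) * b) ^ 3 * N ^ 2 * m ^ 4) := by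
      exact_mod_cast hsize
    have h3 : (N : ℝ) ^ 2 * w ^ 40 ≤ X := by
      have h4 : (N : ℝ) ^ 2 ≤ ((X : ℝ) ^ (1 / 2 - ε)) ^ 2 :=
        pow_le_pow_left₀ (Nat.cast_nonneg _) hNX 2
      have h5 : ((X : ℝ) ^ (1 / 2 - ε)) ^ 2 * w ^ 40 = X := by
        rw [hw, ← Real.rpow_natCast, ← Real.rpow_natCast, ← Real.rpow_mul hXpos.le,
          ← Real.rpow_mul hXpos.le, ← Real.rpow_add hXpos]
        nth_rewrite 2 [← Real.rpow_one (X : ℝ)]
        congr 1
        rw [hδd]
        push_cast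
        ring
      calc (N : ℝ) ^ 2 * w ^ 40 ≤ ((X : ℝ) ^ (1 / 2 - ε)) ^ 2 * w ^ 40 :=
            mul_le_mul_of_nonneg_right h4 (by positivity)
        _ = X := h5
    have h6 : ((c * (a * b * N * l) : ℕ) : ℝ) ≤ X := by
      refine h2.trans (le_trans ?_ h3)
      have hm0 : (0 : ℝ) ≤ m := Nat.cast_nonneg m
      calc 200000000 * (((a : ℝ) * b) ^ 3 * N ^ 2 * m ^ 4) ≤
          200000000 * ((w ^ 2) ^ 3 * N ^ 2 * (4 * w ^ 3) ^ 4) := by gcongr
        _ = (N : ℝ) ^ 2 * (51200000000 * w ^ 18) := by ring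
        _ ≤ (N : ℝ) ^ 2 * (w * w ^ 18) := by
            apply mul_le_mul_of_nonneg_left _ (by positivity)
            apply mul_le_mul_of_nonneg_right _ (by positivity)
            linarith
        _ = (N : ℝ) ^ 2 * w ^ 19 := by ring
        _ ≤ (N : ℝ) ^ 2 * w ^ 40 := by
            apply mul_le_mul_of_nonneg_left _ (by positivity)
            exact pow_le_pow_right₀ (by linarith) (by norm_num)
    exact_mod_cast h6
  · have hl0 : l ≠ 0 := by
      rintro rfl
      rw [mul_zero, mul_zero] at hsqf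
      exact not_squarefree_zero hsqf
    have e1 := (Nat.perm_primeFactorsList_mul (Nat.mul_pos pa.pos pb.pos).ne' hl0).length_eq
    have e2 := (Nat.perm_primeFactorsList_mul pa.ne_zero pb.ne_zero).length_eq
    rw [List.length_append] at e1 e2
    rw [Nat.primeFactorsList_prime pa, Nat.primeFactorsList_prime pb] at e2
    simp only [List.length_singleton] at e2
    omega
  · intro p hp hd
    have hRr : (r : ℝ) ≤ ((24 * r + 2 + R0 : ℕ) : ℝ) := by exact_mod_cast (by omega)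
    have hrpos : (0 : ℝ) < r := by exact_mod_cast (by omega : 0 < r)
    have hR2 : 2 / δ ≤ ((24 * r + 2 + R0 : ℕ) : ℝ) := by
      refine hR0.trans ?_
      exact_mod_cast (by omega : R0 ≤ 24 * r + 2 + R0)
    have g1 : (X : ℝ) ^ (1 / ((24 * r + 2 + R0 : ℕ) : ℝ)) ≤ (X : ℝ) ^ (1 / (r : ℝ)) :=
      Real.rpow_le_rpow_of_exponent_le hX1 (one_div_le_one_div_of_le hrpos hRr)
    have g2 : (X : ℝ) ^ (1 / ((24 * r + 2 + R0 : ℕ) : ℝ)) ≤ (X : ℝ) ^ (δ / 2) := by
      apply Real.rpow_le_rpow_of_exponent_le hX1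
      have h3 := one_div_le_one_div_of_le (by positivity) hR2
      rwa [one_div_div] at h3
    rcases hp.dvd_mul.1 hd with h | h
    · rcases hp.dvd_mul.1 h with h | h
      · rw [(Nat.prime_dvd_prime_iff_eq hp pa).1 h]
        linarith
      · rw [(Nat.prime_dvd_prime_iff_eq hp pb).1 h]
        linarith
    · exact lt_of_le_of_lt g1 (hpf p hp h)

/-- primes between the square root and `y` -/
lemma many_primes2 : ∀ᶠ y : ℕ in atTop, (y : ℝ) / (8 * Real.log y) ≤
    (((Finset.range (y + 1)).filter (fun p : ℕ => p.Prime ∧ Real.sqrt y < (p : ℝ))).card : ℝ) := by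
  filter_upwards [logpow_rpow 1 64 (1 / 4) (by norm_num) (by norm_num),
    eventually_ge_atTop 10000] with y h3 h4
  have hy : (10000 : ℝ) ≤ y := by exact_mod_cast h4
  have hpi := Chebyshev.pi_ge y
  have hl2 := Real.log_two_gt_d9
  have hly : 1 ≤ Real.log y := by
    have := Real.add_one_le_exp (1 : ℝ)
    have h5 : Real.exp 1 ≤ y := by
      have := Real.exp_one_lt_d9
      linarith
    have := Real.log_le_log (Real.exp_pos 1) h5
    rwa [Real.log_exp] at this
  have hlog1 : Real.log ((y : ℝ) + 1) ≤ (y : ℝ) / 4 := by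
    have h6 := Real.log_le_sub_one_of_pos (x := ((y : ℝ) + 1) / 16) (by positivity)
    have h7 : Real.log (((y : ℝ) + 1) / 16) = Real.log ((y : ℝ) + 1) - 4 * Real.log 2 := by
      rw [Real.log_div (by positivity) (by norm_num)]
      have : (16 : ℝ) = 2 ^ 4 := by norm_num
      rw [this, Real.log_pow]
      norm_num
    have h8 := Real.log_two_lt_d9
    linarith
  have hpi2 : (y : ℝ) / 4 / Real.log y ≤ (Nat.primeCounting y : ℝ) := by
    refine le_trans ?_ hpi
    apply div_le_div_of_nonneg_right _ (by linarith)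
    nlinarith
  have hcard : (Nat.primeCounting y : ℝ) - Real.sqrt y - 1 ≤
      (((Finset.range (y + 1)).filter (fun p : ℕ => p.Prime ∧ Real.sqrt y < (p : ℝ))).card : ℝ) := by
    have e1 : Nat.primeCounting y = ((Finset.range (y + 1)).filter Nat.Prime).card := by
      rw [Nat.primeCounting, Nat.primeCounting', Nat.count_eq_card_filter_range]
    have h5 : ((Finset.range (y + 1)).filter Nat.Prime) ⊆
        ((Finset.range (y + 1)).filter (fun p : ℕ => p.Prime ∧ Real.sqrt y < (p : ℝ))) ∪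
          (Finset.range (⌊Real.sqrt y⌋₊ + 1)) := by
      intro p hp
      rw [mem_filter] at hp
      rw [mem_union, mem_filter]
      by_cases h : Real.sqrt y < (p : ℝ)
      · exact Or.inl ⟨hp.1, hp.2, h⟩
      · right
        push Not at h
        have := Nat.le_floor h
        rw [mem_range]
        omega
    have h6 := (card_le_card h5).trans (card_union_le _ _)
    rw [card_range, ← e1] at h6
    have h7 : (Nat.primeCounting y : ℝ) ≤
        (((Finset.range (y + 1)).filter (fun p : ℕ => p.Prime ∧ Real.sqrt y < (p : ℝ))).card : ℝ) +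
          (⌊Real.sqrt y⌋₊ + 1) := by exact_mod_cast h6
    have h8 : (⌊Real.sqrt y⌋₊ : ℝ) ≤ Real.sqrt y := Nat.floor_le (by positivity)
    linarith
  refine le_trans ?_ hcard
  have hs : Real.sqrt y + 1 ≤ (y : ℝ) / (8 * Real.log y) := by
    have hs0 : 0 < Real.sqrt y := Real.sqrt_pos.2 (by linarith)
    have hss : Real.sqrt y * Real.sqrt y = y := Real.mul_self_sqrt (by linarith)
    have h9 : 64 * Real.log y ≤ Real.sqrt y := by
      rw [pow_one] at h3
      refine h3.trans ?_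
      rw [Real.sqrt_eq_rpow]
      exact Real.rpow_le_rpow_of_exponent_le (by linarith) (by norm_num)
    rw [le_div_iff₀ (by linarith)]
    have h10 : 1 ≤ Real.sqrt y := by nlinarith
    nlinarith
  have e3 : (y : ℝ) / 4 / Real.log y = y / (8 * Real.log y) + y / (8 * Real.log y) := by
    field_simp
    ring
  linarith

open Classical in
/-- the numbers counted -/
noncomputable def cset (c N R X : ℕ) (v : ℤ) : Finset ℕ :=
  (Finset.range (X + 1)).filter (fun n => ∃ l : ℕ, n = c * (N * l) ∧ Squarefree n ∧ IsCong n ∧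
    ((N * l : ℕ) : ℤ) ≡ v [ZMOD 8] ∧ l.primeFactorsList.length ≤ R ∧
    ∀ p : ℕ, p.Prime → p ∣ l → (X : ℝ) ^ (1 / (R : ℝ)) < (p : ℝ))

/-- **the count** -/
theorem count (ε : ℝ) (hε : 0 < ε) (hε1 : ε ≤ 1) : ∃ R : ℕ, 1 ≤ R ∧ ∀ᶠ X : ℕ in atTop, ∀ N : ℕ,
    Squarefree N → ¬ 2 ∣ N → (N : ℝ) ≤ (X : ℝ) ^ (1 / 2 - ε) → ∀ (c : ℕ) (u : ℤ), (c = 1 ∨ c = 2) →
    ¬ (2 : ℤ) ∣ u →
      (X : ℝ) ^ (1 / 2 - ε) / N ≤ ((cset c N R X (u * (1 + 4 * c * u))).card : ℝ) := by
  classical
  obtain ⟨R1, hR1, h1⟩ := exist (ε / 2) (by positivity) (by linarith)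
  obtain ⟨R0, hR0⟩ : ∃ R0 : ℕ, 8 / ε ≤ R0 := exists_nat_ge _
  have hXr : Tendsto (fun X : ℕ => (X : ℝ)) atTop atTop := tendsto_natCast_atTop_atTop
  have hpow : Tendsto (fun X : ℕ => (X : ℝ) ^ (ε / 8)) atTop atTop :=
    (tendsto_rpow_atTop (by positivity)).comp hXr
  obtain ⟨y0, hy0⟩ := eventually_atTop.1 many_primes2
  refine ⟨R1 + 1 + R0, by omega, ?_⟩
  filter_upwards [h1, hpow.eventually_ge_atTop ((y0 : ℝ) + 3), eventually_ge_atTop 3,
    logpow_rpow 1 (64 * (R1 + 1)) (ε / 4) (by positivity) (by positivity),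
    logpow_rpow 1 64 (ε / 8) (by positivity) (by positivity)] with X hX hX2 hX3 hX4 hX5
  intro N hNsq hN2 hNX c u hc hu
  have hX1 : (3 : ℝ) ≤ X := by exact_mod_cast hX3
  have hXpos : (0 : ℝ) < X := by linarith
  have hN1 : 1 ≤ N := Nat.pos_of_ne_zero hNsq.ne_zero
  have hNpos : (0 : ℝ) < N := by exact_mod_cast hN1
  have hL0 : 1 ≤ Real.log X := by
    have h5 : Real.exp 1 ≤ X := by
      have := Real.exp_one_lt_d9
      linarith
    have := Real.log_le_log (Real.exp_pos 1) h5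
    rwa [Real.log_exp] at this
  rw [pow_one] at hX4 hX5
  -- the parameters
  obtain ⟨z, hz⟩ : ∃ z : ℝ, z = (X : ℝ) ^ (1 / 2 - ε) / N := ⟨_, rfl⟩
  have hz1 : 1 ≤ z := by rw [hz, le_div_iff₀ hNpos, one_mul]; exact hNX
  obtain ⟨w, hw⟩ : ∃ w : ℝ, w = (X : ℝ) ^ (ε / 8) := ⟨_, rfl⟩
  have hw2 : (X : ℝ) ^ (ε / 4) = w ^ 2 := by
    rw [hw, ← Real.rpow_natCast, ← Real.rpow_mul hXpos.le]
    congr 1
    push_cast
    ring
  have hw4 : (X : ℝ) ^ (ε / 2) = w ^ 4 := by
    rw [hw, ← Real.rpow_natCast, ← Real.rpow_mul hXpos.le]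
    congr 1
    push_cast
    ring
  rw [← hw] at hX2 hX5
  rw [hw2] at hX4
  have hw3 : 3 ≤ w := by
    have : (0 : ℝ) ≤ y0 := Nat.cast_nonneg _
    linarith
  have hzw : (X : ℝ) ^ (1 / 2 - ε / 2) / N = w ^ 4 * z := by
    rw [hz, ← hw4]
    rw [← mul_div_assoc, ← Real.rpow_add hXpos]
    congr 2
    ring
  obtain ⟨y, hy⟩ : ∃ y : ℕ, y = ⌊w ^ 4 * z⌋₊ := ⟨_, rfl⟩
  have hwz0 : 0 < w ^ 4 * z := by positivity
  have hy1 : (y : ℝ) ≤ w ^ 4 * z := by rw [hy]; exact Nat.floor_le hwz0.le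
  have hy2 : w ^ 4 * z - 1 < y := by rw [hy]; exact Nat.sub_one_lt_floor _
  have hw43 : w ^ 3 + 1 ≤ w ^ 4 := by
    have h5 : (1 : ℝ) ≤ w ^ 3 := one_le_pow₀ (by linarith)
    nlinarith
  have hw4z : w ^ 4 ≤ w ^ 4 * z := le_mul_of_one_le_right (by positivity) hz1
  have hyw3 : w ^ 3 ≤ y := by linarith
  have hyhalf : w ^ 4 * z / 2 ≤ y := by
    have h5 : (2 : ℝ) ≤ w ^ 4 * z := by
      have : (1 : ℝ) ≤ w ^ 3 := one_le_pow₀ (by linarith)
      linarith
    linarith
  have hyy0 : y0 ≤ y := by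
    have h5 : (y0 : ℝ) ≤ y := by
      have h6 : w ≤ w ^ 3 := by
        have : (1 : ℝ) ≤ w ^ 2 := one_le_pow₀ (by linarith)
        nlinarith
      linarith
    exact_mod_cast h5
  have hypos : (0 : ℝ) < y := lt_of_lt_of_le (by positivity) hyw3
  have hyX : (y : ℝ) ≤ X := by
    refine hy1.trans ?_
    rw [← hzw, div_le_iff₀ hNpos]
    calc (X : ℝ) ^ (1 / 2 - ε / 2) ≤ (X : ℝ) ^ (1 : ℝ) :=
          Real.rpow_le_rpow_of_exponent_le (by linarith) (by linarith)
      _ = X := Real.rpow_one _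
      _ ≤ X * N := le_mul_of_one_le_right hXpos.le (by exact_mod_cast hN1)
  have hlyX : Real.log y ≤ Real.log X := Real.log_le_log hypos hyX
  have hly0 : 0 < Real.log y := by
    apply Real.log_pos
    have : (1 : ℝ) < w ^ 3 := one_lt_pow₀ (by linarith) (by norm_num)
    linarith
  obtain ⟨A, hA⟩ : ∃ A : Finset ℕ, A = ((Finset.range (y + 1)).filter
    (fun p : ℕ => p.Prime ∧ Real.sqrt y < (p : ℝ))).filter (fun p => ¬ p ∣ N) := ⟨_, rfl⟩
  -- the number of the primes
  have hAcard : ((R1 : ℝ) + 1) * z ≤ A.card := by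
    have g1 := hy0 y hyy0
    have g2 : ((Finset.range (y + 1)).filter (fun p : ℕ => p.Prime ∧ Real.sqrt y < (p : ℝ))) ⊆
        A ∪ N.primeFactors := by
      intro p hp
      rw [mem_union, hA, mem_filter, Nat.mem_primeFactors]
      by_cases h : p ∣ N
      · rw [mem_filter] at hp
        exact Or.inr ⟨hp.2.1, h, by omega⟩
      · exact Or.inl ⟨hp, h⟩
    have g3 := (card_le_card g2).trans (card_union_le _ _)
    have g4 : (((Finset.range (y + 1)).filter
        (fun p : ℕ => p.Prime ∧ Real.sqrt y < (p : ℝ))).card : ℝ) ≤ A.card + N.primeFactors.card := by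
      exact_mod_cast g3
    have g5 : (N.primeFactors.card : ℝ) ≤ 2 * Real.log X := by
      have h6 := Pool.Agent.W123.RU.card_le_log N.primeFactors N (by omega)
        (fun p hp => ⟨Nat.prime_of_mem_primeFactors hp, Nat.dvd_of_mem_primeFactors hp⟩)
      have h7 := Real.log_two_gt_d9
      have h8 : Real.log N ≤ Real.log X := by
        apply Real.log_le_log hNpos
        refine hNX.trans ?_
        calc (X : ℝ) ^ (1 / 2 - ε) ≤ (X : ℝ) ^ (1 : ℝ) :=
              Real.rpow_le_rpow_of_exponent_le (by linarith) (by linarith)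
          _ = X := Real.rpow_one _
      have h9 : (0 : ℝ) ≤ N.primeFactors.card := Nat.cast_nonneg _
      nlinarith
    have g6 : w ^ 4 * z / (16 * Real.log X) ≤ (y : ℝ) / (8 * Real.log y) := by
      rw [div_le_div_iff₀ (by positivity) (by positivity)]
      calc w ^ 4 * z * (8 * Real.log y) = (w ^ 4 * z / 2) * (16 * Real.log y) := by ring
        _ ≤ y * (16 * Real.log X) := mul_le_mul hyhalf (by linarith) (by positivity) hypos.le
    have g7 : 2 * ((R1 : ℝ) + 1) * z ≤ w ^ 4 * z / (16 * Real.log X) := by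
      rw [le_div_iff₀ (by positivity)]
      have h10 : 2 * ((R1 : ℝ) + 1) * (16 * Real.log X) ≤ w ^ 4 := by
        have h11 : (1 : ℝ) ≤ w ^ 2 := one_le_pow₀ (by linarith)
        have h12 : w ^ 4 = w ^ 2 * w ^ 2 := by ring
        rw [h12]
        have h13 : 0 < ((R1 : ℝ) + 1) * Real.log X := by positivity
        nlinarith
      calc 2 * ((R1 : ℝ) + 1) * z * (16 * Real.log X) =
          (2 * ((R1 : ℝ) + 1) * (16 * Real.log X)) * z := by ring
        _ ≤ w ^ 4 * z := mul_le_mul_of_nonneg_right h10 (by linarith)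
    have g8 : 2 * (2 * Real.log X) ≤ w ^ 4 * z / (16 * Real.log X) := by
      rw [le_div_iff₀ (by positivity)]
      have h10 : 2 * (2 * Real.log X) * (16 * Real.log X) ≤ w ^ 4 := by
        have h11 : (64 * Real.log X) ^ 2 ≤ w ^ 2 := pow_le_pow_left₀ (by positivity) hX5 2
        have h12 : w ^ 2 ≤ w ^ 4 := pow_le_pow_right₀ (by linarith) (by norm_num)
        nlinarith [sq_nonneg (Real.log X)]
      linarith
    linarith
  -- the numbers
  have key : ∀ q ∈ A, ∃ l : ℕ, Squarefree (c * ((N * q) * l)) ∧ IsCong (c * ((N * q) * l)) ∧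
      (((N * q) * l : ℕ) : ℤ) ≡ u * (1 + 4 * c * u) [ZMOD 8] ∧ c * ((N * q) * l) ≤ X ∧
      l.primeFactorsList.length ≤ R1 ∧
      ∀ p : ℕ, p.Prime → p ∣ l → (X : ℝ) ^ (1 / (R1 : ℝ)) < (p : ℝ) := by
    intro q hq
    rw [hA, mem_filter, mem_filter, mem_range] at hq
    obtain ⟨⟨hq1, hq2, hq3⟩, hq4⟩ := hq
    have hqw : w < q := by
      refine lt_of_le_of_lt ?_ hq3
      apply Real.le_sqrt_of_sq_le
      refine le_trans ?_ hyw3
      exact pow_le_pow_right₀ (by linarith) (by norm_num)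
    have hqne2 : q ≠ 2 := by
      rintro rfl
      norm_num at hqw
      linarith
    have hcop : Nat.Coprime N q := ((Nat.Prime.coprime_iff_not_dvd hq2).2 hq4).symm
    have hNq : ((N * q : ℕ) : ℝ) ≤ (X : ℝ) ^ (1 / 2 - ε / 2) := by
      have h5 : (q : ℝ) ≤ w ^ 4 * z := by
        have h6 : (q : ℝ) ≤ y := by exact_mod_cast (by omega : q ≤ y)
        linarith
      rw [← hzw, le_div_iff₀ hNpos] at h5
      push_cast
      linarith
    obtain ⟨c', l, h2, h3, h4, h5, h6, h7, h8⟩ := hX (N * q)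
      ((Nat.squarefree_mul hcop).2 ⟨hNsq, hq2.prime.squarefree⟩) (by
        intro h
        rcases Nat.prime_two.dvd_mul.1 h with h | h
        · exact hN2 h
        · exact hqne2 ((Nat.prime_dvd_prime_iff_eq Nat.prime_two hq2).1 h).symm) hNq (8 * c) u (by
        rcases hc with h | h
        · left; rw [h]; norm_num
        · right; rw [h]; norm_num) hu
    have hcc : c' = c := by
      have : (c' : ℤ) * 8 = 8 * c := h2
      omega
    rw [hcc] at h3 h4 h6
    have e1 : (8 * (c : ℤ)) / 2 = 4 * c := by omega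
    rw [e1] at h5
    exact ⟨l, h3, h4, h5, h6, h7, h8⟩
  choose! L hL using key
  obtain ⟨g, hg⟩ : ∃ g : ℕ → ℕ, g = fun q => c * ((N * q) * L q) := ⟨_, rfl⟩
  have hcpos : 0 < c := by rcases hc with h | h <;> omega
  have himg : A.image g ⊆ cset c N (R1 + 1 + R0) X (u * (1 + 4 * c * u)) := by
    intro n hn
    rw [mem_image] at hn
    obtain ⟨q, hq, rfl⟩ := hn
    obtain ⟨h2, h3, h4, h5, h6, h7⟩ := hL q hq
    have hq' := hq
    rw [hA, mem_filter, mem_filter, mem_range] at hq'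
    obtain ⟨⟨hq1, hq2, hq3⟩, hq4⟩ := hq'
    have hqw : w < q := by
      refine lt_of_le_of_lt ?_ hq3
      apply Real.le_sqrt_of_sq_le
      refine le_trans ?_ hyw3
      exact pow_le_pow_right₀ (by linarith) (by norm_num)
    have hLq : L q ≠ 0 := by
      intro h0
      rw [h0, mul_zero, mul_zero] at h2
      exact not_squarefree_zero h2
    unfold cset
    rw [hg, mem_filter, mem_range]
    refine ⟨by change c * ((N * q) * L q) < X + 1; omega, q * L q, ?_, h2, h3, ?_, ?_, ?_⟩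
    · change c * ((N * q) * L q) = c * (N * (q * L q))
      rw [mul_assoc N]
    · rw [← mul_assoc]
      exact h4
    · have e1 := (Nat.perm_primeFactorsList_mul hq2.ne_zero hLq).length_eq
      rw [List.length_append, Nat.primeFactorsList_prime hq2] at e1
      simp only [List.length_singleton] at e1
      omega
    · intro p hp hd
      have hRr : (R1 : ℝ) ≤ ((R1 + 1 + R0 : ℕ) : ℝ) := by exact_mod_cast (by omega)
      have hrpos : (0 : ℝ) < R1 := by exact_mod_cast (by omega : 0 < R1)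
      have hR2 : 8 / ε ≤ ((R1 + 1 + R0 : ℕ) : ℝ) := by
        refine hR0.trans ?_
        exact_mod_cast (by omega : R0 ≤ R1 + 1 + R0)
      rcases hp.dvd_mul.1 hd with h | h
      · rw [(Nat.prime_dvd_prime_iff_eq hp hq2).1 h]
        refine lt_of_le_of_lt ?_ hqw
        rw [hw]
        apply Real.rpow_le_rpow_of_exponent_le (by linarith)
        have h8 := one_div_le_one_div_of_le (by positivity) hR2
        rwa [one_div_div] at h8
      · refine lt_of_le_of_lt ?_ (h7 p hp h)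
        exact Real.rpow_le_rpow_of_exponent_le (by linarith) (one_div_le_one_div_of_le hrpos hRr)
  have hfib : ∀ n ∈ A.image g, (A.filter (fun q => g q = n)).card ≤ R1 + 1 := by
    intro n hn
    rw [mem_image] at hn
    obtain ⟨q, hq, rfl⟩ := hn
    obtain ⟨h2, h3, h4, h5, h6, h7⟩ := hL q hq
    have hq' := hq
    rw [hA, mem_filter, mem_filter, mem_range] at hq'
    obtain ⟨⟨hq1, hq2, hq3⟩, hq4⟩ := hq'
    have hLq : L q ≠ 0 := by
      intro h0
      rw [h0, mul_zero, mul_zero] at h2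
      exact not_squarefree_zero h2
    have e1 := (Nat.perm_primeFactorsList_mul hq2.ne_zero hLq).length_eq
    rw [List.length_append, Nat.primeFactorsList_prime hq2] at e1
    simp only [List.length_singleton] at e1
    have hsub : A.filter (fun q' => g q' = g q) ⊆ (q * L q).primeFactors := by
      intro q' hq'
      rw [mem_filter] at hq'
      obtain ⟨hq'A, he⟩ := hq'
      rw [hA, mem_filter, mem_filter] at hq'A
      rw [Nat.mem_primeFactors]
      refine ⟨hq'A.1.2.1, ?_, mul_ne_zero hq2.ne_zero hLq⟩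
      rw [hg] at he
      have he' : c * (N * (q' * L q')) = c * (N * (q * L q)) := by
        rw [← mul_assoc N, ← mul_assoc N]
        exact he
      have he2 := Nat.eq_of_mul_eq_mul_left hN1 (Nat.eq_of_mul_eq_mul_left hcpos he')
      exact ⟨L q', he2.symm⟩
    calc (A.filter (fun q' => g q' = g q)).card ≤ (q * L q).primeFactors.card := card_le_card hsub
      _ ≤ (q * L q).primeFactorsList.length := by
          rw [Nat.primeFactors, List.card_toFinset]
          exact (List.dedup_sublist _).length_le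
      _ ≤ R1 + 1 := by omega
  have hfin := Finset.card_le_mul_card_image A (R1 + 1) hfib
  have h10 : (A.card : ℝ) ≤ ((R1 : ℝ) + 1) * ((cset c N (R1 + 1 + R0) X (u * (1 + 4 * c * u))).card) := by
    have h11 : A.card ≤ (R1 + 1) * (cset c N (R1 + 1 + R0) X (u * (1 + 4 * c * u))).card :=
      hfin.trans (Nat.mul_le_mul_left _ (card_le_card himg))
    exact_mod_cast h11
  rw [← hz]
  have h12 := hAcard.trans h10
  exact le_of_mul_le_mul_left h12 (by positivity)

end Pool.Agent.Y859.MU
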