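import Pool.Agent.Y859.MU.Sie
import Pool.Agent.Y859.SP.Mult

set_option autoImplicit false

/-!
# The congruent number attached to a good integer
-/

namespace Pool.Agent.Y859.MU

open Polynomial Finset Filter
open Pool.Agent.W123.RP Pool.Agent.H373R2.T7 Pool.Agent.W123.RU Pool.Agent.W123.RU.Poly
open Pool.Agent.TH464.PW Pool.Agent.TH464.PO Pool.Agent.Y859.SP Pool.Agent.Y859.SP.Cg

/-- the triangle -/
lemma cong_xy (x y w : ℚ) (n : ℕ) (hy : 0 < y) (hxy : y < x) (hw : 0 < w)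
    (h : x * y * (x ^ 2 - y ^ 2) = w ^ 2 * n) : IsCong n := by
  have hx : 0 < x := hy.trans hxy
  have h1 : 0 < x ^ 2 - y ^ 2 := by nlinarith
  refine ⟨(x ^ 2 - y ^ 2) / w, 2 * x * y / w, (x ^ 2 + y ^ 2) / w, by positivity, by positivity,
    by positivity, ?_, ?_⟩
  · field_simp
    ring
  · field_simp
    linear_combination h

lemma sq_mod8 (x : ℤ) (hx : ¬ (2 : ℤ) ∣ x) : ∃ t, x ^ 2 = 8 * t + 1 := odd_sq x hx

section

variable {a b N : ℕ} {e u ρ s1 t1 s0 t0 G11 G01 G00 H00 : ℤ}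
variable (D : Dat a b N e u ρ s1 t1 s0 t0 G11 G01 G00 H00)

include D

lemma Dat.pos0 (m : ℕ) (hm : 600 * (a * b) ≤ m) :
    0 < (fq a b s1 t1 s0 t0 G11 G01 G00 H00 0).eval (m : ℤ) ∧
    (fq a b s1 t1 s0 t0 G11 G01 G00 H00 0).eval (m : ℤ) ≤ 2820 * (a * b) * (m : ℤ) ^ 2 ∧
    0 < (fq a b s1 t1 s0 t0 G11 G01 G00 H00 1).eval (m : ℤ) ∧
    (fq a b s1 t1 s0 t0 G11 G01 G00 H00 1).eval (m : ℤ) ≤
      1540 * (a * b) * (e * N) * (m : ℤ) ^ 2 := by
  obtain ⟨h1, h2, h3, h4, h5, h6⟩ := D.bds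
  have hG := D.Gp
  have hH := D.H11p
  have hE := D.eN0
  have hmz : 600 * ((a : ℤ) * b) ≤ m := by exact_mod_cast hm
  have hP1 : (1 : ℤ) ≤ a * b := by
    have h1 : (1 : ℤ) ≤ a := by exact_mod_cast D.pa.one_lt.le
    have h2 : (1 : ℤ) ≤ b := by exact_mod_cast D.pb.one_lt.le
    nlinarith
  have hv1 := D.v1 m
  obtain ⟨M, hM⟩ : ∃ M, M = (m : ℤ) := ⟨_, rfl⟩
  obtain ⟨P, hP⟩ : ∃ P, P = (a : ℤ) * b := ⟨_, rfl⟩
  obtain ⟨E, hEd⟩ : ∃ E, E = e * (N : ℤ) := ⟨_, rfl⟩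
  obtain ⟨H, hHd⟩ : ∃ H, H = (a : ℤ) * s1 ^ 2 + b * t1 ^ 2 := ⟨_, rfl⟩
  obtain ⟨K, hKd⟩ : ∃ K, K = (a : ℤ) * s0 * s1 + b * t0 * t1 := ⟨_, rfl⟩
  rw [← hM] at hmz hv1 ⊢
  rw [← hP] at h1 h2 h3 h4 h5 h6 hmz hP1 ⊢
  rw [← hEd] at h4 h5 h6 hE ⊢
  rw [← hHd] at h4 hH
  rw [← hKd] at h5
  rw [abs_le] at h2 h3 h5 h6
  have hM1 : 600 ≤ M := by linarith
  have hPE : 0 < P * E := by positivity
  have e0 := fq0 (a := a) (b := b) (s1 := s1) (t1 := t1) (s0 := s0) (t0 := t0) (G11 := G11)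
    (G01 := G01) (G00 := G00) (H00 := H00) M
  have e1 := fq1 (a := a) (b := b) (s1 := s1) (t1 := t1) (s0 := s0) (t0 := t0) (G11 := G11)
    (G01 := G01) (G00 := G00) (H00 := H00) M
  rw [← hHd, ← hKd] at e1
  have hPM : 0 < P * M := by positivity
  refine ⟨?_, ?_, ?_, ?_⟩
  · rw [e0]
    have g1 : 4 * M ^ 2 ≤ 4 * G11 * M ^ 2 := by nlinarith [sq_nonneg M]
    have g2 : -(1924 * (P * M)) ≤ 4 * G01 * M := by nlinarith
    have g3 : 600 * (P * M) ≤ M ^ 2 := by nlinarith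
    have g4 : 600 * P ≤ P * M := by nlinarith
    linarith [h3.1]
  · rw [e0]
    have g1 : 4 * G11 * M ^ 2 ≤ 256 * P * M ^ 2 := mul_le_mul_of_nonneg_right h1 (sq_nonneg M)
    have g2 : 4 * G01 * M ≤ 1924 * (P * M) := by nlinarith
    have g3 : P * M ≤ P * M ^ 2 := by nlinarith
    have g4 : P ≤ P * M := by nlinarith
    linarith [h3.2]
  · have g1 : 0 < 2 * (fq a b s1 t1 s0 t0 G11 G01 G00 H00 1).eval M := by
      rw [hv1]
      have g2 : 0 < s0 + 2 * s1 * M := by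
        have := D.s1p
        have := D.s0p
        positivity
      have ha : (0 : ℤ) < a := by exact_mod_cast D.pa.pos
      have hb : (0 : ℤ) < b := by exact_mod_cast D.pb.pos
      positivity
    linarith
  · rw [e1]
    have g1 : 2 * H * M ^ 2 ≤ 130 * (P * E) * M ^ 2 :=
      mul_le_mul_of_nonneg_right (by linarith) (sq_nonneg M)
    have g2 : 2 * K * M ≤ 962 * (P * E) * M := mul_le_mul_of_nonneg_right (by linarith) (by linarith)
    have g3 : (P * E) * M ≤ (P * E) * M ^ 2 :=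
      mul_le_mul_of_nonneg_left (by nlinarith : M ≤ M ^ 2) hPE.le
    have g4 : P * E ≤ (P * E) * M := by nlinarith
    linarith [h6.2]

/-- **the congruent number** -/
theorem Dat.num (m r X : ℕ) (hr : 1 ≤ r) (hX : 2 ≤ X) (hm : 600 * (a * b) ≤ m)
    (hG : SysU.Good (fq a b s1 t1 s0 t0 G11 G01 G00 H00) 12 r X m)
    (hav : ∀ p : ℕ, p.Prime → p ∣ a * b * N →
      ∀ i, ¬ (p : ℤ) ∣ (fq a b s1 t1 s0 t0 G11 G01 G00 H00 i).eval (m : ℤ)) :
    ∃ c l : ℕ, (c : ℤ) * 8 = e ∧ Squarefree (c * (a * b * N * l)) ∧ IsCong (c * (a * b * N * l)) ∧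
      ((a * b * N * l : ℕ) : ℤ) ≡ u * (1 + e / 2 * u) [ZMOD 8] ∧
      c * (a * b * N * l) ≤ 200000000 * ((a * b) ^ 3 * N ^ 2 * m ^ 4) ∧
      l.primeFactorsList.length ≤ 24 * r ∧
      ∀ p : ℕ, p.Prime → p ∣ l → (X : ℝ) ^ (1 / (r : ℝ)) < (p : ℝ) := by
  obtain ⟨p0, q0, p1, q1⟩ := D.pos0 m hm
  have ho0 := D.odd0 m
  have ho1 := D.odd1 m
  have hv0 := D.v0 m
  have hv1 := D.v1 m
  have hc0 := D.c0 m
  have hc1 := D.c1 m
  have hTo := D.Todd m
  have hG0 := hG 0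
  have hG1 := hG 1
  have hav0 : ∀ p : ℕ, p.Prime → p ∣ a * b * N →
      ¬ (p : ℤ) ∣ (fq a b s1 t1 s0 t0 G11 G01 G00 H00 0).eval (m : ℤ) := fun p hp h => hav p hp h 0
  have hav1 : ∀ p : ℕ, p.Prime → p ∣ a * b * N →
      ¬ (p : ℤ) ∣ (fq a b s1 t1 s0 t0 G11 G01 G00 H00 1).eval (m : ℤ) := fun p hp h => hav p hp h 1
  obtain ⟨F0, hF0⟩ : ∃ F0 : ℕ, (F0 : ℤ) = (fq a b s1 t1 s0 t0 G11 G01 G00 H00 0).eval (m : ℤ) :=
    ⟨_, Int.toNat_of_nonneg p0.le⟩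
  obtain ⟨F1, hF1⟩ : ∃ F1 : ℕ, (F1 : ℤ) = (fq a b s1 t1 s0 t0 G11 G01 G00 H00 1).eval (m : ℤ) :=
    ⟨_, Int.toNat_of_nonneg p1.le⟩
  rw [← hF0] at p0 q0 ho0 hv0 hc0 hG0 hav0
  rw [← hF1] at p1 q1 ho1 hv1 hc1 hG1 hav1
  rw [Int.natAbs_natCast] at hG0 hG1
  have hF0p : 0 < F0 := by exact_mod_cast p0
  have hF1p : 0 < F1 := by exact_mod_cast p1
  obtain ⟨S, hS⟩ : ∃ S, S = s0 + 2 * s1 * (m : ℤ) := ⟨_, rfl⟩
  obtain ⟨T, hT⟩ : ∃ T, T = t0 + 2 * t1 * (m : ℤ) := ⟨_, rfl⟩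
  rw [← hS, ← hT] at hv0 hv1
  rw [← hT] at hc0 hc1 hTo
  have hab0 : 0 < a * b := Nat.mul_pos D.pa.pos D.pb.pos
  have hmpos : 0 < m := by omega
  have hSp : 0 < S := by
    have := D.s1p
    have := D.s0p
    rw [hS]
    positivity
  have hT0 : T ≠ 0 := by
    rintro h
    apply hTo
    rw [h]
    exact dvd_zero _
  obtain ⟨c, hce⟩ : ∃ c : ℕ, (c : ℤ) * 8 = e := by
    rcases D.e8 with h | h
    · exact ⟨1, by rw [h]; norm_num⟩
    · exact ⟨2, by rw [h]; norm_num⟩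
  have hc12 : c = 1 ∨ c = 2 := by
    rcases D.e8 with h | h <;> omega
  obtain ⟨l, k, hkl, hlsq⟩ := Nat.sq_mul_squarefree (F0 * F1)
  have hFF : 0 < F0 * F1 := Nat.mul_pos hF0p hF1p
  have hk0 : 0 < k := by
    rcases Nat.eq_zero_or_pos k with h | h
    · rw [h] at hkl
      simp at hkl
      omega
    · exact h
  have hlF : l ∣ F0 * F1 := ⟨k ^ 2, by rw [← hkl]; ring⟩
  have hkF : k ∣ F0 * F1 := ⟨k * l, by rw [← hkl]; ring⟩
  have hFodd : ¬ 2 ∣ F0 * F1 := by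
    intro h
    rcases (Nat.prime_two.dvd_mul).1 h with h | h
    · exact ho0 (by exact_mod_cast h)
    · exact ho1 (by exact_mod_cast h)
  have hzpos : (1 : ℝ) ≤ (X : ℝ) ^ (1 / (r : ℝ)) :=
    Real.one_le_rpow (by exact_mod_cast (by omega : 1 ≤ X)) (by positivity)
  have hpF : ∀ p : ℕ, p.Prime → p ∣ F0 * F1 → (X : ℝ) ^ (1 / (r : ℝ)) < (p : ℝ) := by
    intro p hp h
    rcases hp.dvd_mul.1 h with h | h
    · exact hG0.2 p hp (by exact_mod_cast h)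
    · exact hG1.2 p hp (by exact_mod_cast h)
  -- squarefree
  have hcopN : Nat.Coprime (a * b * N) l := by
    apply Nat.coprime_of_dvd
    intro p hp h1 h2
    rcases hp.dvd_mul.1 (h2.trans hlF) with h | h
    · exact hav0 p hp h1 (by exact_mod_cast h)
    · exact hav1 p hp h1 (by exact_mod_cast h)
  have habN : Squarefree (a * b * N) := by
    have h1 : Nat.Coprime a b := (Nat.coprime_primes D.pa D.pb).2 D.hab
    have h2 : Nat.Coprime (a * b) N :=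
      Nat.Coprime.mul_left ((Nat.Prime.coprime_iff_not_dvd D.pa).2 D.aN)
        ((Nat.Prime.coprime_iff_not_dvd D.pb).2 D.bN)
    rw [Nat.squarefree_mul h2, Nat.squarefree_mul h1]
    exact ⟨⟨D.pa.prime.squarefree, D.pb.prime.squarefree⟩, D.Nsf⟩
  have hsq1 : Squarefree (a * b * N * l) := by
    rw [Nat.squarefree_mul hcopN]
    exact ⟨habN, hlsq⟩
  have hodd1 : ¬ 2 ∣ a * b * N * l := by
    intro h
    rcases Nat.prime_two.dvd_mul.1 h with h | h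
    · rcases Nat.prime_two.dvd_mul.1 h with h | h
      · rcases Nat.prime_two.dvd_mul.1 h with h | h
        · exact odd_cast D.pa D.a5 (by exact_mod_cast h)
        · exact odd_cast D.pb D.b5 (by exact_mod_cast h)
      · exact D.No h
    · exact hFodd (h.trans hlF)
  refine ⟨c, l, hce, ?_, ?_, ?_, ?_, ?_, ?_⟩
  · rcases hc12 with h | h
    · rw [h, one_mul]
      exact hsq1
    · rw [h, Nat.squarefree_mul ((Nat.Prime.coprime_iff_not_dvd Nat.prime_two).2 hodd1)]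
      exact ⟨Nat.prime_two.prime.squarefree, hsq1⟩
  · -- the triangle
    have hSq : (0 : ℚ) < S := by exact_mod_cast hSp
    have hTq : (0 : ℚ) < |(T : ℚ)| := by
      rw [abs_pos]
      exact_mod_cast hT0
    have haq : (0 : ℚ) < a := by exact_mod_cast D.pa.pos
    have hbq : (0 : ℚ) < b := by exact_mod_cast D.pb.pos
    have hkq : (0 : ℚ) < k := by exact_mod_cast hk0
    have hTT : |(T : ℚ)| ^ 2 = (T : ℚ) ^ 2 := sq_abs _
    have hpos : 0 < (a : ℚ) * S ^ 2 - b * T ^ 2 := by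
      have h1 : 0 < (e * N) * (F0 : ℤ) := mul_pos D.eN0 p0
      rw [hv0] at h1
      exact_mod_cast h1
    refine cong_xy (a * S ^ 2) (b * T ^ 2) (4 * S * |(T : ℚ)| * k) _ ?_ (by linarith)
      (by positivity) ?_
    · rw [← hTT]
      positivity
    · have g0 : (c : ℚ) * 8 * N * F0 = a * S ^ 2 - b * T ^ 2 := by
        have : (c : ℤ) * 8 * N * F0 = a * S ^ 2 - b * T ^ 2 := by rw [hce]; exact hv0
        exact_mod_cast this
      have g1 : 2 * (F1 : ℚ) = a * S ^ 2 + b * T ^ 2 := by exact_mod_cast hv1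
      have g2 : (k : ℚ) ^ 2 * l = F0 * F1 := by exact_mod_cast hkl
      have g3 : ((a : ℚ) * S ^ 2) * (b * T ^ 2) * ((a * S ^ 2) ^ 2 - (b * T ^ 2) ^ 2) =
          (a * b) * (S ^ 2 * T ^ 2) * ((a * S ^ 2 - b * T ^ 2) * (a * S ^ 2 + b * T ^ 2)) := by ring
      rw [g3, ← g0, ← g1]
      have g4 : (4 * (S : ℚ) * |(T : ℚ)| * k) ^ 2 = 16 * S ^ 2 * |(T : ℚ)| ^ 2 * k ^ 2 := by ring
      rw [g4, hTT]
      push_cast
      linear_combination (-16 * (a : ℚ) * b * N * c * S ^ 2 * T ^ 2) * g2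
  · -- the class
    have hk2 : ¬ (2 : ℤ) ∣ (k : ℤ) := by
      intro h
      have h1 : 2 ∣ k := by exact_mod_cast h
      exact hFodd (h1.trans hkF)
    obtain ⟨x1, hx1⟩ := odd_sq k hk2
    obtain ⟨x2, hx2⟩ := odd_sq T hTo
    obtain ⟨x3, hx3⟩ := odd_sq b (odd_cast D.pb D.b5)
    obtain ⟨x4, hx4⟩ := D.ab8
    obtain ⟨x5, hx5⟩ := hc0
    obtain ⟨x6, hx6⟩ := hc1
    have g2 : (k : ℤ) ^ 2 * l = F0 * F1 := by exact_mod_cast hkl
    obtain ⟨w, hw⟩ : ∃ w, w = 1 + e / 2 * u := ⟨_, rfl⟩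
    rw [← hw] at hx6 ⊢
    have ha : (a : ℤ) = b + 8 * x4 := by linarith
    have hNF : (N : ℤ) * F0 = u * (b * T ^ 2) + 8 * x5 := by linarith
    have hF1' : (F1 : ℤ) = w * (b * T ^ 2) + 8 * x6 := by linarith
    have e1 : ((a * b * N * l : ℕ) : ℤ) * (k : ℤ) ^ 2 = a * b * ((N * F0) * F1) := by
      push_cast
      linear_combination ((a : ℤ) * b * N) * g2
    have e2 : ((a * b * N * l : ℕ) : ℤ) ≡ ((a * b * N * l : ℕ) : ℤ) * (k : ℤ) ^ 2 [ZMOD 8] := by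
      rw [hx1]
      apply Int.modEq_iff_dvd.2
      exact ⟨((a * b * N * l : ℕ) : ℤ) * x1, by ring⟩
    refine e2.trans ?_
    rw [e1]
    have k1 : (a : ℤ) * b ≡ 1 [ZMOD 8] := by
      rw [ha]
      apply Int.modEq_iff_dvd.2
      exact ⟨-x3 - x4 * b, by linear_combination -hx3⟩
    have k2 : (N : ℤ) * F0 ≡ u * b [ZMOD 8] := by
      rw [hNF, hx2]
      apply Int.modEq_iff_dvd.2
      exact ⟨-(u * b * x2) - x5, by ring⟩
    have k3 : (F1 : ℤ) ≡ w * b [ZMOD 8] := by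
      rw [hF1', hx2]
      apply Int.modEq_iff_dvd.2
      exact ⟨-(w * b * x2) - x6, by ring⟩
    have k4 : u * b * (w * b) ≡ u * w [ZMOD 8] := by
      apply Int.modEq_iff_dvd.2
      exact ⟨-(u * w * x3), by linear_combination (-(u * w)) * hx3⟩
    have k5 := k1.mul ((k2.mul k3).trans k4)
    rwa [one_mul] at k5
  · -- the size
    have hl : l ≤ F0 * F1 := Nat.le_of_dvd hFF hlF
    have hc2 : c ≤ 2 := by rcases hc12 with h | h <;> omega
    have he16 : e * (N : ℤ) ≤ 16 * N := by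
      have : (0 : ℤ) ≤ N := by positivity
      rcases D.e8 with h | h <;> rw [h] <;> linarith
    have g0 : F0 ≤ 2820 * (a * b) * m ^ 2 := by exact_mod_cast q0
    have g1 : F1 ≤ 24640 * (a * b) * N * m ^ 2 := by
      have h1 : (F1 : ℤ) ≤ 24640 * (a * b) * N * (m : ℤ) ^ 2 := by
        refine q1.trans ?_
        have h2 : (0 : ℤ) ≤ (a * b) * (m : ℤ) ^ 2 := by positivity
        calc 1540 * ((a : ℤ) * b) * (e * N) * (m : ℤ) ^ 2 =
            1540 * (((a : ℤ) * b) * (m : ℤ) ^ 2) * (e * N) := by ring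
          _ ≤ 1540 * (((a : ℤ) * b) * (m : ℤ) ^ 2) * (16 * N) :=
              mul_le_mul_of_nonneg_left he16 (by positivity)
          _ = _ := by ring
      exact_mod_cast h1
    calc c * (a * b * N * l) ≤ 2 * (a * b * N * (F0 * F1)) :=
          Nat.mul_le_mul hc2 (Nat.mul_le_mul_left _ hl)
      _ ≤ 2 * (a * b * N * ((2820 * (a * b) * m ^ 2) * (24640 * (a * b) * N * m ^ 2))) :=
          Nat.mul_le_mul_left _ (Nat.mul_le_mul_left _ (Nat.mul_le_mul g0 g1))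
      _ = 138969600 * ((a * b) ^ 3 * N ^ 2 * m ^ 4) := by ring
      _ ≤ 200000000 * ((a * b) ^ 3 * N ^ 2 * m ^ 4) := Nat.mul_le_mul_right _ (by norm_num)
  · have h1 : l.primeFactorsList.length ≤ (F0 * F1).primeFactorsList.length :=
      (Nat.primeFactorsList_sublist_of_dvd hlF hFF.ne').length_le
    have h2 := (Nat.perm_primeFactorsList_mul hF0p.ne' hF1p.ne').length_eq
    rw [List.length_append] at h2
    have h3 := hG0.1
    have h4 := hG1.1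
    omega
  · intro p hp h
    exact hpF p hp (h.trans hlF)

end

end Pool.Agent.Y859.MU
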