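import Pool.Agent.Y859.MU.Pig
import Pool.Agent.Y859.MU.Num

set_option autoImplicit false

/-!
# Construction of the data
-/

namespace Pool.Agent.Y859.MU

open Finset Filter
open Pool.Agent.TH464.PW

lemma sq_mul_of_char (p : ℕ) (hp : p.Prime) (a b : ℕ) (ha : ¬ p ∣ a) (hb : ¬ p ∣ b)
    (h : IsSquare (a : ZMod p) ↔ IsSquare (b : ZMod p)) : IsSquare ((a * b : ℕ) : ZMod p) := by
  have : Fact p.Prime := ⟨hp⟩
  have ha0 : (a : ZMod p) ≠ 0 := fun h0 => ha ((ZMod.natCast_eq_zero_iff a p).1 h0)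
  have hb0 : (b : ZMod p) ≠ 0 := fun h0 => hb ((ZMod.natCast_eq_zero_iff b p).1 h0)
  push_cast
  by_cases h1 : IsSquare (a : ZMod p)
  · exact h1.mul (h.1 h1)
  · have h2 : ¬ IsSquare (b : ZMod p) := fun h3 => h1 (h.2 h3)
    have e1 := quadraticChar_neg_one_iff_not_isSquare.2 h1
    have e2 := quadraticChar_neg_one_iff_not_isSquare.2 h2
    rw [← quadraticChar_one_iff_isSquare (mul_ne_zero ha0 hb0), map_mul, e1, e2]
    norm_num

/-- two primes -/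
theorem two_primes (δ : ℝ) (hδ : 0 < δ) : ∀ᶠ X : ℕ in atTop, ∀ N : ℕ, 1 ≤ N → N ≤ X →
    ∃ a b : ℕ, a.Prime ∧ b.Prime ∧ a ≠ b ∧ (X : ℝ) ^ (δ / 2) < a ∧ (X : ℝ) ^ (δ / 2) < b ∧
      (a : ℝ) ≤ (X : ℝ) ^ δ ∧ (b : ℝ) ≤ (X : ℝ) ^ δ ∧ ¬ a ∣ N ∧ ¬ b ∣ N ∧ a % 8 = b % 8 ∧
      ∀ p : ℕ, p.Prime → p ∣ N → IsSquare ((a * b : ℕ) : ZMod p) := by
  classical
  obtain ⟨C, hC1, hC⟩ := two_pow_omega (δ / 4) (by positivity)
  have hXr : Tendsto (fun X : ℕ => (X : ℝ)) atTop atTop := tendsto_natCast_atTop_atTop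
  have hpow : Tendsto (fun X : ℕ => (X : ℝ) ^ (δ / 2)) atTop atTop :=
    (tendsto_rpow_atTop (by positivity)).comp hXr
  filter_upwards [many_primes δ hδ, hpow.eventually_gt_atTop (9 * C), eventually_ge_atTop 1] with
    X h1 h2 hX1
  intro N hN1 hNX
  have hXpos : (0 : ℝ) < X := by exact_mod_cast hX1
  obtain ⟨A, hA⟩ : ∃ A : Finset ℕ, A = (Finset.range (⌊(X : ℝ) ^ δ⌋₊ + 1)).filter
      (fun p : ℕ => p.Prime ∧ (X : ℝ) ^ (δ / 2) < (p : ℝ)) := ⟨_, rfl⟩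
  rw [← hA] at h1
  have hω : (2 : ℝ) ^ N.primeFactors.card ≤ C * (X : ℝ) ^ (δ / 4) := by
    refine (hC N hN1).trans (mul_le_mul_of_nonneg_left ?_ (by linarith))
    exact Real.rpow_le_rpow (Nat.cast_nonneg _) (by exact_mod_cast hNX) (by positivity)
  have hbig : 9 * (2 : ℝ) ^ N.primeFactors.card < A.card := by
    calc 9 * (2 : ℝ) ^ N.primeFactors.card ≤ 9 * (C * (X : ℝ) ^ (δ / 4)) := by linarith
      _ = (9 * C) * (X : ℝ) ^ (δ / 4) := by ring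
      _ < (X : ℝ) ^ (δ / 2) * (X : ℝ) ^ (δ / 4) := mul_lt_mul_of_pos_right h2 (by positivity)
      _ = (X : ℝ) ^ (3 / 4 * δ) := by
        rw [← Real.rpow_add hXpos]
        congr 1
        ring
      _ ≤ A.card := h1
  obtain ⟨A', hA'⟩ : ∃ A', A' = A.filter (fun p => ¬ p ∣ N) := ⟨_, rfl⟩
  have hA'c : 8 * (2 : ℝ) ^ N.primeFactors.card < A'.card := by
    have e1 : A ⊆ A' ∪ N.primeFactors := by
      intro p hp
      rw [mem_union, hA', mem_filter, Nat.mem_primeFactors]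
      by_cases h : p ∣ N
      · rw [hA, mem_filter] at hp
        exact Or.inr ⟨hp.2.1, h, by omega⟩
      · exact Or.inl ⟨hp, h⟩
    have e2 := (card_le_card e1).trans (card_union_le _ _)
    have e3 : (A.card : ℝ) ≤ A'.card + N.primeFactors.card := by exact_mod_cast e2
    have e4 := card_primeFactors_le N
    linarith
  have hcard : ((range 8) ×ˢ N.primeFactors.powerset).card < A'.card := by
    rw [card_product, card_range, card_powerset]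
    exact_mod_cast hA'c
  obtain ⟨a, ha, b, hb, hab, he⟩ := Finset.exists_ne_map_eq_of_card_lt_of_maps_to hcard
    (f := fun x : ℕ => (x % 8, N.primeFactors.filter (fun p => IsSquare (x : ZMod p)))) (by
      intro x _
      rw [Finset.mem_coe, mem_product, mem_range, mem_powerset]
      exact ⟨Nat.mod_lt _ (by norm_num), filter_subset _ _⟩)
  have he1 : a % 8 = b % 8 := congrArg Prod.fst he
  have he2 : N.primeFactors.filter (fun p => IsSquare (a : ZMod p)) =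
      N.primeFactors.filter (fun p => IsSquare (b : ZMod p)) := congrArg Prod.snd he
  rw [hA', mem_filter, hA, mem_filter, mem_range] at ha hb
  obtain ⟨⟨ha1, ha2, ha3⟩, ha4⟩ := ha
  obtain ⟨⟨hb1, hb2, hb3⟩, hb4⟩ := hb
  refine ⟨a, b, ha2, hb2, hab, ha3, hb3, ?_, ?_, ha4, hb4, he1, ?_⟩
  · exact (Nat.le_floor_iff (by positivity)).1 (by omega)
  · exact (Nat.le_floor_iff (by positivity)).1 (by omega)
  · intro p hp hpN
    apply sq_mul_of_char p hp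
    · intro h
      exact ha4 (((Nat.prime_dvd_prime_iff_eq hp ha2).1 h) ▸ hpN)
    · intro h
      exact hb4 (((Nat.prime_dvd_prime_iff_eq hp hb2).1 h) ▸ hpN)
    · have hmem : p ∈ N.primeFactors := Nat.mem_primeFactors.2 ⟨hp, hpN, by omega⟩
      have h5 := Finset.ext_iff.1 he2 p
      rw [mem_filter, mem_filter] at h5
      constructor
      · intro h6
        exact (h5.1 ⟨hmem, h6⟩).2
      · intro h6
        exact (h5.2 ⟨hmem, h6⟩).2

lemma crt (m n x y : ℤ) (h : IsCoprime m n) : ∃ z : ℤ, m ∣ z - x ∧ n ∣ z - y := by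
  obtain ⟨u, v, huv⟩ := h
  refine ⟨x * (v * n) + y * (u * m), ⟨(y - x) * u, ?_⟩, ⟨(x - y) * v, ?_⟩⟩
  · linear_combination x * huv
  · linear_combination y * huv

/-- square roots modulo squarefree integers -/
lemma sqrt_mod (c : ℤ) (N : ℕ) : Squarefree N →
    (∀ p : ℕ, p.Prime → p ∣ N → IsSquare ((c : ℤ) : ZMod p)) → ∃ σ : ℤ, (N : ℤ) ∣ σ ^ 2 - c := by
  induction N using Nat.strong_induction_on with
  | _ N ih =>
    intro hsq h
    by_cases h1 : N = 1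
    · exact ⟨0, by rw [h1]; exact one_dvd _⟩
    have hN0 : N ≠ 0 := hsq.ne_zero
    obtain ⟨p, hp, N1, hN1⟩ := Nat.exists_prime_and_dvd h1
    have hcop : Nat.Coprime p N1 := by
      rw [hN1] at hsq
      exact Nat.coprime_of_squarefree_mul hsq
    have hN1pos : 0 < N1 := by
      rcases Nat.eq_zero_or_pos N1 with h2 | h2
      · exfalso
        apply hN0
        rw [hN1, h2, mul_zero]
      · exact h2
    have hlt : N1 < N := by
      rw [hN1]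
      have := hp.two_le
      nlinarith
    obtain ⟨σ1, hσ1⟩ := ih N1 hlt (hsq.squarefree_of_dvd ⟨p, by rw [hN1]; ring⟩)
      (fun q hq hd => h q hq (hd.trans ⟨p, by rw [hN1]; ring⟩))
    have : Fact p.Prime := ⟨hp⟩
    obtain ⟨r, hr⟩ := h p hp ⟨N1, hN1⟩
    have hσp : (p : ℤ) ∣ (r.val : ℤ) ^ 2 - c := by
      rw [← ZMod.intCast_zmod_eq_zero_iff_dvd]
      push_cast
      rw [ZMod.natCast_zmod_val, hr]
      ring
    have hcopz : IsCoprime (p : ℤ) (N1 : ℤ) := Nat.isCoprime_iff_coprime.2 hcop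
    obtain ⟨z, hz1, hz2⟩ := crt (p : ℤ) (N1 : ℤ) r.val σ1 hcopz
    refine ⟨z, ?_⟩
    have e1 : (p : ℤ) ∣ z ^ 2 - c := by
      have h3 : z ^ 2 - c = (z - r.val) * (z + r.val) + ((r.val : ℤ) ^ 2 - c) := by ring
      rw [h3]
      exact dvd_add (hz1.mul_right _) hσp
    have e2 : (N1 : ℤ) ∣ z ^ 2 - c := by
      have h3 : z ^ 2 - c = (z - σ1) * (z + σ1) + (σ1 ^ 2 - c) := by ring
      rw [h3]
      exact dvd_add (hz2.mul_right _) hσ1
    rw [hN1]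
    push_cast
    exact hcopz.mul_dvd e1 e2

set_option maxRecDepth 100000 in
lemma sq_128 : ∀ c ∈ Finset.range 16, ∃ s ∈ Finset.range 64, (s * s) % 128 = 8 * c + 1 := by decide

lemma sqrt_two (c : ℤ) (hc : (8 : ℤ) ∣ c - 1) : ∃ σ : ℤ, (128 : ℤ) ∣ σ ^ 2 - c := by
  obtain ⟨c', hc'⟩ : ∃ c' : ℕ, (c' : ℤ) = c % 128 / 8 :=
    ⟨_, Int.toNat_of_nonneg (by omega)⟩
  obtain ⟨s, -, hs⟩ := sq_128 c' (by rw [Finset.mem_range]; omega)
  refine ⟨s, ?_⟩
  have h1 : ((s : ℤ) * s) % 128 = 8 * c' + 1 := by exact_mod_cast hs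
  have h2 : (s : ℤ) ^ 2 = s * s := by ring
  rw [h2]
  omega

/-- **the data exist** -/
theorem mk (a b N : ℕ) (e u : ℤ) (pa : a.Prime) (pb : b.Prime) (a5 : 5 ≤ a) (b5 : 5 ≤ b)
    (hab : a ≠ b) (ab8 : a % 8 = b % 8) (e8 : e = 8 ∨ e = 16) (uo : ¬ (2 : ℤ) ∣ u) (No : ¬ 2 ∣ N)
    (Nsf : Squarefree N) (aN : ¬ a ∣ N) (bN : ¬ b ∣ N)
    (hsq : ∀ p : ℕ, p.Prime → p ∣ N → IsSquare ((a * b : ℕ) : ZMod p)) :
    ∃ ρ s1 t1 s0 t0 G11 G01 G00 H00 : ℤ, Dat a b N e u ρ s1 t1 s0 t0 G11 G01 G00 H00 := by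
  have ha2 : ¬ (2 : ℤ) ∣ (a : ℤ) := odd_cast pa a5
  have hb2 : ¬ (2 : ℤ) ∣ (b : ℤ) := odd_cast pb b5
  have ab8z : (8 : ℤ) ∣ (a : ℤ) - b := by omega
  have hN0 : 0 < N := Nat.pos_of_ne_zero Nsf.ne_zero
  have hN2 : IsCoprime (N : ℤ) 128 := by
    have h1 : Nat.Coprime N (2 ^ 7) := by
      apply Nat.Coprime.pow_right
      exact ((Nat.Prime.coprime_iff_not_dvd Nat.prime_two).2 No).symm
    have h2 := Nat.isCoprime_iff_coprime.2 h1
    norm_num at h2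
    exact h2
  obtain ⟨σN, hσN⟩ := sqrt_mod ((a * b : ℕ) : ℤ) N Nsf (fun p hp hd => by
    have := hsq p hp hd
    push_cast at this ⊢
    exact this)
  have hc8 : (8 : ℤ) ∣ (a * b) * (1 + e * u) - 1 := by
    obtain ⟨x, hx⟩ := ab8z
    obtain ⟨y, hy⟩ := Pool.Agent.Y859.SP.Cg.odd_sq b hb2
    have ha : (a : ℤ) = b + 8 * x := by linarith
    obtain ⟨e', he'⟩ : ∃ e', e = 8 * e' := by
      rcases e8 with h | h
      · exact ⟨1, by rw [h]; norm_num⟩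
      · exact ⟨2, by rw [h]; norm_num⟩
    refine ⟨y + x * b + (b + 8 * x) * b * e' * u, ?_⟩
    rw [ha, he']
    linear_combination hy
  obtain ⟨σ2, hσ2⟩ := sqrt_two _ hc8
  obtain ⟨σ, hσ1, hσ3⟩ := crt (N : ℤ) 128 σN σ2 hN2
  have haM : IsCoprime (a : ℤ) (128 * N) := by
    have h1 : Nat.Coprime a (2 ^ 7 * N) := by
      rw [Nat.Prime.coprime_iff_not_dvd pa]
      intro h
      rcases pa.dvd_mul.1 h with h | h
      · have h3 := (Nat.prime_dvd_prime_iff_eq pa Nat.prime_two).1 (pa.dvd_of_dvd_pow h)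
        omega
      · exact aN h
    have h2 := Nat.isCoprime_iff_coprime.2 h1
    push_cast at h2
    norm_num at h2
    exact h2
  obtain ⟨a', v, ha'⟩ := haM
  -- `a' a + v (128 N) = 1`
  obtain ⟨ρ, hρ⟩ : ∃ ρ, ρ = a' * σ := ⟨_, rfl⟩
  have hN : (N : ℤ) ∣ a * ρ ^ 2 - b := by
    have g1 : (N : ℤ) ∣ σ ^ 2 - a * b := by
      have h3 : σ ^ 2 - (a : ℤ) * b = (σ - σN) * (σ + σN) + (σN ^ 2 - a * b) := by ring
      rw [h3]
      push_cast at hσN
      exact dvd_add (hσ1.mul_right _) hσN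
    obtain ⟨x, hx⟩ := g1
    refine ⟨a * a' ^ 2 * x - 128 * v * b * (a' * a + 1), ?_⟩
    rw [hρ]
    linear_combination (a : ℤ) * a' ^ 2 * hx + (b : ℤ) * (a' * a + 1) * ha'
  have h128 : (128 : ℤ) ∣ a * ρ ^ 2 - b * (1 + e * u) := by
    have g1 : (128 : ℤ) ∣ σ ^ 2 - (a * b) * (1 + e * u) := by
      have h3 : σ ^ 2 - ((a : ℤ) * b) * (1 + e * u) =
          (σ - σ2) * (σ + σ2) + (σ2 ^ 2 - (a * b) * (1 + e * u)) := by ring
      rw [h3]
      exact dvd_add (hσ3.mul_right _) hσ2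
    obtain ⟨x, hx⟩ := g1
    refine ⟨a * a' ^ 2 * x - N * v * (b * (1 + e * u)) * (a' * a + 1), ?_⟩
    rw [hρ]
    linear_combination (a : ℤ) * a' ^ 2 * hx + (b : ℤ) * (1 + e * u) * (a' * a + 1) * ha'
  have h2 : 8 * e ∣ a * ρ ^ 2 - b * (1 + e * u) := by
    refine dvd_trans ?_ h128
    rcases e8 with h | h
    · rw [h]; norm_num
    · rw [h]; norm_num
  have he : e ∣ a * ρ ^ 2 - b := by
    obtain ⟨x, hx⟩ := h2
    exact ⟨8 * x + b * u, by linear_combination hx⟩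
  have heN : IsCoprime e (N : ℤ) := by
    have h8 : IsCoprime (N : ℤ) (2 ^ 4) := by
      have h1 : Nat.Coprime N (2 ^ 4) := by
        apply Nat.Coprime.pow_right
        exact ((Nat.Prime.coprime_iff_not_dvd Nat.prime_two).2 No).symm
      have h2 := Nat.isCoprime_iff_coprime.2 h1
      push_cast at h2
      exact h2
    refine (h8.symm).of_isCoprime_of_dvd_left ?_
    rcases e8 with h | h
    · rw [h]; norm_num
    · rw [h]; norm_num
  have hE : e * (N : ℤ) ∣ a * ρ ^ 2 - b := heN.mul_dvd he hN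
  have he0 : 0 < e := by rcases e8 with h | h <;> rw [h] <;> norm_num
  have hE0 : 0 < e * (N : ℤ) := mul_pos he0 (by exact_mod_cast hN0)
  have hρ2 : ¬ (2 : ℤ) ∣ ρ := by
    intro h
    apply hb2
    obtain ⟨x, hx⟩ := h
    obtain ⟨y, hy⟩ := h2
    obtain ⟨e', he'⟩ : ∃ e', e = 2 * e' := by
      rcases e8 with h | h
      · exact ⟨4, by rw [h]; norm_num⟩
      · exact ⟨8, by rw [h]; norm_num⟩
    rw [hx, he'] at hy
    exact ⟨a * (2 * x ^ 2) - b * e' * u - 8 * e' * y, by linear_combination -hy⟩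
  obtain ⟨s1, t1, s0, t0, g1, g2, g3, g4, g5, g6, g7, g8, g9, g10, g11⟩ := basis a b (e * N) ρ
    (by exact_mod_cast pa.pos) (by exact_mod_cast pb.pos) hE0 hE
    (fun s t hst => form_ne pa pb hab s t hst)
  obtain ⟨x1, hx1⟩ := g3
  obtain ⟨x0, hx0⟩ := g4
  obtain ⟨y, hy⟩ := hE
  have hs1 : s1 = ρ * t1 + 8 * (e * N) * x1 := by linarith
  have hs0 : s0 = ρ * t0 + 8 * (e * N) * x0 := by linarith
  obtain ⟨E, hEd⟩ : ∃ E, E = e * (N : ℤ) := ⟨_, rfl⟩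
  have q11 : ∃ G, (a : ℤ) * s1 ^ 2 - b * t1 ^ 2 = (e * N) * G := by
    refine ⟨y * t1 ^ 2 + a * (16 * ρ * t1 * x1 + 64 * (e * N) * x1 ^ 2), ?_⟩
    rw [hs1]
    linear_combination t1 ^ 2 * hy
  have q01 : ∃ G, (a : ℤ) * s0 * s1 - b * t0 * t1 = (e * N) * G := by
    refine ⟨y * t0 * t1 + a * (8 * ρ * t0 * x1 + 8 * ρ * t1 * x0 + 64 * (e * N) * x0 * x1), ?_⟩
    rw [hs1, hs0]
    linear_combination t0 * t1 * hy
  have q00 : ∃ G, (a : ℤ) * s0 ^ 2 - b * t0 ^ 2 = (e * N) * G := by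
    refine ⟨y * t0 ^ 2 + a * (16 * ρ * t0 * x0 + 64 * (e * N) * x0 ^ 2), ?_⟩
    rw [hs0]
    linear_combination t0 ^ 2 * hy
  have hs02 : ¬ (2 : ℤ) ∣ s0 := by
    intro h
    have h3 : (2 : ℤ) ∣ ρ * t0 := by
      obtain ⟨z, hz⟩ := h
      exact ⟨z - 4 * (e * N) * x0, by linear_combination hz - hs0⟩
    rcases Int.prime_two.dvd_mul.1 h3 with h4 | h4
    · exact hρ2 h4
    · exact g6 h4
  have qh : ∃ H, (a : ℤ) * s0 ^ 2 + b * t0 ^ 2 = 2 * H := by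
    obtain ⟨w1, hw1⟩ := Pool.Agent.Y859.SP.Cg.odd_sq s0 hs02
    obtain ⟨w2, hw2⟩ := Pool.Agent.Y859.SP.Cg.odd_sq t0 g6
    obtain ⟨x, hx⟩ := ab8z
    have ha : (a : ℤ) = b + 8 * x := by linarith
    refine ⟨a * (4 * w1) + b * (4 * w2) + b + 4 * x, ?_⟩
    rw [hw1, hw2]
    linear_combination ha
  obtain ⟨G11, hG11⟩ := q11
  obtain ⟨G01, hG01⟩ := q01
  obtain ⟨G00, hG00⟩ := q00
  obtain ⟨H00, hH00⟩ := qh
  have hGp : 0 < G11 := by
    rw [hG11] at g7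
    by_contra h
    push Not at h
    have : (e * (N : ℤ)) * G11 ≤ 0 := mul_nonpos_of_nonneg_of_nonpos hE0.le h
    linarith
  exact ⟨ρ, s1, t1, s0, t0, G11, G01, G00, H00, ⟨pa, pb, a5, b5, hab, ab8z, e8, uo, No, Nsf, aN, bN,
    hN, h2, g1, g2, ⟨x1, hx1⟩, ⟨x0, hx0⟩, g5, g6, hG11, hG01, hG00, hH00, hGp, g8, g9, g10, g11⟩⟩

end Pool.Agent.Y859.MU
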