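import Mathlib
import Pool.Agent.TH464.PW.Input

set_option autoImplicit false

/-!
# Two primes with the same quadratic character modulo all prime factors of `N`
-/

namespace Pool.Agent.Y859.MU

open Finset Filter
open Pool.Agent.TH464.PW

/-- few prime factors -/
lemma two_pow_omega (η : ℝ) (hη : 0 < η) : ∃ C : ℝ, 1 ≤ C ∧ ∀ N : ℕ, 1 ≤ N →
    (2 : ℝ) ^ N.primeFactors.card ≤ C * (N : ℝ) ^ η := by
  obtain ⟨K, hK⟩ : ∃ K : ℕ, (2 : ℝ) ^ (1 / η) ≤ K := exists_nat_ge _
  refine ⟨2 ^ K, one_le_pow₀ (by norm_num), ?_⟩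
  intro N hN
  have hNpos : (0 : ℝ) < N := by exact_mod_cast hN
  have h1 : ∀ p ∈ N.primeFactors, (2 : ℝ) ≤ (if p < K then 2 else 1) * (p : ℝ) ^ η := by
    intro p hp
    have hpp := Nat.prime_of_mem_primeFactors hp
    have hp1 : (1 : ℝ) ≤ p := by exact_mod_cast hpp.one_lt.le
    split_ifs with h
    · have := Real.one_le_rpow hp1 hη.le
      linarith
    · rw [one_mul]
      have h2 : (K : ℝ) ≤ p := by exact_mod_cast (by omega : K ≤ p)
      have h3 : (2 : ℝ) ^ (1 / η) ≤ p := hK.trans h2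
      calc (2 : ℝ) = ((2 : ℝ) ^ (1 / η)) ^ η := by
            rw [← Real.rpow_mul (by norm_num), one_div_mul_cancel hη.ne', Real.rpow_one]
        _ ≤ (p : ℝ) ^ η := Real.rpow_le_rpow (by positivity) h3 hη.le
  calc (2 : ℝ) ^ N.primeFactors.card = ∏ _p ∈ N.primeFactors, (2 : ℝ) := by rw [Finset.prod_const]
    _ ≤ ∏ p ∈ N.primeFactors, ((if p < K then 2 else 1) * (p : ℝ) ^ η) :=
        Finset.prod_le_prod (fun _ _ => by norm_num) h1
    _ = (∏ p ∈ N.primeFactors, (if p < K then (2 : ℝ) else 1)) * ∏ p ∈ N.primeFactors, (p : ℝ) ^ η :=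
        Finset.prod_mul_distrib
    _ ≤ 2 ^ K * (N : ℝ) ^ η := by
        apply mul_le_mul
        · rw [Finset.prod_ite, Finset.prod_const, Finset.prod_const_one, mul_one]
          apply pow_le_pow_right₀ (by norm_num)
          calc (N.primeFactors.filter (fun p => p < K)).card ≤ (range K).card := by
                apply card_le_card
                intro p hp
                rw [mem_filter] at hp
                exact mem_range.2 hp.2
            _ = K := card_range K
        · rw [Real.finsetProd_rpow _ _ (fun p _ => Nat.cast_nonneg p)]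
          apply Real.rpow_le_rpow (Finset.prod_nonneg fun p _ => Nat.cast_nonneg p) _ hη.le
          have h2 : ∏ p ∈ N.primeFactors, p ≤ N := Nat.le_of_dvd hN (Nat.prod_primeFactors_dvd N)
          calc (∏ p ∈ N.primeFactors, (p : ℝ)) = ((∏ p ∈ N.primeFactors, p : ℕ) : ℝ) := by
                push_cast; rfl
            _ ≤ N := by exact_mod_cast h2
        · exact Finset.prod_nonneg fun p _ => by positivity
        · positivity

lemma card_primeFactors_le (N : ℕ) : (N.primeFactors.card : ℝ) ≤ (2 : ℝ) ^ N.primeFactors.card := by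
  have h := (Nat.lt_two_pow_self (n := N.primeFactors.card)).le
  exact_mod_cast h

/-- many primes -/
lemma many_primes (δ : ℝ) (hδ : 0 < δ) : ∀ᶠ X : ℕ in atTop,
    (X : ℝ) ^ (3 / 4 * δ) ≤ (((Finset.range (⌊(X : ℝ) ^ δ⌋₊ + 1)).filter
      (fun p : ℕ => p.Prime ∧ (X : ℝ) ^ (δ / 2) < (p : ℝ))).card : ℝ) := by
  have hXr : Tendsto (fun X : ℕ => (X : ℝ)) atTop atTop := tendsto_natCast_atTop_atTop
  have hpow : Tendsto (fun X : ℕ => (X : ℝ) ^ δ) atTop atTop := (tendsto_rpow_atTop hδ).comp hXr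
  have hpow4 : Tendsto (fun X : ℕ => (X : ℝ) ^ (δ / 8)) atTop atTop :=
    (tendsto_rpow_atTop (by positivity)).comp hXr
  filter_upwards [hpow.eventually_ge_atTop 16, hpow4.eventually_ge_atTop 16,
    logpow_rpow 1 (4 * δ) (δ / 8) (by positivity) (by positivity), eventually_ge_atTop 3] with
    X h1 h2 h3 h4
  have hXpos : (0 : ℝ) < X := by exact_mod_cast (by omega : 0 < X)
  have hX1 : (1 : ℝ) ≤ X := by exact_mod_cast (by omega : 1 ≤ X)
  obtain ⟨y, hy⟩ : ∃ y, y = ⌊(X : ℝ) ^ δ⌋₊ := ⟨_, rfl⟩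
  have hy1 : (y : ℝ) ≤ (X : ℝ) ^ δ := by rw [hy]; exact Nat.floor_le (by positivity)
  have hy2 : (X : ℝ) ^ δ - 1 < y := by rw [hy]; exact Nat.sub_one_lt_floor _
  rw [← hy]
  have hlogX : 0 < Real.log X := Real.log_pos (by exact_mod_cast (by omega : 1 < X))
  have hyl : Real.log y ≤ δ * Real.log X := by
    calc Real.log y ≤ Real.log ((X : ℝ) ^ δ) := Real.log_le_log (by linarith) hy1
      _ = δ * Real.log X := Real.log_rpow hXpos _
  have hy15 : (15 : ℝ) < y := by linarith
  have hly : 0 < Real.log y := Real.log_pos (by linarith)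
  have hpi := Chebyshev.pi_ge y
  have hl2 := Real.log_two_gt_d9
  have hlog1 : Real.log ((y : ℝ) + 1) ≤ (y : ℝ) / 4 := by
    have h5 : Real.log ((y : ℝ) + 1) ≤ 4 * ((y : ℝ) + 1) ^ ((1 : ℝ) / 4) := by
      have := Real.log_le_rpow_div (x := (y : ℝ) + 1) (ε := 1 / 4) (by linarith) (by norm_num)
      linarith
    have h6 := Real.log_le_sub_one_of_pos (x := ((y : ℝ) + 1) / 16) (by positivity)
    have h7 : Real.log (((y : ℝ) + 1) / 16) = Real.log ((y : ℝ) + 1) - 4 * Real.log 2 := by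
      rw [Real.log_div (by positivity) (by norm_num)]
      have : (16 : ℝ) = 2 ^ 4 := by norm_num
      rw [this, Real.log_pow]
      norm_num
    have h8 := Real.log_two_lt_d9
    linarith
  have hpi2 : (y : ℝ) / 4 / Real.log y ≤ (Nat.primeCounting y : ℝ) := by
    refine le_trans ?_ hpi
    apply div_le_div_of_nonneg_right _ hly.le
    nlinarith
  -- from `π` to the set
  have hcard : (Nat.primeCounting y : ℝ) - (X : ℝ) ^ (δ / 2) - 1 ≤
      (((Finset.range (y + 1)).filter (fun p : ℕ => p.Prime ∧ (X : ℝ) ^ (δ / 2) < (p : ℝ))).card : ℝ) := by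
    have e1 : Nat.primeCounting y = ((Finset.range (y + 1)).filter Nat.Prime).card := by
      rw [Nat.primeCounting, Nat.primeCounting', Nat.count_eq_card_filter_range]
    have h5 : ((Finset.range (y + 1)).filter Nat.Prime) ⊆
        ((Finset.range (y + 1)).filter (fun p : ℕ => p.Prime ∧ (X : ℝ) ^ (δ / 2) < (p : ℝ))) ∪
          (Finset.range (⌊(X : ℝ) ^ (δ / 2)⌋₊ + 1)) := by
      intro p hp
      rw [mem_filter] at hp
      rw [mem_union, mem_filter]
      by_cases h : (X : ℝ) ^ (δ / 2) < (p : ℝ)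
      · exact Or.inl ⟨hp.1, hp.2, h⟩
      · right
        push Not at h
        have := Nat.le_floor h
        rw [mem_range]
        omega
    have h6 := (card_le_card h5).trans (card_union_le _ _)
    rw [card_range, ← e1] at h6
    have h7 : (Nat.primeCounting y : ℝ) ≤
        (((Finset.range (y + 1)).filter (fun p : ℕ => p.Prime ∧ (X : ℝ) ^ (δ / 2) < (p : ℝ))).card : ℝ) +
          (⌊(X : ℝ) ^ (δ / 2)⌋₊ + 1) := by exact_mod_cast h6
    have h8 : (⌊(X : ℝ) ^ (δ / 2)⌋₊ : ℝ) ≤ (X : ℝ) ^ (δ / 2) := Nat.floor_le (by positivity)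
    linarith
  refine le_trans ?_ hcard
  -- sizes
  obtain ⟨w, hw⟩ : ∃ w : ℝ, w = (X : ℝ) ^ (δ / 8) := ⟨_, rfl⟩
  have hw8 : (X : ℝ) ^ δ = w ^ 8 := by
    rw [hw, ← Real.rpow_natCast, ← Real.rpow_mul hXpos.le]
    congr 1
    push_cast
    ring
  have hw6 : (X : ℝ) ^ (3 / 4 * δ) = w ^ 6 := by
    rw [hw, ← Real.rpow_natCast, ← Real.rpow_mul hXpos.le]
    congr 1
    push_cast
    ring
  have hw4 : (X : ℝ) ^ (δ / 2) = w ^ 4 := by
    rw [hw, ← Real.rpow_natCast, ← Real.rpow_mul hXpos.le]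
    congr 1
    push_cast
    ring
  rw [← hw] at h2 h3
  rw [pow_one] at h3
  rw [hw8] at hy2
  rw [hw6, hw4]
  have hly2 : 4 * Real.log y ≤ w := by
    calc 4 * Real.log y ≤ 4 * (δ * Real.log X) := by linarith
      _ = 4 * δ * Real.log X := by ring
      _ ≤ w := h3
  have h9 : (w ^ 8 - 1) / w ≤ (Nat.primeCounting y : ℝ) := by
    refine le_trans ?_ hpi2
    rw [div_div]
    apply div_le_div₀ (by linarith) hy2.le (by positivity) hly2
  have hw0 : 0 < w := by linarith
  have h10 : w ^ 7 - 1 ≤ (w ^ 8 - 1) / w := by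
    rw [le_div_iff₀ hw0]
    nlinarith
  have h11 : 2 * w ^ 6 ≤ w ^ 7 := by
    have : 0 < w ^ 6 := by positivity
    nlinarith
  have h12 : w ^ 4 + 2 ≤ w ^ 6 := by
    have h13 : (1 : ℝ) ≤ w ^ 4 := one_le_pow₀ (by linarith)
    have h14 : (256 : ℝ) ≤ w ^ 2 := by nlinarith
    nlinarith
  linarith

end Pool.Agent.Y859.MU
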