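import Pool.Agent.Y859.MU.Lat
import Pool.Agent.Y859.SP.Thr
import Pool.Agent.Y859.SP.SysU

set_option autoImplicit false

/-!
# The two quadratic polynomials
-/

namespace Pool.Agent.Y859.MU

open Polynomial Finset
open Pool.Agent.H373R2.T7 Pool.Agent.W123.RU.Poly
open Pool.Agent.TH464.PW Pool.Agent.Y859.SP

/-- the data -/
structure Dat (a b N : ℕ) (e u ρ s1 t1 s0 t0 G11 G01 G00 H00 : ℤ) : Prop where
  pa : a.Prime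
  pb : b.Prime
  a5 : 5 ≤ a
  b5 : 5 ≤ b
  hab : a ≠ b
  ab8 : (8 : ℤ) ∣ (a : ℤ) - b
  e8 : e = 8 ∨ e = 16
  uo : ¬ (2 : ℤ) ∣ u
  No : ¬ 2 ∣ N
  Nsf : Squarefree N
  aN : ¬ a ∣ N
  bN : ¬ b ∣ N
  hN : (N : ℤ) ∣ a * ρ ^ 2 - b
  h2 : 8 * e ∣ a * ρ ^ 2 - b * (1 + e * u)
  s1p : 0 < s1
  s0p : 0 ≤ s0
  L1 : 8 * (e * N) ∣ s1 - ρ * t1
  L0 : 8 * (e * N) ∣ s0 - ρ * t0
  det : s1 * t0 - s0 * t1 = 8 * (e * N)
  t0o : ¬ (2 : ℤ) ∣ t0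
  g11 : (a : ℤ) * s1 ^ 2 - b * t1 ^ 2 = (e * N) * G11
  g01 : (a : ℤ) * s0 * s1 - b * t0 * t1 = (e * N) * G01
  g00 : (a : ℤ) * s0 ^ 2 - b * t0 ^ 2 = (e * N) * G00
  h00 : (a : ℤ) * s0 ^ 2 + b * t0 ^ 2 = 2 * H00
  Gp : 0 < G11
  b1 : (a : ℤ) * s1 ^ 2 ≤ 64 * (a * b) * (e * N)
  b2 : (b : ℤ) * t1 ^ 2 ≤ e * N
  b3 : (a : ℤ) * s0 ^ 2 ≤ 256 * (a * b) * (e * N)
  b4 : (b : ℤ) * t0 ^ 2 ≤ 640 * (a * b) * (e * N)

/-- the polynomials -/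
noncomputable def fq (a b : ℕ) (s1 t1 s0 t0 G11 G01 G00 H00 : ℤ) : Fin 2 → ℤ[X] := fun i =>
  if i = 0 then quad (4 * G11) (4 * G01) G00
  else quad (2 * ((a : ℤ) * s1 ^ 2 + b * t1 ^ 2)) (2 * ((a : ℤ) * s0 * s1 + b * t0 * t1)) H00

section

variable {a b N : ℕ} {e u ρ s1 t1 s0 t0 G11 G01 G00 H00 : ℤ}

lemma fq0 (m : ℤ) : (fq a b s1 t1 s0 t0 G11 G01 G00 H00 0).eval m =
    4 * G11 * m ^ 2 + 4 * G01 * m + G00 := by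
  unfold fq
  rw [if_pos rfl, quad_eval]

lemma fq1 (m : ℤ) : (fq a b s1 t1 s0 t0 G11 G01 G00 H00 1).eval m =
    2 * ((a : ℤ) * s1 ^ 2 + b * t1 ^ 2) * m ^ 2 + 2 * ((a : ℤ) * s0 * s1 + b * t0 * t1) * m + H00 := by
  unfold fq
  rw [if_neg (by decide), quad_eval]

variable (D : Dat a b N e u ρ s1 t1 s0 t0 G11 G01 G00 H00)

include D

lemma Dat.e0 : 0 < e := by rcases D.e8 with h | h <;> rw [h] <;> norm_num

lemma Dat.N0 : 0 < N := by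
  rcases Nat.eq_zero_or_pos N with h | h
  · exfalso
    apply D.No
    rw [h]
    exact dvd_zero _
  · exact h

lemma Dat.eN0 : 0 < e * (N : ℤ) := mul_pos D.e0 (by exact_mod_cast D.N0)

lemma Dat.v0 (m : ℤ) : (e * N) * (fq a b s1 t1 s0 t0 G11 G01 G00 H00 0).eval m =
    a * (s0 + 2 * s1 * m) ^ 2 - b * (t0 + 2 * t1 * m) ^ 2 := by
  rw [fq0]
  linear_combination (-4 * m ^ 2) * D.g11 + (-4 * m) * D.g01 - D.g00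

lemma Dat.v1 (m : ℤ) : 2 * (fq a b s1 t1 s0 t0 G11 G01 G00 H00 1).eval m =
    a * (s0 + 2 * s1 * m) ^ 2 + b * (t0 + 2 * t1 * m) ^ 2 := by
  rw [fq1]
  linear_combination -D.h00

lemma Dat.Todd (m : ℤ) : ¬ (2 : ℤ) ∣ t0 + 2 * t1 * m := by
  intro h
  apply D.t0o
  have h2 : (2 : ℤ) ∣ 2 * t1 * m := ⟨t1 * m, by ring⟩
  exact (dvd_add_left h2).1 h

lemma Dat.Lm (m : ℤ) : 8 * (e * N) ∣ (s0 + 2 * s1 * m) - ρ * (t0 + 2 * t1 * m) := by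
  obtain ⟨x, hx⟩ := D.L1
  obtain ⟨y, hy⟩ := D.L0
  exact ⟨y + 2 * m * x, by linear_combination hy + 2 * m * hx⟩

lemma Dat.detm (m : ℤ) : s1 * (t0 + 2 * t1 * m) - (s0 + 2 * s1 * m) * t1 = 8 * (e * N) := by
  linear_combination D.det

/-- the first value modulo `8` -/
lemma Dat.c0 (m : ℤ) : (8 : ℤ) ∣ N * (fq a b s1 t1 s0 t0 G11 G01 G00 H00 0).eval m -
    u * (b * (t0 + 2 * t1 * m) ^ 2) := by
  obtain ⟨x, hx⟩ := D.Lm m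
  obtain ⟨y, hy⟩ := D.h2
  have hv := D.v0 m
  have he := D.e0.ne'
  obtain ⟨S, hS⟩ : ∃ S, S = s0 + 2 * s1 * m := ⟨_, rfl⟩
  obtain ⟨T, hT⟩ : ∃ T, T = t0 + 2 * t1 * m := ⟨_, rfl⟩
  rw [← hS, ← hT] at hx hv
  rw [← hT]
  have hS2 : S = ρ * T + 8 * (e * N) * x := by linarith
  refine ⟨y * T ^ 2 + (a : ℤ) * N * (2 * ρ * T * x + 8 * (e * N) * x ^ 2), ?_⟩
  have h3 : e * (N * (fq a b s1 t1 s0 t0 G11 G01 G00 H00 0).eval m - u * (b * T ^ 2)) =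
      e * (8 * (y * T ^ 2 + (a : ℤ) * N * (2 * ρ * T * x + 8 * (e * N) * x ^ 2))) := by
    rw [hS2] at hv
    linear_combination hv + T ^ 2 * hy
  exact mul_left_cancel₀ he h3

/-- the second value modulo `8` -/
lemma Dat.c1 (m : ℤ) : (8 : ℤ) ∣ (fq a b s1 t1 s0 t0 G11 G01 G00 H00 1).eval m -
    (1 + (e / 2) * u) * (b * (t0 + 2 * t1 * m) ^ 2) := by
  obtain ⟨x, hx⟩ := D.Lm m
  obtain ⟨y, hy⟩ := D.h2
  have hv := D.v1 m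
  obtain ⟨S, hS⟩ : ∃ S, S = s0 + 2 * s1 * m := ⟨_, rfl⟩
  obtain ⟨T, hT⟩ : ∃ T, T = t0 + 2 * t1 * m := ⟨_, rfl⟩
  rw [← hS, ← hT] at hx hv
  rw [← hT]
  have hS2 : S = ρ * T + 8 * (e * N) * x := by linarith
  obtain ⟨e', he'⟩ : ∃ e', e = 2 * (4 * e') := by
    rcases D.e8 with h | h
    · exact ⟨1, by rw [h]; norm_num⟩
    · exact ⟨2, by rw [h]; norm_num⟩
  have he2 : e / 2 = 4 * e' := by rw [he']; simp
  rw [he2]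
  refine ⟨4 * e' * (y * T ^ 2 + (a : ℤ) * N * (2 * ρ * T * x + 8 * (e * N) * x ^ 2)), ?_⟩
  have h3 : 2 * ((fq a b s1 t1 s0 t0 G11 G01 G00 H00 1).eval m -
      (1 + (4 * e') * u) * (b * T ^ 2)) =
      2 * (8 * (4 * e' * (y * T ^ 2 + (a : ℤ) * N * (2 * ρ * T * x + 8 * (e * N) * x ^ 2)))) := by
    rw [hS2] at hv
    rw [he'] at hv hy ⊢
    linear_combination hv + T ^ 2 * hy
  exact mul_left_cancel₀ two_ne_zero h3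

omit D in
lemma odd_mul3 {x y z : ℤ} (hx : ¬ (2 : ℤ) ∣ x) (hy : ¬ (2 : ℤ) ∣ y) (hz : ¬ (2 : ℤ) ∣ z) :
    ¬ (2 : ℤ) ∣ x * (y * z ^ 2) := by
  intro h
  rcases Int.prime_two.dvd_mul.1 h with h | h
  · exact hx h
  · rcases Int.prime_two.dvd_mul.1 h with h | h
    · exact hy h
    · exact hz (Int.prime_two.dvd_of_dvd_pow h)

omit D in
lemma odd_cast {b : ℕ} (hb : b.Prime) (h5 : 5 ≤ b) : ¬ (2 : ℤ) ∣ (b : ℤ) := by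
  intro h
  have h1 : 2 ∣ b := by exact_mod_cast h
  have := (Nat.prime_dvd_prime_iff_eq Nat.prime_two hb).1 h1
  omega

lemma Dat.odd0 (m : ℤ) : ¬ (2 : ℤ) ∣ (fq a b s1 t1 s0 t0 G11 G01 G00 H00 0).eval m := by
  intro h
  obtain ⟨c, hc⟩ := D.c0 m
  apply odd_mul3 D.uo (odd_cast D.pb D.b5) (D.Todd m)
  obtain ⟨w, hw⟩ := h
  exact ⟨N * w - 4 * c, by rw [hw] at hc; linarith⟩

lemma Dat.odd1 (m : ℤ) : ¬ (2 : ℤ) ∣ (fq a b s1 t1 s0 t0 G11 G01 G00 H00 1).eval m := by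
  intro h
  obtain ⟨c, hc⟩ := D.c1 m
  have h1 : ¬ (2 : ℤ) ∣ 1 + (e / 2) * u := by
    rcases D.e8 with h | h <;> rw [h]
    · norm_num
      omega
    · norm_num
      omega
  apply odd_mul3 h1 (odd_cast D.pb D.b5) (D.Todd m)
  obtain ⟨w, hw⟩ := h
  exact ⟨w - 4 * c, by rw [hw] at hc; linarith⟩

/-- the first discriminant -/
lemma Dat.disc0 : (4 * G01) ^ 2 - 4 * (4 * G11) * G00 = 1024 * ((a : ℤ) * b) := by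
  have h0 := D.eN0.ne'
  have h1 : (e * (N : ℤ)) ^ 2 * ((4 * G01) ^ 2 - 4 * (4 * G11) * G00) =
      (e * (N : ℤ)) ^ 2 * (1024 * ((a : ℤ) * b)) := by
    have e1 : (e * (N : ℤ)) ^ 2 * ((4 * G01) ^ 2 - 4 * (4 * G11) * G00) =
        16 * (((e * N) * G01) ^ 2 - ((e * N) * G11) * ((e * N) * G00)) := by ring
    rw [e1, ← D.g11, ← D.g01, ← D.g00]
    have e2 : 16 * (((a : ℤ) * s0 * s1 - b * t0 * t1) ^ 2 -
        (a * s1 ^ 2 - b * t1 ^ 2) * (a * s0 ^ 2 - b * t0 ^ 2)) =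
        16 * ((a : ℤ) * b) * (s1 * t0 - s0 * t1) ^ 2 := by ring
    rw [e2, D.det]
    ring
  exact mul_left_cancel₀ (pow_ne_zero 2 h0) h1

/-- the second discriminant -/
lemma Dat.disc1 : (2 * ((a : ℤ) * s0 * s1 + b * t0 * t1)) ^ 2 -
    4 * (2 * ((a : ℤ) * s1 ^ 2 + b * t1 ^ 2)) * H00 = -(4 * ((a : ℤ) * b) * (8 * (e * N)) ^ 2) := by
  have e1 : (2 * ((a : ℤ) * s0 * s1 + b * t0 * t1)) ^ 2 -
      4 * (2 * ((a : ℤ) * s1 ^ 2 + b * t1 ^ 2)) * H00 =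
      4 * ((a : ℤ) * s0 * s1 + b * t0 * t1) ^ 2 -
      4 * ((a : ℤ) * s1 ^ 2 + b * t1 ^ 2) * (2 * H00) := by ring
  rw [e1, ← D.h00, ← D.det]
  ring

end

end Pool.Agent.Y859.MU
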