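import Pool.Agent.Y859.MU.Sys

set_option autoImplicit false

/-!
# The sieve
-/

namespace Pool.Agent.Y859.MU

open Polynomial Finset Filter
open Pool.Agent.W123.RP Pool.Agent.H373R2.T7 Pool.Agent.W123.RU Pool.Agent.W123.RU.Poly
open Pool.Agent.TH464.PW Pool.Agent.TH464.PO Pool.Agent.Y859.SP

open Classical in
lemma count_per (P : ℕ → Prop) (p : ℕ) (hp : 0 < p) (hper : ∀ n, P n ↔ P (n % p)) (Z Y c : ℕ)
    (hc : ((range p).filter (fun r => P r)).card ≤ c) :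
    ((Finset.Ioc Z (Z + Y)).filter (fun m => P m)).card ≤ c * (Y / p + 1) := by
  have h : ((Finset.Ioc Z (Z + Y)).filter (fun m => P m)).card ≤
      (((range p).filter (fun r => P r)) ×ˢ (range (Y / p + 1))).card := by
    apply Finset.card_le_card_of_injOn (fun m => (m % p, (m - Z - 1) / p))
    · intro m hm
      rw [Finset.mem_coe, mem_filter, mem_Ioc] at hm
      rw [Finset.mem_coe, mem_product, mem_filter, mem_range, mem_range]
      refine ⟨⟨Nat.mod_lt _ hp, (hper m).1 hm.2⟩, ?_⟩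
      change (m - Z - 1) / p < Y / p + 1
      have : (m - Z - 1) / p ≤ Y / p := Nat.div_le_div_right (by omega)
      omega
    · intro m hm m' hm' he
      rw [Finset.mem_coe, mem_filter, mem_Ioc] at hm hm'
      have h1 : m % p = m' % p := congrArg Prod.fst he
      have h2 : (m - Z - 1) / p = (m' - Z - 1) / p := congrArg Prod.snd he
      have h3 : (m - Z - 1) ≡ (m' - Z - 1) [MOD p] := by
        have h4 : (m - Z - 1) + (Z + 1) ≡ (m' - Z - 1) + (Z + 1) [MOD p] := by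
          have e1 : (m - Z - 1) + (Z + 1) = m := by omega
          have e2 : (m' - Z - 1) + (Z + 1) = m' := by omega
          rw [e1, e2]
          exact h1
        exact Nat.ModEq.add_right_cancel' _ h4
      have h5 := Nat.div_add_mod (m - Z - 1) p
      have h6 := Nat.div_add_mod (m' - Z - 1) p
      rw [h2, h3] at h5
      omega
  rw [card_product, card_range] at h
  exact h.trans (Nat.mul_le_mul_right _ hc)

lemma Ck_one_zero' (V : ℝ) : Ck 1 (((0 : ℕ) : ℝ) * V) = 1 := by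
  have : ((0 : ℕ) : ℝ) * V = 0 := by push_cast; ring
  rw [this]
  unfold Ck
  simp [pw]

/-- **a good integer avoiding the prime factors of `a b N`** -/
theorem sieve (θ : ℝ) (hθ : 0 < θ) (hθ1 : θ ≤ 1) : ∃ r : ℕ, 2 ≤ r ∧ ∀ᶠ X : ℕ in atTop,
    ∀ (a b N : ℕ) (e u ρ s1 t1 s0 t0 G11 G01 G00 H00 : ℤ),
      Dat a b N e u ρ s1 t1 s0 t0 G11 G01 G00 H00 → a ≤ X → b ≤ X → N ≤ X →
      ∃ m : ℕ, (X : ℝ) ^ θ ≤ m ∧ (m : ℝ) ≤ 4 * (X : ℝ) ^ θ ∧
        SysU.Good (fq a b s1 t1 s0 t0 G11 G01 G00 H00) 12 r X m ∧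
        ∀ p : ℕ, p.Prime → p ∣ a * b * N →
          ∀ i, ¬ (p : ℤ) ∣ (fq a b s1 t1 s0 t0 G11 G01 G00 H00 i).eval (m : ℤ) := by
  classical
  obtain ⟨v, hv, hVlo⟩ := V_lower_unif 4
  obtain ⟨r0, B, h0⟩ := SysU.gap_sys (k := 2) (by norm_num) 2 (by norm_num) 4 θ hθ 1 0 (1 / 2)
    (by norm_num)
  obtain ⟨r1, hr1⟩ : ∃ r1 : ℕ, 1 / θ ≤ r1 := exists_nat_ge _
  obtain ⟨v3, C3, hv3, hC3, hV3⟩ := Thr.V3_bounds
  obtain ⟨r, hr⟩ : ∃ r, r = max r0 (max 2 r1) := ⟨_, rfl⟩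
  have hr2 : 2 ≤ r := by rw [hr]; exact (le_max_left _ _).trans (le_max_right _ _)
  have hr0 : r0 ≤ r := by rw [hr]; exact le_max_left _ _
  have hr1' : r1 ≤ r := by rw [hr]; exact (le_max_right _ _).trans (le_max_right _ _)
  have hrr : (2 : ℝ) ≤ r := by exact_mod_cast hr2
  have hrpos : (0 : ℝ) < r := by linarith
  have hrθ : 1 / (r : ℝ) ≤ θ := by
    have h1 : 1 / θ ≤ r := hr1.trans (by exact_mod_cast hr1')
    rw [div_le_iff₀ hθ] at h1
    rw [div_le_iff₀ hrpos]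
    linarith
  refine ⟨r, hr2, ?_⟩
  have hpow2 : Tendsto (fun X : ℕ => (X : ℝ) ^ (1 / (2 * r : ℝ))) atTop atTop :=
    (tendsto_rpow_atTop (by positivity)).comp tendsto_natCast_atTop_atTop
  filter_upwards [h0 r hr0, SysU.ctl_sys (k := 2) 2 4, hpow2.eventually_ge_atTop 3,
    eventually_ge_atTop 100000, V_tiny 2 Thr.Q3 Thr.perB3 v3 C3 hv3 hC3 hV3 10 (by norm_num) B r hr2,
    logpow_rpow 4 (49 * r / v) (1 / r) (by positivity) (by positivity)] with
    X hX hctl hX3 hX5 hVt hlp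
  intro a b N e u ρ s1 t1 s0 t0 G11 G01 G00 H00 D haX hbX hNX
  have hX1 : (100000 : ℝ) ≤ X := by exact_mod_cast hX5
  have hXpos : (0 : ℝ) < X := by linarith
  have hXz : (100000 : ℤ) ≤ X := by exact_mod_cast hX5
  have haz : (a : ℤ) ≤ X := by exact_mod_cast haX
  have hbz : (b : ℤ) ≤ X := by exact_mod_cast hbX
  have hNz : (N : ℤ) ≤ X := by exact_mod_cast hNX
  have ha0 : (0 : ℤ) < a := by exact_mod_cast D.pa.pos
  have hb0 : (0 : ℤ) < b := by exact_mod_cast D.pb.pos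
  have hN0 : (0 : ℤ) < N := by exact_mod_cast D.N0
  have hab : (a : ℤ) * b ≤ X ^ 2 := by
    rw [pow_two]
    exact mul_le_mul haz hbz hb0.le (by linarith)
  have hab0 : 0 < (a : ℤ) * b := mul_pos ha0 hb0
  have heN : e * (N : ℤ) ≤ 16 * X := by
    rcases D.e8 with h | h <;> rw [h] <;> linarith
  have heN0 := D.eN0
  have hcoef : 2000 * ((a : ℤ) * b) * (e * N) ≤ (X : ℤ) ^ 4 := by
    calc 2000 * ((a : ℤ) * b) * (e * N) ≤ 2000 * (X ^ 2) * (16 * X) :=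
          mul_le_mul (by linarith) heN heN0.le (by positivity)
      _ = 32000 * (X : ℤ) ^ 3 := by ring
      _ ≤ X * (X : ℤ) ^ 3 := mul_le_mul_of_nonneg_right (by linarith) (by positivity)
      _ = (X : ℤ) ^ 4 := by ring
  obtain ⟨f, hf⟩ : ∃ f, f = fq a b s1 t1 s0 t0 G11 G01 G00 H00 := ⟨_, rfl⟩
  have hyp := D.hyp 4 X hcoef
  rw [← hf] at hyp ⊢
  have hcc := hctl f hyp
  obtain ⟨y, hy⟩ : ∃ y, y = ⌊(X : ℝ) ^ (1 / (r : ℝ))⌋₊ := ⟨_, rfl⟩
  obtain ⟨hy1, hy2, hy3, hy4⟩ := level_low r hr2 X (by omega) (by linarith)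
  have hL0 : 0 < Real.log X := Real.log_pos (by linarith)
  have hVlow : v / Real.log X ^ 4 ≤ Vq (Q f) ⌊(X : ℝ) ^ (1 / (r : ℝ))⌋₊ := by
    have hlogy : 0 < Real.log ⌊(X : ℝ) ^ (1 / (r : ℝ))⌋₊ := lt_of_lt_of_le (by positivity) hy2
    refine le_trans ?_ (hVlo (Q f) hcc.per hcc.adm _ hy4)
    apply div_le_div_of_nonneg_left hv.le (by positivity)
    exact pow_le_pow_left₀ hlogy.le hy3 4
  -- the density is small
  have hVs : Real.log (Real.log X) ^ B * Vq (Q f) ⌊(X : ℝ) ^ (1 / (r : ℝ))⌋₊ ≤ 1 := by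
    obtain ⟨E, hE⟩ : ∃ E : ℤ, E = (a * b * N) * (G11 * ((a : ℤ) * s1 ^ 2 + b * t1 ^ 2)) := ⟨_, rfl⟩
    have hH := D.H11p
    have hG := D.Gp
    obtain ⟨q1, -, -, q4, -, -⟩ := D.bds
    have hE0 : 0 < E := by
      rw [hE]
      positivity
    have hEX : E ≤ (X : ℤ) ^ 10 := by
      have g1 : (a : ℤ) * b * N ≤ X ^ 2 * X := mul_le_mul hab hNz hN0.le (by positivity)
      have g2 : G11 ≤ 64 * X ^ 2 := by linarith
      have g3 : (a : ℤ) * s1 ^ 2 + b * t1 ^ 2 ≤ 65 * X ^ 2 * (16 * X) := by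
        refine q4.trans ?_
        exact mul_le_mul (by linarith) heN heN0.le (by positivity)
      calc E ≤ (X ^ 2 * X) * ((64 * X ^ 2) * (65 * X ^ 2 * (16 * X))) := by
            rw [hE]
            exact mul_le_mul g1 (mul_le_mul g2 g3 hH.le (by positivity)) (by positivity)
              (by positivity)
        _ = 66560 * (X : ℤ) ^ 8 := by ring
        _ ≤ X * (X : ℤ) ^ 8 := mul_le_mul_of_nonneg_right (by linarith) (by positivity)
        _ = (X : ℤ) ^ 9 := by ring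
        _ ≤ (X : ℤ) ^ 10 := pow_le_pow_right₀ (by linarith) (by norm_num)
    have hEn : ((E.toNat : ℕ) : ℤ) = E := Int.toNat_of_nonneg hE0.le
    refine hVt (Q f) E.toNat (by omega) ?_ ?_
    · have h1 : E.toNat ≤ X ^ 10 := by
        have : ((E.toNat : ℕ) : ℤ) ≤ ((X ^ 10 : ℕ) : ℤ) := by
          rw [hEn]
          push_cast
          exact hEX
        exact_mod_cast this
      have h2 : (0 : ℝ) < (E.toNat : ℝ) := by exact_mod_cast (by omega : 0 < E.toNat)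
      calc Real.log (E.toNat : ℝ) ≤ Real.log ((X : ℝ) ^ 10) :=
            Real.log_le_log h2 (by exact_mod_cast h1)
        _ = 10 * Real.log X := by rw [Real.log_pow]; norm_num
    · intro p hp hd
      rw [hf]
      apply D.nu_cmp p hp
      intro h
      apply hd
      rw [← hE, ← hEn] at h
      exact_mod_cast h
  -- windows
  obtain ⟨Y, hYd⟩ : ∃ Y : ℕ, Y = ⌈(X : ℝ) ^ θ⌉₊ := ⟨_, rfl⟩
  have hXθ1 : (1 : ℝ) ≤ (X : ℝ) ^ θ := Real.one_le_rpow (by linarith) hθ.le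
  have hY1 : (X : ℝ) ^ θ ≤ Y := by rw [hYd]; exact Nat.le_ceil _
  have hY2 : (Y : ℝ) ≤ 2 * (X : ℝ) ^ θ := by
    rw [hYd]
    have := Nat.ceil_lt_add_one (a := (X : ℝ) ^ θ) (by positivity)
    linarith
  have hXθX : (X : ℝ) ^ θ ≤ X := by
    calc (X : ℝ) ^ θ ≤ (X : ℝ) ^ (1 : ℝ) := Real.rpow_le_rpow_of_exponent_le (by linarith) hθ1
      _ = X := Real.rpow_one _
  have hYpos : (0 : ℝ) < Y := by linarith
  have hYY : Y + Y ≤ X ^ 4 := by
    have h1 : (Y : ℝ) + Y ≤ (X : ℝ) ^ 4 := by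
      have h2 : (4 : ℝ) * X ≤ X ^ 4 := by
        have h3 : (1 : ℝ) ≤ X ^ 2 := one_le_pow₀ (by linarith)
        nlinarith [mul_pos hXpos hXpos]
      linarith
    exact_mod_cast h1
  obtain ⟨V, hVd⟩ : ∃ V : ℝ, V = Vq (Q f) ⌊(X : ℝ) ^ (1 / (r : ℝ))⌋₊ := ⟨_, rfl⟩
  have hN1 := hX f hyp hVs Y Y hY1 hYY 1 0 (Or.inl le_rfl)
  rw [← hVd] at hN1 hVlow
  rw [Ck_one_zero', mul_one] at hN1
  have hV0 : 0 < V := lt_of_lt_of_le (by positivity) hVlow
  have hN2 : (1 / 2) * (Y * V) ≤ (SysU.Near f (4 * (2 + 1)) r X 1 0 Y Y : ℝ) := by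
    have := (abs_le.1 hN1).1
    linarith
  -- the exceptional integers
  obtain ⟨F, hFd⟩ : ∃ F : Finset ℕ, F = ((a * b * N).primeFactors).filter
    (fun p : ℕ => (X : ℝ) ^ (1 / (r : ℝ)) ≤ (p : ℝ)) := ⟨_, rfl⟩
  have hM0 : a * b * N ≠ 0 := by
    have := D.pa.pos
    have := D.pb.pos
    have := D.N0
    positivity
  have hzpos : (0 : ℝ) < (X : ℝ) ^ (1 / (r : ℝ)) := by positivity
  have hzgt1 : (1 : ℝ) < (X : ℝ) ^ (1 / (r : ℝ)) := Real.one_lt_rpow (by linarith) (by positivity)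
  have hzr : ((X : ℝ) ^ (1 / (r : ℝ))) ^ r = X := by
    rw [← Real.rpow_natCast, ← Real.rpow_mul hXpos.le, one_div_mul_cancel hrpos.ne', Real.rpow_one]
  have hFcard : F.card ≤ 3 * r := by
    have h1 := pow_card_le F (a * b * N) hM0 (fun p hp => by
      rw [hFd, mem_filter, Nat.mem_primeFactors] at hp
      exact ⟨hp.1.1, hp.1.2.1⟩) _ hzpos.le (fun p hp => by
      rw [hFd, mem_filter] at hp
      exact hp.2)
    have h2 : ((a * b * N : ℕ) : ℝ) ≤ ((X : ℝ) ^ (1 / (r : ℝ))) ^ (3 * r) := by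
      rw [mul_comm 3 r, pow_mul, hzr]
      have h3 : a * b * N ≤ X * X * X := Nat.mul_le_mul (Nat.mul_le_mul haX hbX) hNX
      have h4 : ((a * b * N : ℕ) : ℝ) ≤ ((X * X * X : ℕ) : ℝ) := by exact_mod_cast h3
      refine h4.trans (le_of_eq ?_)
      push_cast
      ring
    exact (pow_le_pow_iff_right₀ hzgt1).1 (h1.trans h2)
  obtain ⟨Bad, hBad⟩ : ∃ Bad : Finset ℕ, Bad = F.biUnion (fun p =>
    (Finset.Ioc Y (Y + Y)).filter (fun m => Q f p m)) := ⟨_, rfl⟩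
  have hBcard : (Bad.card : ℝ) ≤ 24 * r * (Y / (X : ℝ) ^ (1 / (r : ℝ))) := by
    have h1 : Bad.card ≤ ∑ p ∈ F, ((Finset.Ioc Y (Y + Y)).filter (fun m => Q f p m)).card := by
      rw [hBad]
      exact card_biUnion_le
    have h2 : ∀ p ∈ F, (((Finset.Ioc Y (Y + Y)).filter (fun m => Q f p m)).card : ℝ) ≤
        8 * (Y / (X : ℝ) ^ (1 / (r : ℝ))) := by
      intro p hp
      rw [hFd, mem_filter, Nat.mem_primeFactors] at hp
      obtain ⟨⟨hpp, -, -⟩, hzp⟩ := hp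
      have hp0 : (0 : ℝ) < p := by exact_mod_cast hpp.pos
      have h3 := count_per (fun m => Q f p m) p hpp.pos (fun n => hcc.per.per p n) Y Y 4 (by
        have h4 := hcc.per.few p hpp
        unfold nuB at h4
        refine le_trans (le_of_eq ?_) h4
        congr)
      have h4 : (((Finset.Ioc Y (Y + Y)).filter (fun m => Q f p m)).card : ℝ) ≤
          4 * ((Y : ℝ) / p + 1) := by
        have h5 : (((Finset.Ioc Y (Y + Y)).filter (fun m => Q f p m)).card : ℝ) ≤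
            ((4 * (Y / p + 1) : ℕ) : ℝ) := by exact_mod_cast h3
        refine h5.trans ?_
        push_cast
        have h6 : ((Y / p : ℕ) : ℝ) ≤ (Y : ℝ) / p := Nat.cast_div_le
        linarith
      refine h4.trans ?_
      have h5 : (Y : ℝ) / p ≤ Y / (X : ℝ) ^ (1 / (r : ℝ)) :=
        div_le_div_of_nonneg_left hYpos.le hzpos hzp
      have h6 : (1 : ℝ) ≤ Y / (X : ℝ) ^ (1 / (r : ℝ)) := by
        rw [le_div_iff₀ hzpos, one_mul]
        exact (Real.rpow_le_rpow_of_exponent_le (by linarith) hrθ).trans hY1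
      linarith
    have h3 : (Bad.card : ℝ) ≤ ∑ p ∈ F, (8 * (Y / (X : ℝ) ^ (1 / (r : ℝ)))) := by
      have h4 : (Bad.card : ℝ) ≤
          ∑ p ∈ F, (((Finset.Ioc Y (Y + Y)).filter (fun m => Q f p m)).card : ℝ) := by
        exact_mod_cast h1
      exact h4.trans (Finset.sum_le_sum h2)
    rw [Finset.sum_const, nsmul_eq_mul] at h3
    refine h3.trans ?_
    have h4 : (F.card : ℝ) ≤ 3 * r := by exact_mod_cast hFcard
    have h5 : (0 : ℝ) ≤ 8 * (Y / (X : ℝ) ^ (1 / (r : ℝ))) := by positivity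
    calc (F.card : ℝ) * (8 * (Y / (X : ℝ) ^ (1 / (r : ℝ)))) ≤
        (3 * r) * (8 * (Y / (X : ℝ) ^ (1 / (r : ℝ)))) := mul_le_mul_of_nonneg_right h4 h5
      _ = _ := by ring
  have hlt : (Bad.card : ℝ) < (SysU.Near f (4 * (2 + 1)) r X 1 0 Y Y : ℝ) := by
    refine lt_of_lt_of_le (lt_of_le_of_lt hBcard ?_) hN2
    have h1 : 24 * (r : ℝ) * (Y / (X : ℝ) ^ (1 / (r : ℝ))) < 1 / 2 * (Y * (v / Real.log X ^ 4)) := by
      have h2 : 49 * (r : ℝ) / v * Real.log X ^ 4 ≤ (X : ℝ) ^ (1 / (r : ℝ)) := hlp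
      have h3 : 49 * (r : ℝ) * Real.log X ^ 4 ≤ v * (X : ℝ) ^ (1 / (r : ℝ)) := by
        have h4 : 49 * (r : ℝ) * Real.log X ^ 4 = v * (49 * (r : ℝ) / v * Real.log X ^ 4) := by
          field_simp
        rw [h4]
        exact mul_le_mul_of_nonneg_left h2 hv.le
      have hL4 : 0 < Real.log X ^ 4 := by positivity
      have e1 : 24 * (r : ℝ) * (Y / (X : ℝ) ^ (1 / (r : ℝ))) =
          (24 * r * Real.log X ^ 4) * (Y / ((X : ℝ) ^ (1 / (r : ℝ)) * Real.log X ^ 4)) := by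
        field_simp
      have e2 : 1 / 2 * (Y * (v / Real.log X ^ 4)) =
          (v * (X : ℝ) ^ (1 / (r : ℝ)) / 2) * (Y / ((X : ℝ) ^ (1 / (r : ℝ)) * Real.log X ^ 4)) := by
        field_simp
      rw [e1, e2]
      apply mul_lt_mul_of_pos_right _ (by positivity)
      have : 0 < (r : ℝ) * Real.log X ^ 4 := by positivity
      linarith
    refine h1.trans_le ?_
    have : (Y : ℝ) * (v / Real.log X ^ 4) ≤ Y * V := mul_le_mul_of_nonneg_left hVlow hYpos.le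
    linarith
  have hlt' : Bad.card < SysU.Near f (4 * (2 + 1)) r X 1 0 Y Y := by exact_mod_cast hlt
  unfold SysU.Near at hlt'
  obtain ⟨m, hm, hmB⟩ := Finset.exists_mem_notMem_of_card_lt_card hlt'
  rw [mem_filter, mem_Ioc] at hm
  refine ⟨m, ?_, ?_, hm.2.1, ?_⟩
  · have : (Y : ℝ) ≤ m := by exact_mod_cast hm.1.1.le
    linarith
  · have : (m : ℝ) ≤ ((Y + Y : ℕ) : ℝ) := by exact_mod_cast hm.1.2
    push_cast at this
    linarith
  · intro p hp hd i hdv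
    by_cases hz : (X : ℝ) ^ (1 / (r : ℝ)) ≤ (p : ℝ)
    · apply hmB
      rw [hBad, mem_biUnion]
      refine ⟨p, ?_, ?_⟩
      · rw [hFd, mem_filter, Nat.mem_primeFactors]
        exact ⟨⟨hp, hd, hM0⟩, hz⟩
      · rw [mem_filter, mem_Ioc]
        exact ⟨hm.1, i, hdv⟩
    · have := (hm.2.1 i).2 p hp hdv
      linarith

end Pool.Agent.Y859.MU
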