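import Pool.Agent.Y859.MU.Adm

set_option autoImplicit false

/-!
# The system satisfies the assumptions of the gap theorem
-/

namespace Pool.Agent.Y859.MU

open Polynomial Finset Filter
open Pool.Agent.W123.RP Pool.Agent.H373R2.T7 Pool.Agent.W123.RU Pool.Agent.W123.RU.Poly
open Pool.Agent.TH464.PW Pool.Agent.TH464.PO Pool.Agent.Y859.SP

lemma prod_not_sq {a b : ℕ} (ha : a.Prime) (hb : b.Prime) (hab : a ≠ b) (x : ℤ)
    (hx : x * x = (a : ℤ) * b) : False := by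
  have hai : Prime (a : ℤ) := Nat.prime_iff_prime_int.1 ha
  have h1 : (a : ℤ) ∣ x := by
    have h2 : (a : ℤ) ∣ x * x := ⟨b, hx⟩
    rcases hai.dvd_or_dvd h2 with h | h <;> exact h
  obtain ⟨y, hy⟩ := h1
  have h3 : (b : ℤ) = a * (y * y) := by
    have h4 : (a : ℤ) * b = a * (a * (y * y)) := by
      rw [← hx, hy]
      ring
    exact mul_left_cancel₀ hai.ne_zero h4
  have h5 : (a : ℤ) ∣ b := ⟨y * y, h3⟩
  have h6 : a ∣ b := by exact_mod_cast h5
  exact hab ((Nat.prime_dvd_prime_iff_eq ha hb).1 h6)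

lemma form_ne {a b : ℕ} (ha : a.Prime) (hb : b.Prime) (hab : a ≠ b) (s t : ℤ)
    (hst : s ≠ 0 ∨ t ≠ 0) : (a : ℤ) * s ^ 2 ≠ b * t ^ 2 := by
  intro h
  have ha0 : (a : ℤ) ≠ 0 := by exact_mod_cast ha.ne_zero
  have hb0 : (b : ℤ) ≠ 0 := by exact_mod_cast hb.ne_zero
  by_cases ht : t = 0
  · rw [ht] at h
    have h1 : (a : ℤ) * s ^ 2 = 0 := by rw [h]; ring
    rcases mul_eq_zero.1 h1 with h2 | h2
    · exact ha0 h2
    · rcases hst with h3 | h3
      · exact h3 (pow_eq_zero_iff two_ne_zero |>.1 h2)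
      · exact h3 ht
  · have h1 : ((a : ℤ) * s) ^ 2 = (a * b) * t ^ 2 := by
      linear_combination (a : ℤ) * h
    have h2 : t ∣ (a : ℤ) * s := by
      have h3 : t ^ 2 ∣ ((a : ℤ) * s) ^ 2 := ⟨a * b, by rw [h1]; ring⟩
      exact (Int.pow_dvd_pow_iff two_ne_zero).1 h3
    obtain ⟨c, hc⟩ := h2
    have h4 : c * c = (a : ℤ) * b := by
      have h5 : t ^ 2 * (c * c) = t ^ 2 * (a * b) := by
        rw [hc] at h1
        linear_combination h1
      exact mul_left_cancel₀ (pow_ne_zero 2 ht) h5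
    exact prod_not_sq ha hb hab c h4

lemma quad_coeff_le (α β γ M : ℤ) (h0 : |α| ≤ M) (h1 : |β| ≤ M) (h2 : |γ| ≤ M) (j : ℕ) :
    |(quad α β γ).coeff j| ≤ M := by
  have hM : 0 ≤ M := (abs_nonneg _).trans h0
  unfold quad
  simp only [coeff_add, coeff_C_mul, coeff_X_pow, coeff_X, coeff_C]
  rcases j with _ | _ | _ | j
  · simpa using h2
  · simpa using h1
  · simpa using h0
  · have e1 : ¬ (j + 1 + 1 + 1 = 2) := by omega
    have e2 : ¬ (1 = j + 1 + 1 + 1) := by omega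
    have e3 : ¬ (j + 1 + 1 + 1 = 0) := by omega
    simp only [e1, e2, e3, if_false]
    simpa using hM

/-- two roots modulo `p` -/
lemma two_roots (p : ℕ) [Fact p.Prime] (hp2 : p ≠ 2) (α β γ : ℤ) (hα : ¬ (p : ℤ) ∣ α)
    (c : ZMod p) (hc : c ≠ 0) (hD : c ^ 2 = ((β ^ 2 - 4 * α * γ : ℤ) : ZMod p)) :
    2 ≤ ((range p).filter (fun m : ℕ => (p : ℤ) ∣ α * (m : ℤ) ^ 2 + β * m + γ)).card := by
  have hpp : p.Prime := Fact.out
  have h20 : (2 : ZMod p) ≠ 0 := by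
    intro h
    have h9 : ((2 : ℕ) : ZMod p) = 0 := by exact_mod_cast h
    have h10 := (ZMod.natCast_eq_zero_iff 2 p).1 h9
    exact hp2 ((Nat.prime_dvd_prime_iff_eq hpp Nat.prime_two).1 h10)
  have hα0 : (α : ZMod p) ≠ 0 := by
    intro h
    exact hα ((ZMod.intCast_zmod_eq_zero_iff_dvd _ p).1 h)
  push_cast at hD
  have key : ∀ c' : ZMod p, c' ^ 2 = (β : ZMod p) ^ 2 - 4 * α * γ →
      ((-(β : ZMod p) + c') / (2 * α)).val ∈
        (range p).filter (fun m : ℕ => (p : ℤ) ∣ α * (m : ℤ) ^ 2 + β * m + γ) := by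
    intro c' hc'
    rw [mem_filter, mem_range]
    refine ⟨ZMod.val_lt _, ?_⟩
    rw [← ZMod.intCast_zmod_eq_zero_iff_dvd]
    push_cast
    rw [ZMod.natCast_zmod_val]
    field_simp
    linear_combination hc'
  have h1 := key c hD
  have h2 := key (-c) (by rw [neg_sq]; exact hD)
  have hne : ((-(β : ZMod p) + c) / (2 * α)).val ≠ ((-(β : ZMod p) + -c) / (2 * α)).val := by
    intro he
    have h6 := ZMod.val_injective p he
    rw [div_left_inj' (mul_ne_zero h20 hα0)] at h6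
    have h7 : (2 : ZMod p) * c = 0 := by linear_combination h6
    rcases mul_eq_zero.1 h7 with h8 | h8
    · exact h20 h8
    · exact hc h8
  have h8 : ({((-(β : ZMod p) + c) / (2 * α)).val, ((-(β : ZMod p) + -c) / (2 * α)).val} : Finset ℕ) ⊆
      (range p).filter (fun m : ℕ => (p : ℤ) ∣ α * (m : ℤ) ^ 2 + β * m + γ) := by
    intro x hx
    rw [mem_insert, mem_singleton] at hx
    rcases hx with rfl | rfl
    · exact h1
    · exact h2
  have h9 := card_le_card h8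
  rwa [Finset.card_pair hne] at h9

section

variable {a b N : ℕ} {e u ρ s1 t1 s0 t0 G11 G01 G00 H00 : ℤ}
variable (D : Dat a b N e u ρ s1 t1 s0 t0 G11 G01 G00 H00)

include D

lemma Dat.H11p : 0 < (a : ℤ) * s1 ^ 2 + b * t1 ^ 2 := by
  have h1 : 0 < (e * (N : ℤ)) * G11 := mul_pos D.eN0 D.Gp
  have h2 := D.g11
  have h3 : 0 ≤ (b : ℤ) * t1 ^ 2 := by positivity
  linarith

/-- bounds for the forms -/
lemma Dat.bds : 4 * G11 ≤ 256 * (a * b) ∧ |G01| ≤ 481 * (a * b) ∧ |G00| ≤ 640 * (a * b) ∧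
    (a : ℤ) * s1 ^ 2 + b * t1 ^ 2 ≤ 65 * (a * b) * (e * N) ∧
    |(a : ℤ) * s0 * s1 + b * t0 * t1| ≤ 481 * (a * b) * (e * N) ∧
    |H00| ≤ 448 * (a * b) * (e * N) := by
  have hE := D.eN0
  obtain ⟨E, hEd⟩ : ∃ E, E = e * (N : ℤ) := ⟨_, rfl⟩
  have b1 := D.b1
  have b2 := D.b2
  have b3 := D.b3
  have b4 := D.b4
  have g11 := D.g11
  have g01 := D.g01
  have g00 := D.g00
  have h00 := D.h00
  rw [← hEd] at hE b1 b2 b3 b4 g11 g01 g00 ⊢
  obtain ⟨P, hP⟩ : ∃ P, P = (a : ℤ) * b := ⟨_, rfl⟩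
  rw [← hP] at b1 b3 b4 ⊢
  have hP1 : 1 ≤ P := by
    rw [hP]
    have h1 : (1 : ℤ) ≤ a := by exact_mod_cast D.pa.one_lt.le
    have h2 : (1 : ℤ) ≤ b := by exact_mod_cast D.pb.one_lt.le
    nlinarith
  have hPE : E ≤ P * E := by nlinarith
  have p1 : 0 ≤ (a : ℤ) * s1 ^ 2 := by positivity
  have p2 : 0 ≤ (b : ℤ) * t1 ^ 2 := by positivity
  have p3 : 0 ≤ (a : ℤ) * s0 ^ 2 := by positivity
  have p4 : 0 ≤ (b : ℤ) * t0 ^ 2 := by positivity
  have q1 : |(a : ℤ) * s0 * s1| ≤ 160 * P * E := by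
    have ha0 : (0 : ℤ) ≤ a := by positivity
    rw [abs_le]
    constructor
    · have : 0 ≤ (a : ℤ) * (s0 + s1) ^ 2 := by positivity
      nlinarith
    · have : 0 ≤ (a : ℤ) * (s0 - s1) ^ 2 := by positivity
      nlinarith
  have q2 : |(b : ℤ) * t0 * t1| ≤ 321 * P * E := by
    have ha0 : (0 : ℤ) ≤ b := by positivity
    rw [abs_le]
    constructor
    · have : 0 ≤ (b : ℤ) * (t0 + t1) ^ 2 := by positivity
      nlinarith
    · have : 0 ≤ (b : ℤ) * (t0 - t1) ^ 2 := by positivity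
      nlinarith
  rw [abs_le] at q1 q2
  refine ⟨?_, ?_, ?_, ?_, ?_, ?_⟩
  · have h1 : E * G11 ≤ E * (64 * P) := by nlinarith
    have := le_of_mul_le_mul_left h1 hE
    linarith
  · rw [abs_le]
    constructor
    · have h1 : E * (-(481 * P)) ≤ E * G01 := by nlinarith
      exact le_of_mul_le_mul_left h1 hE
    · have h1 : E * G01 ≤ E * (481 * P) := by nlinarith
      exact le_of_mul_le_mul_left h1 hE
  · rw [abs_le]
    constructor
    · have h1 : E * (-(640 * P)) ≤ E * G00 := by nlinarith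
      exact le_of_mul_le_mul_left h1 hE
    · have h1 : E * G00 ≤ E * (640 * P) := by nlinarith
      exact le_of_mul_le_mul_left h1 hE
  · nlinarith
  · rw [abs_le]
    constructor <;> nlinarith
  · rw [abs_le]
    constructor <;> nlinarith

lemma Dat.coef_le (i : Fin 2) (j : ℕ) :
    |(fq a b s1 t1 s0 t0 G11 G01 G00 H00 i).coeff j| ≤ 2000 * (a * b) * (e * N) := by
  obtain ⟨h1, h2, h3, h4, h5, h6⟩ := D.bds
  have hE := D.eN0
  have hP1 : (1 : ℤ) ≤ a * b := by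
    have h1 : (1 : ℤ) ≤ a := by exact_mod_cast D.pa.one_lt.le
    have h2 : (1 : ℤ) ≤ b := by exact_mod_cast D.pb.one_lt.le
    nlinarith
  have hGp := D.Gp
  have hHp := D.H11p
  have hPE : (a : ℤ) * b ≤ (a * b) * (e * N) := by nlinarith
  rw [abs_le] at h2 h3 h5 h6
  unfold fq
  split_ifs
  · apply quad_coeff_le
    · rw [abs_le]; constructor <;> nlinarith
    · rw [abs_le]; constructor <;> nlinarith
    · rw [abs_le]; constructor <;> nlinarith
  · apply quad_coeff_le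
    · rw [abs_le]; constructor <;> nlinarith
    · rw [abs_le]; constructor <;> nlinarith
    · rw [abs_le]; constructor <;> nlinarith

lemma Dat.nsq0 : ¬ IsSquare ((4 * G01) ^ 2 - 4 * (4 * G11) * G00) := by
  rw [D.disc0]
  rintro ⟨x, hx⟩
  have h1 : (32 : ℤ) ∣ x := by
    have h2 : (32 : ℤ) ^ 2 ∣ x ^ 2 := ⟨a * b, by rw [pow_two x, ← hx]; norm_num⟩
    exact (Int.pow_dvd_pow_iff two_ne_zero).1 h2
  obtain ⟨y, hy⟩ := h1
  apply prod_not_sq D.pa D.pb D.hab y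
  rw [hy] at hx
  linarith

lemma Dat.nsq1 : ¬ IsSquare ((2 * ((a : ℤ) * s0 * s1 + b * t0 * t1)) ^ 2 -
    4 * (2 * ((a : ℤ) * s1 ^ 2 + b * t1 ^ 2)) * H00) := by
  rw [D.disc1]
  rintro ⟨x, hx⟩
  have h1 : 0 < 4 * ((a : ℤ) * b) * (8 * (e * N)) ^ 2 := by
    have := D.eN0
    have ha : (0 : ℤ) < a := by exact_mod_cast D.pa.pos
    have hb : (0 : ℤ) < b := by exact_mod_cast D.pb.pos
    positivity
  nlinarith [mul_self_nonneg x]

lemma Dat.irr (i : Fin 2) : Irreducible (fq a b s1 t1 s0 t0 G11 G01 G00 H00 i) := by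
  have hadm := D.adm
  fin_cases i
  · have e1 : fq a b s1 t1 s0 t0 G11 G01 G00 H00 0 = quad (4 * G11) (4 * G01) G00 := by
      unfold fq
      rw [if_pos rfl]
    change Irreducible (fq a b s1 t1 s0 t0 G11 G01 G00 H00 0)
    rw [e1]
    refine quad_irr _ _ _ (by have := D.Gp; omega) ?_ D.nsq0
    rintro p hp ⟨h1, h2, h3⟩
    obtain ⟨m, hm⟩ := hadm p hp
    apply hm 0
    rw [fq0]
    exact dvd_add (dvd_add (h1.mul_right _) (h2.mul_right _)) h3
  · have e1 : fq a b s1 t1 s0 t0 G11 G01 G00 H00 1 = quad (2 * ((a : ℤ) * s1 ^ 2 + b * t1 ^ 2))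
        (2 * ((a : ℤ) * s0 * s1 + b * t0 * t1)) H00 := by
      unfold fq
      rw [if_neg (by decide)]
    change Irreducible (fq a b s1 t1 s0 t0 G11 G01 G00 H00 1)
    rw [e1]
    refine quad_irr _ _ _ (by have := D.H11p; omega) ?_ D.nsq1
    rintro p hp ⟨h1, h2, h3⟩
    obtain ⟨m, hm⟩ := hadm p hp
    apply hm 1
    rw [fq1]
    exact dvd_add (dvd_add (h1.mul_right _) (h2.mul_right _)) h3

omit D in
/-- comparison of the values of a quadratic polynomial and a translate -/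
lemma disc_shift (α β γ α' β' γ' t : ℤ)
    (h : quad α β γ = (quad α' β' γ').comp (Polynomial.X + C t)) :
    α = α' ∧ β = β' + 2 * α' * t ∧ β ^ 2 - 4 * α * γ = β' ^ 2 - 4 * α' * γ' := by
  have h0 := congrArg (Polynomial.eval 0) h
  have h1 := congrArg (Polynomial.eval 1) h
  have h2 := congrArg (Polynomial.eval (-1)) h
  rw [eval_comp, quad_eval, quad_eval, eval_add, eval_X, eval_C] at h0 h1 h2
  have e1 : α = α' := by linarith
  have e2 : β = β' + 2 * α' * t := by linarith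
  refine ⟨e1, e2, ?_⟩
  have e3 : γ = α' * t ^ 2 + β' * t + γ' := by linarith
  rw [e1, e2, e3]
  ring

lemma Dat.hyp (A X : ℕ) (hX : 2000 * ((a : ℤ) * b) * (e * N) ≤ (X : ℤ) ^ A) :
    SysU.Hyp (fq a b s1 t1 s0 t0 G11 G01 G00 H00) 2 A X := by
  have e0 : fq a b s1 t1 s0 t0 G11 G01 G00 H00 0 = quad (4 * G11) (4 * G01) G00 := by
    unfold fq
    rw [if_pos rfl]
  have e1 : fq a b s1 t1 s0 t0 G11 G01 G00 H00 1 = quad (2 * ((a : ℤ) * s1 ^ 2 + b * t1 ^ 2))
      (2 * ((a : ℤ) * s0 * s1 + b * t0 * t1)) H00 := by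
    unfold fq
    rw [if_neg (by decide)]
  have hG := D.Gp
  have hH := D.H11p
  have l0 : (4 * G11) ≠ 0 := by omega
  have l1 : (2 * ((a : ℤ) * s1 ^ 2 + b * t1 ^ 2)) ≠ 0 := by omega
  have d0 : 0 < (4 * G01) ^ 2 - 4 * (4 * G11) * G00 := by
    rw [D.disc0]
    have ha : (0 : ℤ) < a := by exact_mod_cast D.pa.pos
    have hb : (0 : ℤ) < b := by exact_mod_cast D.pb.pos
    positivity
  have d1 : (2 * ((a : ℤ) * s0 * s1 + b * t0 * t1)) ^ 2 -
      4 * (2 * ((a : ℤ) * s1 ^ 2 + b * t1 ^ 2)) * H00 < 0 := by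
    rw [D.disc1]
    have h1 : 0 < 4 * ((a : ℤ) * b) * (8 * (e * N)) ^ 2 := by
      have := D.eN0
      have ha : (0 : ℤ) < a := by exact_mod_cast D.pa.pos
      have hb : (0 : ℤ) < b := by exact_mod_cast D.pb.pos
      positivity
    linarith
  refine ⟨D.irr, ?_, ?_, ?_, fun i j => (D.coef_le i j).trans hX, D.adm, ?_⟩
  · intro i
    fin_cases i
    · change 0 < (fq a b s1 t1 s0 t0 G11 G01 G00 H00 0).natDegree
      rw [e0, quad_deg _ _ _ l0]
      norm_num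
    · change 0 < (fq a b s1 t1 s0 t0 G11 G01 G00 H00 1).natDegree
      rw [e1, quad_deg _ _ _ l1]
      norm_num
  · intro i
    fin_cases i
    · change (fq a b s1 t1 s0 t0 G11 G01 G00 H00 0).natDegree ≤ 2
      rw [e0, quad_deg _ _ _ l0]
    · change (fq a b s1 t1 s0 t0 G11 G01 G00 H00 1).natDegree ≤ 2
      rw [e1, quad_deg _ _ _ l1]
  · intro i
    fin_cases i
    · change 0 < (fq a b s1 t1 s0 t0 G11 G01 G00 H00 0).leadingCoeff
      rw [e0, quad_lead _ _ _ l0]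
      omega
    · change 0 < (fq a b s1 t1 s0 t0 G11 G01 G00 H00 1).leadingCoeff
      rw [e1, quad_lead _ _ _ l1]
      omega
  · intro i j t ht _ h
    have htz : (1 : ℤ) ≤ t := by exact_mod_cast ht
    fin_cases i <;> fin_cases j
    · change fq a b s1 t1 s0 t0 G11 G01 G00 H00 0 =
        (fq a b s1 t1 s0 t0 G11 G01 G00 H00 0).comp (Polynomial.X + C (t : ℤ)) at h
      rw [e0] at h
      obtain ⟨-, h2, -⟩ := disc_shift _ _ _ _ _ _ _ h
      nlinarith
    · change fq a b s1 t1 s0 t0 G11 G01 G00 H00 0 =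
        (fq a b s1 t1 s0 t0 G11 G01 G00 H00 1).comp (Polynomial.X + C (t : ℤ)) at h
      rw [e0, e1] at h
      obtain ⟨-, -, h3⟩ := disc_shift _ _ _ _ _ _ _ h
      rw [← h3] at d1
      exact lt_asymm d0 d1
    · change fq a b s1 t1 s0 t0 G11 G01 G00 H00 1 =
        (fq a b s1 t1 s0 t0 G11 G01 G00 H00 0).comp (Polynomial.X + C (t : ℤ)) at h
      rw [e0, e1] at h
      obtain ⟨-, -, h3⟩ := disc_shift _ _ _ _ _ _ _ h
      rw [← h3] at d0
      exact lt_asymm d0 d1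
    · change fq a b s1 t1 s0 t0 G11 G01 G00 H00 1 =
        (fq a b s1 t1 s0 t0 G11 G01 G00 H00 1).comp (Polynomial.X + C (t : ℤ)) at h
      rw [e1] at h
      obtain ⟨-, h2, -⟩ := disc_shift _ _ _ _ _ _ _ h
      nlinarith

/-- at least two classes modulo the primes `p ≡ 3 mod 4` -/
lemma Dat.nu_cmp (p : ℕ) (hp : p.Prime)
    (hpE : ¬ (p : ℤ) ∣ (a * b * N) * (G11 * ((a : ℤ) * s1 ^ 2 + b * t1 ^ 2))) :
    nuB Thr.Q3 p ≤ nuB (Q (fq a b s1 t1 s0 t0 G11 G01 G00 H00)) p := by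
  classical
  rw [Thr.nu3]
  split_ifs with h
  swap
  · exact Nat.zero_le _
  have : Fact p.Prime := ⟨hp⟩
  obtain ⟨h4, h5⟩ := h
  have hpi : Prime (p : ℤ) := Nat.prime_iff_prime_int.1 hp
  have hp2 : p ≠ 2 := by omega
  have hdvd : ∀ x y : ℤ, (p : ℤ) ∣ x → x ∣ y → (p : ℤ) ∣ y := fun x y h1 h2 => h1.trans h2
  have na : ¬ (p : ℤ) ∣ (a : ℤ) := fun h => hpE (h.trans ⟨b * N * (G11 * ((a : ℤ) * s1 ^ 2 + b * t1 ^ 2)), by ring⟩)
  have nb : ¬ (p : ℤ) ∣ (b : ℤ) := fun h => hpE (h.trans ⟨a * N * (G11 * ((a : ℤ) * s1 ^ 2 + b * t1 ^ 2)), by ring⟩)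
  have nN : ¬ (p : ℤ) ∣ (N : ℤ) := fun h => hpE (h.trans ⟨a * b * (G11 * ((a : ℤ) * s1 ^ 2 + b * t1 ^ 2)), by ring⟩)
  have nG : ¬ (p : ℤ) ∣ G11 := fun h => hpE (h.trans ⟨a * b * N * ((a : ℤ) * s1 ^ 2 + b * t1 ^ 2), by ring⟩)
  have nH : ¬ (p : ℤ) ∣ ((a : ℤ) * s1 ^ 2 + b * t1 ^ 2) := fun h => hpE (h.trans ⟨a * b * N * G11, by ring⟩)
  have n2 : ¬ (p : ℤ) ∣ 2 := by
    intro h
    have h5 : p ∣ 2 := by exact_mod_cast h
    exact hp2 ((Nat.prime_dvd_prime_iff_eq hp Nat.prime_two).1 h5)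
  have nM := D.not_dvd_M hp hp2 (fun h => nN (by exact_mod_cast h))
  have hab0 : ((a : ZMod p) * b) ≠ 0 := by
    intro h0
    have h1 : (((a : ℤ) * b : ℤ) : ZMod p) = 0 := by push_cast; exact h0
    rcases hpi.dvd_or_dvd ((ZMod.intCast_zmod_eq_zero_iff_dvd _ p).1 h1) with h2 | h2
    · exact na h2
    · exact nb h2
  have h20 : (2 : ZMod p) ≠ 0 := by
    intro h
    have h9 : ((2 : ℤ) : ZMod p) = 0 := by exact_mod_cast h
    exact n2 ((ZMod.intCast_zmod_eq_zero_iff_dvd _ p).1 h9)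
  have hM0 : ((8 * (e * (N : ℤ)) : ℤ) : ZMod p) ≠ 0 := by
    intro h
    exact nM ((ZMod.intCast_zmod_eq_zero_iff_dvd _ p).1 h)
  have hneg : (-1 : ZMod p) ^ (p / 2) = -1 := by
    have h6 : Odd (p / 2) := by
      rw [Nat.odd_iff]
      omega
    exact h6.neg_one_pow
  have hsub : ∀ i : Fin 2, ((range p).filter (fun m : ℕ =>
      (p : ℤ) ∣ (fq a b s1 t1 s0 t0 G11 G01 G00 H00 i).eval (m : ℤ))).card ≤
      nuB (Q (fq a b s1 t1 s0 t0 G11 G01 G00 H00)) p := by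
    intro i
    unfold nuB
    apply card_le_card
    intro m hm
    rw [mem_filter] at hm ⊢
    exact ⟨hm.1, i, hm.2⟩
  rcases ZMod.pow_div_two_eq_neg_one_or_one p hab0 with h1 | h1
  · obtain ⟨s, hs⟩ := (ZMod.euler_criterion p hab0).2 h1
    refine le_trans ?_ (hsub 0)
    have hs0 : s ≠ 0 := by
      rintro rfl
      apply hab0
      rw [hs]
      ring
    have h6 := two_roots p hp2 (4 * G11) (4 * G01) G00 (by
      intro h
      rcases hpi.dvd_or_dvd h with h7 | h7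
      · apply n2
        have h9 : (p : ℤ) ∣ 2 ^ 2 := by norm_num; exact h7
        exact hpi.dvd_of_dvd_pow h9
      · exact nG h7) (32 * s) (by
        have e32 : (32 : ZMod p) = 2 ^ 5 := by norm_num
        rw [e32]
        exact mul_ne_zero (pow_ne_zero 5 h20) hs0) (by
        rw [D.disc0]
        push_cast
        rw [hs]
        ring)
    refine h6.trans (le_of_eq ?_)
    congr 1
    apply Finset.filter_congr
    intro m _
    rw [fq0]
  · have h2 : (-((a : ZMod p) * b)) ^ (p / 2) = 1 := by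
      rw [neg_pow, hneg, h1]
      ring
    obtain ⟨s, hs⟩ := (ZMod.euler_criterion p (neg_ne_zero.2 hab0)).2 h2
    refine le_trans ?_ (hsub 1)
    have hs0 : s ≠ 0 := by
      rintro rfl
      apply hab0
      have h3 : (a : ZMod p) * b = -(0 * 0) := by rw [← hs]; ring
      rw [h3]
      ring
    have h6 := two_roots p hp2 (2 * ((a : ℤ) * s1 ^ 2 + b * t1 ^ 2))
      (2 * ((a : ℤ) * s0 * s1 + b * t0 * t1)) H00 (by
      intro h
      rcases hpi.dvd_or_dvd h with h7 | h7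
      · exact n2 h7
      · exact nH h7) (2 * s * ((8 * (e * (N : ℤ)) : ℤ) : ZMod p)) (by
        exact mul_ne_zero (mul_ne_zero h20 hs0) hM0) (by
        rw [D.disc1]
        push_cast
        linear_combination (-4 * (8 * ((e : ZMod p) * N)) ^ 2) * hs)
    refine h6.trans (le_of_eq ?_)
    congr 1
    apply Finset.filter_congr
    intro m _
    rw [fq1]

end

end Pool.Agent.Y859.MU
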